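import Pool.Agent.Lib.P4f18dfQ.Level

/-!
# The Weil bound (up to a constant) for quadratic character sums

Module QT.Weil.  First the case `0 ∉ S`.  For `x` put `F x = ∏ (x - s)`; by Euler's criterion
(`quadraticChar_eq_pow_of_char_ne_two'` or `ZMod.euler_criterion`), `quadraticChar (F x)` is `1`,
`-1`, `0` according to `F x ^ ((p-1)/2) = 1`, `-1`, or `F x = 0` (`m` points).  With
`N₁, N₂` the numbers of `x` with values `1, -1`: `N₁ + N₂ = p - m` and the sum is `N₁ - N₂`, so
`|sum| ≤ 2 max(N₁, N₂) - p + m`.  `card_level_le` with `L = ⌊√p / 2⌋` (natural number with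
`L ≤ √p / 2`, `L ≥ √p / 4` when `p ≥ 16`), for `p ≥ p₀ m`: `N ≤ p / 2 + 3 m p / (4 L) ≤
p/2 + 3 m √p`, so `|sum| ≤ 6 m √p + m ≤ 7 m √p`.  `hbig`: `2 (L^2 + L) + m + 2 ≤ p/2 + √p + m + 2
≤ p` for `p` large in terms of `m`.  For `p < p₀ m` use the trivial bound `|sum| ≤ p ≤ √p₀ √p`.
General `S` (`card = m`): if `m < p` choose `b ∉ S`; replacing `x` by `x + b` shows that the sum for
`S` equals the sum for `S' = S.image (· - b)`, `0 ∉ S'`.  If `m = p` the bound is trivial
(`p = m` is bounded).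
-/

set_option autoImplicit false

namespace Pool.Agent.P4f18dfQ

open Polynomial Finset

namespace Weil

variable {p : ℕ} [Fact p.Prime]

/-- the polynomial function -/
def FF (S : Finset (ZMod p)) (x : ZMod p) : ZMod p := ∏ s ∈ S, (x - s)

lemma FF_eq_zero (S : Finset (ZMod p)) (x : ZMod p) : FF S x = 0 ↔ x ∈ S := by
  unfold FF
  rw [Finset.prod_eq_zero_iff]
  constructor
  · rintro ⟨a, ha, h⟩
    rw [sub_eq_zero] at h
    rwa [h]
  · intro h
    exact ⟨x, h, sub_self x⟩

lemma abs_quad_le (a : ZMod p) : |((quadraticChar (ZMod p) a : ℤ) : ℝ)| ≤ 1 := by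
  by_cases h : a = 0
  · rw [h]; simp
  · rcases quadraticChar_dichotomy h with h1 | h1 <;> rw [h1] <;> simp

lemma trivial_bound (S : Finset (ZMod p)) :
    |∑ x : ZMod p, ((quadraticChar (ZMod p) (∏ s ∈ S, (x - s)) : ℤ) : ℝ)| ≤ p := by
  refine (Finset.abs_sum_le_sum_abs _ _).trans ?_
  refine (Finset.sum_le_sum (fun x _ => abs_quad_le _)).trans ?_
  simp [ZMod.card]

/-- the sum is `2 N - (p - m)` up to sign -/
lemma sum_le (hp2 : p ≠ 2) (S : Finset (ZMod p)) (e : ℤ) (he : e = 1 ∨ e = -1) :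
    (e : ℝ) * ∑ x : ZMod p, ((quadraticChar (ZMod p) (∏ s ∈ S, (x - s)) : ℤ) : ℝ) =
      2 * ((univ.filter (fun x : ZMod p =>
        (∏ s ∈ S, (x - s)) ^ ((p - 1) / 2) = (e : ZMod p))).card : ℝ) - (p - S.card) := by
  classical
  have hp := (Fact.out : p.Prime)
  have hodd : p % 2 = 1 := by
    rcases hp.eq_two_or_odd with h | h
    · exact absurd h hp2
    · exact h
  have hhalf : (p - 1) / 2 = Fintype.card (ZMod p) / 2 := by
    rw [ZMod.card]; omega
  have hchar : ringChar (ZMod p) ≠ 2 := by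
    rw [ZMod.ringChar_zmod_n]; exact hp2
  have hpos : 0 < (p - 1) / 2 := by
    have := hp.two_le
    omega
  have h1 : ∀ x : ZMod p, (e : ℝ) * ((quadraticChar (ZMod p) (∏ s ∈ S, (x - s)) : ℤ) : ℝ) =
      2 * (if (∏ s ∈ S, (x - s)) ^ ((p - 1) / 2) = (e : ZMod p) then (1 : ℝ) else 0) -
        (1 - if x ∈ S then (1 : ℝ) else 0) := by
    intro x
    have hq := quadraticChar_eq_pow_of_char_ne_two' hchar (∏ s ∈ S, (x - s))
    rw [hhalf, ← hq]
    by_cases hx : x ∈ S
    · have h0 : (∏ s ∈ S, (x - s)) = 0 := (FF_eq_zero S x).2 hx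
      rw [h0]
      have : ¬ (((quadraticChar (ZMod p) (0 : ZMod p) : ℤ) : ZMod p) = (e : ZMod p)) := by
        rw [quadraticChar_zero]
        rcases he with h | h <;> rw [h] <;> simp
      rw [if_neg this, if_pos hx, quadraticChar_zero]
      simp
    · have h0 : (∏ s ∈ S, (x - s)) ≠ 0 := fun h => hx ((FF_eq_zero S x).1 h)
      rw [if_neg hx]
      have hne : (1 : ZMod p) ≠ -1 := by
        intro h
        have h2 : (2 : ZMod p) = 0 := by linear_combination h
        have h3 : ((2 : ℕ) : ZMod p) = 0 := by exact_mod_cast h2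
        rw [ZMod.natCast_eq_zero_iff] at h3
        exact hp2 ((Nat.prime_dvd_prime_iff_eq hp Nat.prime_two).1 h3)
      rcases quadraticChar_dichotomy h0 with h | h <;> rcases he with h' | h' <;> rw [h, h']
      · norm_num
      · have : ¬ (((1 : ℤ) : ZMod p) = ((-1 : ℤ) : ZMod p)) := by
          push_cast; exact hne
        rw [if_neg this]; norm_num
      · have : ¬ (((-1 : ℤ) : ZMod p) = ((1 : ℤ) : ZMod p)) := by
          push_cast; exact hne.symm
        rw [if_neg this]; norm_num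
      · norm_num
  rw [Finset.mul_sum, Finset.sum_congr rfl (fun x _ => h1 x), Finset.sum_sub_distrib,
    ← Finset.mul_sum, Finset.sum_sub_distrib, Finset.sum_boole, Finset.sum_boole]
  have h2 : (univ.filter (fun x : ZMod p => x ∈ S)) = S := by
    ext x; simp
  rw [h2]
  simp [ZMod.card]

lemma level_real (hp2 : p ≠ 2) (S : Finset (ZMod p)) (hS : S.Nonempty) (h0 : (0 : ZMod p) ∉ S)
    (hbig : 16 * (S.card + 2) ≤ p) (a : ZMod p) (ha : a ≠ 0) :
    2 * ((univ.filter (fun x : ZMod p =>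
        (∏ s ∈ S, (x - s)) ^ ((p - 1) / 2) = a)).card : ℝ) - (p - S.card) ≤
      7 * S.card * Real.sqrt p := by
  set N := (univ.filter (fun x : ZMod p =>
        (∏ s ∈ S, (x - s)) ^ ((p - 1) / 2) = a)).card with hN
  have hc : 1 ≤ S.card := hS.card_pos
  set r := Nat.sqrt p with hr
  have hr1 : r * r ≤ p := Nat.sqrt_le p
  have hr2 : p < (r + 1) * (r + 1) := Nat.lt_succ_sqrt p
  have hr3 : 6 ≤ r := by
    by_contra hcon
    have : r ≤ 5 := by omega
    have : (r + 1) * (r + 1) ≤ 6 * 6 := Nat.mul_le_mul (by omega) (by omega)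
    omega
  set L := r / 2 with hL
  have hL1 : 2 * L ≤ r := by omega
  have hL2 : r ≤ 2 * L + 1 := by omega
  have hL3 : 3 ≤ L := by omega
  have h4 : 4 * (L * L) ≤ p := by nlinarith
  have h5 : 4 * L ≤ L * L + 4 := by nlinarith
  have h6 : 2 * (L ^ 2 + L) + S.card + 2 ≤ p := by
    have : 16 * L ≤ p + 16 := by omega
    rw [pow_two]
    omega
  have h7 := card_level_le hp2 S hS h0 a ha L (by omega) h6
  rw [← hN] at h7
  have h7' : 4 * (L : ℝ) * N ≤ 2 * p * L + 3 * S.card * p := by exact_mod_cast h7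
  have hs0 : 0 ≤ Real.sqrt p := Real.sqrt_nonneg _
  have hsp : Real.sqrt p * Real.sqrt p = p := Real.mul_self_sqrt (Nat.cast_nonneg _)
  have hs1 : Real.sqrt p ≤ r + 1 := by
    rw [Real.sqrt_le_left (by positivity)]
    have : (p : ℝ) < ((r : ℝ) + 1) * (r + 1) := by exact_mod_cast hr2
    nlinarith
  have hLr : (3 : ℝ) ≤ L := by exact_mod_cast hL3
  have hL2r : (r : ℝ) ≤ 2 * L + 1 := by exact_mod_cast hL2
  have hs2 : Real.sqrt p ≤ 4 * L := by linarith
  have hcr : (1 : ℝ) ≤ S.card := by exact_mod_cast hc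
  have hs3 : 1 ≤ Real.sqrt p := by
    rw [Real.one_le_sqrt]
    have : (1 : ℕ) ≤ p := by omega
    exact_mod_cast this
  -- `3 m p ≤ 12 m L √p`
  have h8 : 3 * (S.card : ℝ) * p ≤ 12 * S.card * L * Real.sqrt p := by
    have : (p : ℝ) ≤ 4 * L * Real.sqrt p := by
      calc (p : ℝ) = Real.sqrt p * Real.sqrt p := hsp.symm
        _ ≤ 4 * L * Real.sqrt p := mul_le_mul_of_nonneg_right hs2 hs0
    nlinarith
  have h9 : (4 * (L : ℝ)) * N ≤ (4 * (L : ℝ)) * (p / 2 + 3 * S.card * Real.sqrt p) := by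
    nlinarith
  have h10 : (N : ℝ) ≤ p / 2 + 3 * S.card * Real.sqrt p :=
    le_of_mul_le_mul_left h9 (by linarith)
  nlinarith

lemma main_bound (hp2 : p ≠ 2) (S : Finset (ZMod p)) (hS : S.Nonempty) (h0 : (0 : ZMod p) ∉ S)
    (hbig : 16 * (S.card + 2) ≤ p) :
    |∑ x : ZMod p, ((quadraticChar (ZMod p) (∏ s ∈ S, (x - s)) : ℤ) : ℝ)| ≤
      7 * S.card * Real.sqrt p := by
  have h1 := sum_le hp2 S 1 (Or.inl rfl)
  have h2 := sum_le hp2 S (-1) (Or.inr rfl)
  have h3 := level_real hp2 S hS h0 hbig ((1 : ℤ) : ZMod p) (by simp)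
  have h4 := level_real hp2 S hS h0 hbig ((-1 : ℤ) : ZMod p) (by simp)
  rw [← h1] at h3
  rw [← h2] at h4
  push_cast at h3 h4
  rw [abs_le]
  constructor <;> linarith

lemma translate (S : Finset (ZMod p)) (b : ZMod p) :
    ∑ x : ZMod p, ((quadraticChar (ZMod p) (∏ s ∈ S, (x - s)) : ℤ) : ℝ) =
      ∑ x : ZMod p, ((quadraticChar (ZMod p)
        (∏ s ∈ S.image (fun s => s - b), (x - s)) : ℤ) : ℝ) := by
  classical
  rw [← Equiv.sum_comp (Equiv.addRight b)]
  refine Finset.sum_congr rfl fun x _ => ?_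
  rw [Finset.prod_image (fun s _ t _ h => by simpa using h)]
  have : (∏ s ∈ S, ((Equiv.addRight b) x - s)) = ∏ s ∈ S, (x - (s - b)) := by
    refine Finset.prod_congr rfl fun s _ => ?_
    rw [Equiv.coe_addRight]
    ring
  rw [this]

end Weil

open Weil in
theorem weil (m : ℕ) (hm : 1 ≤ m) : ∃ C : ℝ, 0 < C ∧ ∀ p : ℕ, ∀ [Fact p.Prime], p ≠ 2 →
    ∀ S : Finset (ZMod p), S.card = m →
      |∑ x : ZMod p, ((quadraticChar (ZMod p) (∏ s ∈ S, (x - s)) : ℤ) : ℝ)| ≤
        C * Real.sqrt p := by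
  classical
  refine ⟨16 * (m + 2), by positivity, ?_⟩
  intro p _ hp2 S hS
  have hp := (Fact.out : p.Prime)
  have hs0 : 0 ≤ Real.sqrt p := Real.sqrt_nonneg _
  have hs1 : 1 ≤ Real.sqrt p := by
    rw [Real.one_le_sqrt]
    exact_mod_cast hp.one_lt.le
  rcases lt_or_ge p (16 * (m + 2)) with h | h
  · have h1 : (p : ℝ) ≤ 16 * (m + 2) := by exact_mod_cast h.le
    refine (trivial_bound S).trans (h1.trans ?_)
    have : (0 : ℝ) ≤ 16 * (m + 2) := by positivity
    nlinarith
  · obtain ⟨b, hb⟩ : ∃ b, b ∉ S := by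
      by_contra hcon
      push Not at hcon
      have : S = univ := by
        ext x; simp [hcon x]
      rw [this, Finset.card_univ, ZMod.card] at hS
      omega
    have hinj : Function.Injective (fun s : ZMod p => s - b) := fun s t h => by simpa using h
    have hcard : (S.image (fun s => s - b)).card = m := by
      rw [Finset.card_image_of_injective _ hinj, hS]
    have hne : (S.image (fun s => s - b)).Nonempty := by
      rw [← Finset.card_pos, hcard]; omega
    have h0 : (0 : ZMod p) ∉ S.image (fun s => s - b) := by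
      rw [Finset.mem_image]
      rintro ⟨s, hs, h'⟩
      rw [sub_eq_zero] at h'
      rw [h'] at hs
      exact hb hs
    rw [translate S b]
    have h2 := main_bound hp2 _ hne h0 (by rw [hcard]; exact h)
    rw [hcard] at h2
    refine h2.trans ?_
    have : (0 : ℝ) ≤ m := by positivity
    nlinarith

end Pool.Agent.P4f18dfQ
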