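import Pool.Agent.Lib.P4f18dfQ.Loc

/-!
# A quantitative form of the method of moments, uniform in `t`

Module QT.Quant.  First for a fixed `t`: for every `δ > 0` there is `K ≥ 1` with the stated property
at this `t` (and then the property also holds for every larger `K`, because the hypotheses get
stronger).  Otherwise for each `K` there are `f K, X K, H K` violating it; `H K ≥ K → ∞`,
`X K ≥ (H K)^2 → ∞`, and the moments satisfy the hypothesis of `gauss_of_momLoc` (for given `k, η`: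
all `K ≥ max k (1/η)`), so the law converges to `Φ(t)`: contradiction.
Uniformity: `Φ = cdf (gaussianReal 0 1)` is continuous (no atoms), monotone, with limits `0` and `1`;
choose `t₁ < ... < t_r` with `Φ(t₁) ≤ δ/2`, `1 - Φ(t_r) ≤ δ/2`, `Φ(t_{i+1}) - Φ(t_i) ≤ δ/2` and let `K`
be the maximum of the values for `(t_i, δ/2)`; the left side `G(t) = volume {...} / X` is monotone in
`t`, `0 ≤ G ≤ 1` (`volume (Icc X (2X)) = X`), so `|G(t) - Φ(t)| ≤ δ` for all `t`.
-/

set_option autoImplicit false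

namespace Pool.Agent.P4f18dfQ

open Finset Filter MeasureTheory ProbabilityTheory Pool.Agent.P4f18df

namespace Quant

/-- the distribution function -/
noncomputable def G (f : ℕ → ℝ) (X H t : ℝ) : ℝ :=
  (volume {x : ℝ | x ∈ Set.Icc X (2 * X) ∧
    Ms f x H / Real.sqrt (H / (Real.pi ^ 2 / 6)) ≤ t}).toReal / X

/-- the hypothesis on the moments -/
def Hyp (K : ℕ) (f : ℕ → ℝ) (X H : ℝ) : Prop :=
  SgnFun f ∧ (K : ℝ) ≤ H ∧ H ≤ Real.sqrt X ∧
    ∀ k ∈ Icc 1 K, |Dk f k ⌊X⌋₊ ⌊H⌋₊| ≤ (1 / K : ℝ) * (Real.sqrt ⌊H⌋₊) ^ k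

lemma Hyp.anti {K L : ℕ} (hK : 1 ≤ K) (hKL : K ≤ L) {f : ℕ → ℝ} {X H : ℝ} (h : Hyp L f X H) :
    Hyp K f X H := by
  obtain ⟨h1, h2, h3, h4⟩ := h
  have hK0 : (0:ℝ) < K := by exact_mod_cast hK
  have hKL' : (K : ℝ) ≤ L := by exact_mod_cast hKL
  refine ⟨h1, by linarith, h3, ?_⟩
  intro k hk
  rw [Finset.mem_Icc] at hk
  refine le_trans (h4 k (Finset.mem_Icc.2 ⟨hk.1, by omega⟩)) ?_
  apply mul_le_mul_of_nonneg_right _ (by positivity)
  exact one_div_le_one_div_of_le hK0 hKL'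

lemma sqrt_lower {X H : ℝ} (h1 : 1 ≤ H) (h2 : H ≤ Real.sqrt X) : H ≤ X := by
  have h3 : 0 ≤ X := by
    by_contra h
    rw [Real.sqrt_eq_zero_of_nonpos (by linarith)] at h2
    linarith
  have h4 := Real.mul_self_sqrt h3
  nlinarith

lemma pointwise (t δ : ℝ) (hδ : 0 < δ) : ∃ K : ℕ, 1 ≤ K ∧ ∀ f X H, Hyp K f X H →
    |G f X H t - cdf (gaussianReal 0 1) t| ≤ δ := by
  by_contra hcon
  push Not at hcon
  have hc : ∀ i : ℕ, ∃ f : ℕ → ℝ, ∃ X H : ℝ, Hyp (i + 1) f X H ∧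
      δ < |G f X H t - cdf (gaussianReal 0 1) t| := fun i => hcon (i + 1) (by omega)
  choose f X H hh hd using hc
  have hHi : ∀ i : ℕ, (i : ℝ) ≤ H i := by
    intro i
    have := (hh i).2.1
    push_cast at this
    linarith
  have hH1 : Tendsto H atTop atTop := tendsto_atTop_mono hHi tendsto_natCast_atTop_atTop
  have hXi : ∀ i : ℕ, H i ≤ X i := by
    intro i
    have h1 := (hh i).2.1
    push_cast at h1
    have h0 : (0:ℝ) ≤ i := Nat.cast_nonneg i
    exact sqrt_lower (by linarith) (hh i).2.2.1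
  have hX : Tendsto X atTop atTop := tendsto_atTop_mono hXi hH1
  have hm : ∀ k : ℕ, 1 ≤ k → ∀ η : ℝ, 0 < η → ∀ᶠ i : ℕ in atTop,
      |Dk (f i) k ⌊X i⌋₊ ⌊H i⌋₊| ≤ η * (Real.sqrt ⌊H i⌋₊) ^ k := by
    intro k hk η hη
    obtain ⟨m, hm⟩ := exists_nat_gt (1 / η)
    filter_upwards [eventually_ge_atTop k, eventually_ge_atTop m] with i hi1 hi2
    refine le_trans ((hh i).2.2.2 k (Finset.mem_Icc.2 ⟨hk, by omega⟩)) ?_
    apply mul_le_mul_of_nonneg_right _ (by positivity)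
    have h1 : (m : ℝ) ≤ i := by exact_mod_cast hi2
    push_cast
    rw [div_le_iff₀ (by positivity)]
    rw [div_lt_iff₀ hη] at hm
    nlinarith
  have hT := gauss_of_momLoc (fun i => (hh i).1) X H hX hm hH1
    (Filter.Eventually.of_forall (fun i => (hh i).2.2.1)) t
  rw [Metric.tendsto_nhds] at hT
  obtain ⟨i, hi⟩ := (hT δ hδ).exists
  have h2 := hd i
  rw [Real.dist_eq] at hi
  unfold G at h2
  linarith

lemma G_mono {f : ℕ → ℝ} {X H : ℝ} (hX : 0 < X) : Monotone (G f X H) := by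
  intro s t hst
  unfold G
  apply div_le_div_of_nonneg_right _ hX.le
  apply ENNReal.toReal_mono
  · refine ne_top_of_le_ne_top ?_ (measure_mono (fun x hx => hx.1) :
      _ ≤ volume (Set.Icc X (2 * X)))
    rw [Real.volume_Icc]; exact ENNReal.ofReal_ne_top
  · apply measure_mono
    intro x hx
    exact ⟨hx.1, le_trans hx.2 hst⟩

lemma G_nonneg {f : ℕ → ℝ} {X H t : ℝ} (hX : 0 < X) : 0 ≤ G f X H t := by
  unfold G; positivity

lemma G_le_one {f : ℕ → ℝ} {X H t : ℝ} (hX : 0 < X) : G f X H t ≤ 1 := by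
  unfold G
  rw [div_le_one hX]
  apply ENNReal.toReal_le_of_le_ofReal hX.le
  refine le_trans (measure_mono (fun x hx => hx.1) : _ ≤ volume (Set.Icc X (2 * X))) ?_
  rw [Real.volume_Icc]
  apply ENNReal.ofReal_le_ofReal
  linarith

lemma cdf_cont : Continuous (cdf (gaussianReal 0 1)) := by
  rw [continuous_iff_continuousAt]
  intro a
  rw [(monotone_cdf (gaussianReal 0 1)).continuousAt_iff_leftLim_eq_rightLim]
  rw [StieltjesFunction.rightLim_eq]
  have h1 := (cdf (gaussianReal 0 1)).measure_singleton a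
  rw [measure_cdf] at h1
  have : NullSingletonClass (gaussianReal 0 1) := nullSingletonClass_gaussianReal (by norm_num)
  rw [measure_singleton] at h1
  have h2 : cdf (gaussianReal 0 1) a - Function.leftLim (cdf (gaussianReal 0 1)) a ≤ 0 := by
    rw [← ENNReal.ofReal_eq_zero]; exact h1.symm
  have h3 := (monotone_cdf (gaussianReal 0 1)).leftLim_le (le_refl a)
  linarith

lemma exists_value {c : ℝ} (h0 : 0 < c) (h1 : c < 1) : ∃ t, cdf (gaussianReal 0 1) t = c := by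
  have e1 : ∃ a, cdf (gaussianReal 0 1) a ≤ c := by
    have := (tendsto_cdf_atBot (gaussianReal 0 1)).eventually (gt_mem_nhds h0)
    obtain ⟨a, ha⟩ := this.exists
    exact ⟨a, ha.le⟩
  have e2 : ∃ b, c ≤ cdf (gaussianReal 0 1) b := by
    have := (tendsto_cdf_atTop (gaussianReal 0 1)).eventually (lt_mem_nhds h1)
    obtain ⟨a, ha⟩ := this.exists
    exact ⟨a, ha.le⟩
  exact mem_range_of_exists_le_of_exists_ge cdf_cont e1 e2

end Quant

theorem quant (δ : ℝ) (hδ : 0 < δ) : ∃ K : ℕ, 1 ≤ K ∧ ∀ f : ℕ → ℝ, SgnFun f → ∀ X H : ℝ,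
    (K : ℝ) ≤ H → H ≤ Real.sqrt X →
    (∀ k ∈ Icc 1 K, |Dk f k ⌊X⌋₊ ⌊H⌋₊| ≤ (1 / K : ℝ) * (Real.sqrt ⌊H⌋₊) ^ k) → ∀ t : ℝ,
      |(volume {x : ℝ | x ∈ Set.Icc X (2 * X) ∧
          Ms f x H / Real.sqrt (H / (Real.pi ^ 2 / 6)) ≤ t}).toReal / X -
        cdf (gaussianReal 0 1) t| ≤ δ := by
  classical
  obtain ⟨n, hn⟩ := exists_nat_gt (4 / δ)
  have hn0 : (0:ℝ) < n := lt_trans (by positivity) hn
  have hn2 : 2 / (n : ℝ) ≤ δ / 2 := by
    rw [div_lt_iff₀ hδ] at hn
    rw [div_le_iff₀ hn0]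
    linarith
  have hT : ∀ j : ℕ, ∃ t : ℝ, (1 ≤ j ∧ j < n) → cdf (gaussianReal 0 1) t = (j : ℝ) / n := by
    intro j
    by_cases hj : 1 ≤ j ∧ j < n
    · have h1 : (0:ℝ) < (j : ℝ) / n := by
        apply div_pos _ hn0
        exact_mod_cast hj.1
      have h2 : (j : ℝ) / n < 1 := by
        rw [div_lt_one hn0]; exact_mod_cast hj.2
      obtain ⟨t, ht⟩ := Quant.exists_value h1 h2
      exact ⟨t, fun _ => ht⟩
    · exact ⟨0, fun h => absurd h hj⟩
  choose T hT using hT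
  have hK : ∀ j : ℕ, ∃ K : ℕ, 1 ≤ K ∧ ∀ f X H, Quant.Hyp K f X H →
      |Quant.G f X H (T j) - cdf (gaussianReal 0 1) (T j)| ≤ δ / 2 :=
    fun j => Quant.pointwise (T j) (δ / 2) (by positivity)
  choose K hK1 hK2 using hK
  set L : ℕ := ∑ j ∈ range (n + 1), K j with hL
  have hKL : ∀ j, j ≤ n → K j ≤ L := by
    intro j hj
    exact Finset.single_le_sum (f := K) (fun _ _ => Nat.zero_le _)
      (Finset.mem_range.2 (by omega))
  have hL1 : 1 ≤ L := le_trans (hK1 0) (hKL 0 (by omega))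
  refine ⟨L, hL1, ?_⟩
  intro f hf X H h1 h2 h3 t
  have hyp : Quant.Hyp L f X H := ⟨hf, h1, h2, h3⟩
  have hL1' : (1:ℝ) ≤ L := by exact_mod_cast hL1
  have hH1 : 1 ≤ H := by linarith
  have hX0 : 0 < X := by
    have := Quant.sqrt_lower hH1 h2
    linarith
  change |Quant.G f X H t - cdf (gaussianReal 0 1) t| ≤ δ
  set Φ := cdf (gaussianReal 0 1) with hΦ
  have hΦm : Monotone Φ := monotone_cdf _
  have hΦ0 : 0 ≤ Φ t := cdf_nonneg _ _
  have hΦ1 : Φ t ≤ 1 := cdf_le_one _ _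
  have hGm := Quant.G_mono (f := f) (H := H) hX0
  have hG0 := Quant.G_nonneg (f := f) (H := H) (t := t) hX0
  have hG1 := Quant.G_le_one (f := f) (H := H) (t := t) hX0
  have hnet : ∀ j : ℕ, 1 ≤ j → j < n → |Quant.G f X H (T j) - (j : ℝ) / n| ≤ δ / 2 := by
    intro j hj1 hj2
    have := hK2 j f X H (hyp.anti (hK1 j) (hKL j hj2.le))
    rw [hT j ⟨hj1, hj2⟩] at this
    exact this
  have hlt : ∀ j : ℕ, 1 ≤ j → j < n → Φ t < (j : ℝ) / n → t ≤ T j := by
    intro j hj1 hj2 hlt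
    rw [← hT j ⟨hj1, hj2⟩] at hlt
    exact (hΦm.reflect_lt hlt).le
  have hgt : ∀ j : ℕ, 1 ≤ j → j < n → (j : ℝ) / n < Φ t → T j ≤ t := by
    intro j hj1 hj2 hlt
    rw [← hT j ⟨hj1, hj2⟩] at hlt
    exact (hΦm.reflect_lt hlt).le
  set j := ⌊(n : ℝ) * Φ t⌋₊ with hj
  have j1 : (j : ℝ) ≤ n * Φ t := Nat.floor_le (by positivity)
  have j2 : (n : ℝ) * Φ t < j + 1 := Nat.lt_floor_add_one _
  have e1n : 0 < 1 / (n : ℝ) := by positivity
  have e2n : 2 / (n : ℝ) = 1 / n + 1 / n := by ring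
  rw [abs_le]
  constructor
  · -- lower bound
    by_cases hj3 : 2 ≤ j
    · have hjn : j - 1 < n := by
        have h5 : (j : ℝ) ≤ n := by nlinarith
        have h6 : j ≤ n := by exact_mod_cast h5
        omega
      have h7 : ((j - 1 : ℕ) : ℝ) = j - 1 := by
        rw [Nat.cast_sub (by omega)]; norm_num
      have h8 : ((j - 1 : ℕ) : ℝ) / n < Φ t := by
        rw [h7, div_lt_iff₀ hn0]; linarith
      have h9 := hgt (j - 1) (by omega) hjn h8
      have h10 := hGm h9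
      have h11 := hnet (j - 1) (by omega) hjn
      rw [abs_le] at h11
      have h12 : Φ t ≤ ((j - 1 : ℕ) : ℝ) / n + 2 / n := by
        rw [h7, ← add_div, le_div_iff₀ hn0]; linarith
      linarith [h11.1]
    · have h5 : (j : ℝ) ≤ 1 := by exact_mod_cast (by omega : j ≤ 1)
      have h6 : Φ t ≤ 2 / n := by
        rw [le_div_iff₀ hn0]; linarith
      linarith
  · -- upper bound
    by_cases hj3 : j + 1 < n
    · have h8 : Φ t < ((j + 1 : ℕ) : ℝ) / n := by
        rw [lt_div_iff₀ hn0]; push_cast; linarith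
      have h9 := hlt (j + 1) (by omega) hj3 h8
      have h10 := hGm h9
      have h11 := hnet (j + 1) (by omega) hj3
      rw [abs_le] at h11
      have h12 : ((j + 1 : ℕ) : ℝ) / n ≤ Φ t + 1 / n := by
        rw [div_le_iff₀ hn0]; push_cast
        have : (Φ t + 1 / n) * n = Φ t * n + 1 := by field_simp
        rw [this]; linarith
      linarith [h11.2]
    · have h5 : (n : ℝ) ≤ j + 1 := by exact_mod_cast (by omega : n ≤ j + 1)
      have h6 : 1 ≤ Φ t + 1 / n := by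
        have : (1:ℝ) ≤ (n * Φ t + 1) / n := by
          rw [le_div_iff₀ hn0]; linarith
        have e : (n * Φ t + 1) / n = Φ t + 1 / n := by field_simp
        rw [e] at this
        exact this
      linarith

end Pool.Agent.P4f18dfQ
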