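import Pool.Agent.Lib.P4f18dfQ.Defs

/-!
# Replacing the modified symbol by the true Legendre symbol

Module QT.Swap.  `fm p n = fq p n` unless `p ∣ n` (`fm_eq_fq`).  So `Ms (fm p) x H = Ms (fq p) x H`
unless `x` lies in the set `Z = {x ∈ [X, 2X] : |n - x| < H/2 for some multiple n of p}`; the relevant
multiples lie in `(X - H/2, 2X + H/2)`, there are at most `(X + H) / p + 1` of them, so
`volume Z ≤ H ((X + H) / p + 1) ≤ 3 X H / p` (`H ≤ p ≤ X`).  `volume_swap`: the two sets differ only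
inside `Z`.  `integral_swap`: the integrands differ only on `Z`, where
`|Ms fm ^2 - Ms fq ^2| ≤ |Ms fm - Ms fq| (|Ms fm| + |Ms fq|) ≤ 1 * 2 (H + 1) ≤ 4 H`
(at most one multiple of `p` in an open interval of length `H ≤ p`; an open interval of length `H`
contains at most `H + 1` integers; `abs_fm_le`, `abs_fq_le`).  Measurability of `x ↦ Ms f x H`: see
`measurable_Zm`, `Zm_eq` in `Lib/P4f18df/Real.lean`.
-/

set_option autoImplicit false

namespace Pool.Agent.P4f18dfQ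

open Finset Pool.Agent.P4f18df MeasureTheory

namespace Swap

/-- a finite set of naturals of diameter at most `L` has at most `L + 1` elements -/
lemma card_le_of_diam (T : Finset ℕ) {L : ℝ} (hL : 0 ≤ L)
    (h : ∀ a ∈ T, ∀ b ∈ T, (a : ℝ) - b ≤ L) : (T.card : ℝ) ≤ L + 1 := by
  rcases T.eq_empty_or_nonempty with h0 | h0
  · rw [h0]; simp; linarith
  · have h1 := h _ (T.max'_mem h0) _ (T.min'_mem h0)
    have h2 : T ⊆ Icc (T.min' h0) (T.max' h0) := by
      intro a ha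
      rw [Finset.mem_Icc]
      exact ⟨T.min'_le a ha, T.le_max' a ha⟩
    have h3 := Finset.card_le_card h2
    rw [Nat.card_Icc] at h3
    have h4 : T.min' h0 ≤ T.max' h0 := T.min'_le _ (T.max'_mem h0)
    have h5 : ((T.max' h0 + 1 - T.min' h0 : ℕ) : ℝ) = (T.max' h0 : ℝ) + 1 - T.min' h0 := by
      rw [Nat.cast_sub (by omega)]; push_cast; ring
    have h6 : (T.card : ℝ) ≤ ((T.max' h0 + 1 - T.min' h0 : ℕ) : ℝ) := by exact_mod_cast h3
    rw [h5] at h6
    linarith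

/-- the index set of `Ms` -/
noncomputable def Fx (x H : ℝ) : Finset ℕ :=
  (Finset.range (⌊x + H⌋₊ + 1)).filter (fun n : ℕ => |(n : ℝ) - x| < H / 2)

lemma mem_Fx {x H : ℝ} {n : ℕ} (h : n ∈ Fx x H) : |(n : ℝ) - x| < H / 2 :=
  (Finset.mem_filter.1 h).2

lemma card_Fx (x : ℝ) {H : ℝ} (hH : 0 ≤ H) : ((Fx x H).card : ℝ) ≤ H + 1 := by
  apply card_le_of_diam _ hH
  intro a ha b hb
  have h1 := mem_Fx ha
  have h2 := mem_Fx hb
  rw [abs_lt] at h1 h2
  linarith [h1.2, h2.1]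

lemma abs_Ms_le {f : ℕ → ℝ} (hf : ∀ n, |f n| ≤ 1) (x : ℝ) {H : ℝ} (hH : 0 ≤ H) :
    |Ms f x H| ≤ H + 1 := by
  refine le_trans ?_ (card_Fx x hH)
  unfold Ms
  refine le_trans (Finset.abs_sum_le_sum_abs _ _) ?_
  refine le_trans (Finset.sum_le_sum (fun n _ => hf n)) ?_
  rw [Finset.sum_const, nsmul_eq_mul, mul_one]
  exact le_rfl

/-- the relevant multiples of `p` -/
noncomputable def Sp (p : ℕ) (X H : ℝ) : Finset ℕ := by
  classical
  exact (Finset.range (⌊2 * X + H⌋₊ + 1)).filter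
    (fun n : ℕ => p ∣ n ∧ X - H / 2 < n ∧ (n : ℝ) < 2 * X + H / 2)

lemma card_Sp {p : ℕ} (hp : p.Prime) {X H : ℝ} (hX : 0 ≤ X) (hH : 0 ≤ H) :
    ((Sp p X H).card : ℝ) ≤ (X + H) / p + 1 := by
  classical
  have hp0 : (0:ℝ) < p := by exact_mod_cast hp.pos
  have hinj : Set.InjOn (fun n : ℕ => n / p) (Sp p X H : Set ℕ) := by
    intro a ha b hb hab
    have h1 : p ∣ a := (Finset.mem_filter.1 (Finset.mem_coe.1 ha)).2.1
    have h2 : p ∣ b := (Finset.mem_filter.1 (Finset.mem_coe.1 hb)).2.1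
    have h3 := Nat.div_mul_cancel h1
    have h4 := Nat.div_mul_cancel h2
    have h5 : a / p = b / p := hab
    rw [← h3, ← h4, h5]
  rw [← Finset.card_image_of_injOn hinj]
  apply card_le_of_diam _ (by positivity)
  intro a ha b hb
  rw [Finset.mem_image] at ha hb
  obtain ⟨a', ha', rfl⟩ := ha
  obtain ⟨b', hb', rfl⟩ := hb
  obtain ⟨h1, h2, h3⟩ := (Finset.mem_filter.1 ha').2
  obtain ⟨k1, k2, k3⟩ := (Finset.mem_filter.1 hb').2
  rw [Nat.cast_div h1 hp0.ne', Nat.cast_div k1 hp0.ne', ← sub_div]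
  apply div_le_div_of_nonneg_right _ hp0.le
  linarith

/-- the exceptional set -/
def Zs (p : ℕ) (X H : ℝ) : Set ℝ := ⋃ n ∈ Sp p X H, Set.Ioo ((n : ℝ) - H / 2) (n + H / 2)

lemma measurableSet_Zs (p : ℕ) (X H : ℝ) : MeasurableSet (Zs p X H) :=
  Finset.measurableSet_biUnion _ (fun _ _ => measurableSet_Ioo)

lemma volume_Zs_le {p : ℕ} (hp : p.Prime) {X H : ℝ} (hH : 1 ≤ H) (hHp : H ≤ p)
    (hpX : (p : ℝ) ≤ X) : volume (Zs p X H) ≤ ENNReal.ofReal (3 * X * H / p) := by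
  have hp0 : (0:ℝ) < p := by exact_mod_cast hp.pos
  have hX0 : 0 ≤ X := by linarith
  refine le_trans (measure_biUnion_finset_le _ _) ?_
  have h1 : ∀ n ∈ Sp p X H, volume (Set.Ioo ((n : ℝ) - H / 2) (n + H / 2)) =
      ENNReal.ofReal H := by
    intro n _
    rw [Real.volume_Ioo]
    congr 1; ring
  rw [Finset.sum_congr rfl h1, Finset.sum_const, nsmul_eq_mul]
  have h2 : ((Sp p X H).card : ENNReal) = ENNReal.ofReal ((Sp p X H).card : ℝ) := by
    rw [ENNReal.ofReal_natCast]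
  rw [h2, ← ENNReal.ofReal_mul (by positivity)]
  apply ENNReal.ofReal_le_ofReal
  have h3 := card_Sp hp hX0 (show 0 ≤ H by linarith)
  have h4 : (X + H) / p + 1 ≤ 3 * X / p := by
    rw [div_add_one hp0.ne']
    apply div_le_div_of_nonneg_right _ hp0.le
    linarith
  calc ((Sp p X H).card : ℝ) * H ≤ (3 * X / p) * H := by
        apply mul_le_mul_of_nonneg_right _ (by linarith)
        linarith
    _ = 3 * X * H / p := by ring

lemma volume_Zs_toReal {p : ℕ} (hp : p.Prime) {X H : ℝ} (hH : 1 ≤ H) (hHp : H ≤ p)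
    (hpX : (p : ℝ) ≤ X) : (volume (Zs p X H)).toReal ≤ 3 * X * H / p := by
  have hp0 : (0:ℝ) < p := by exact_mod_cast hp.pos
  have hX0 : 0 ≤ X := by linarith
  apply ENNReal.toReal_le_of_le_ofReal (by positivity)
  exact volume_Zs_le hp hH hHp hpX

lemma volume_Zs_ne_top {p : ℕ} (hp : p.Prime) {X H : ℝ} (hH : 1 ≤ H) (hHp : H ≤ p)
    (hpX : (p : ℝ) ≤ X) : volume (Zs p X H) ≠ ⊤ :=
  ne_top_of_le_ne_top ENNReal.ofReal_ne_top (volume_Zs_le hp hH hHp hpX)

lemma eq_off_Zs {p : ℕ} {X H x : ℝ} (hH : 0 ≤ H) (hx : x ∈ Set.Icc X (2 * X))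
    (hz : x ∉ Zs p X H) : Ms (fm p) x H = Ms (fq p) x H := by
  unfold Ms
  apply Finset.sum_congr rfl
  intro n hn
  rw [Finset.mem_filter] at hn
  apply fm_eq_fq
  intro hpn
  apply hz
  have h1 := hn.2
  rw [abs_lt] at h1
  unfold Zs
  rw [Set.mem_iUnion₂]
  refine ⟨n, ?_, ⟨by linarith, by linarith⟩⟩
  unfold Sp
  rw [Finset.mem_filter, Finset.mem_range]
  refine ⟨?_, hpn, by linarith [hx.1], by linarith [hx.2]⟩
  have h2 : (n : ℝ) ≤ 2 * X + H := by linarith [hx.2]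
  have := Nat.le_floor h2
  omega

lemma abs_sub_le_one {p : ℕ} (hp : p.Prime) {H : ℝ} (hHp : H ≤ p) (x : ℝ) :
    |Ms (fm p) x H - Ms (fq p) x H| ≤ 1 := by
  classical
  have e : Ms (fm p) x H - Ms (fq p) x H =
      ∑ n ∈ (Fx x H).filter (fun n => p ∣ n), (fm p n - fq p n) := by
    rw [Finset.sum_filter]
    unfold Ms
    rw [← Finset.sum_sub_distrib]
    apply Finset.sum_congr rfl
    intro n _
    by_cases h : p ∣ n
    · rw [if_pos h]
    · rw [if_neg h, fm_eq_fq h, sub_self]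
  rw [e]
  have hc : ((Fx x H).filter (fun n => p ∣ n)).card ≤ 1 := by
    rw [Finset.card_le_one]
    intro a ha b hb
    rw [Finset.mem_filter] at ha hb
    have h1 := mem_Fx ha.1
    have h2 := mem_Fx hb.1
    rw [abs_lt] at h1 h2
    obtain ⟨u, hu⟩ := ha.2
    obtain ⟨v, hv⟩ := hb.2
    have h3 : (a : ℝ) - b < p := by linarith [h1.2, h2.1]
    have h4 : (b : ℝ) - a < p := by linarith [h1.1, h2.2]
    have h5 : a < b + p := by
      have : (a : ℝ) < ((b + p : ℕ) : ℝ) := by push_cast; linarith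
      exact_mod_cast this
    have h6 : b < a + p := by
      have : (b : ℝ) < ((a + p : ℕ) : ℝ) := by push_cast; linarith
      exact_mod_cast this
    rw [hu, hv] at h5 h6
    have h7 : p * u < p * (v + 1) := by rw [mul_add, mul_one]; exact h5
    have h8 : p * v < p * (u + 1) := by rw [mul_add, mul_one]; exact h6
    have h9 := lt_of_mul_lt_mul_left h7 (Nat.zero_le p)
    have h10 := lt_of_mul_lt_mul_left h8 (Nat.zero_le p)
    have : u = v := by omega
    rw [hu, hv, this]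
  refine le_trans (Finset.abs_sum_le_sum_abs _ _) ?_
  have h1 : ∀ n ∈ (Fx x H).filter (fun n => p ∣ n), |fm p n - fq p n| ≤ 1 := by
    intro n hn
    have hpn := (Finset.mem_filter.1 hn).2
    have h2 : fm p n = 0 := by unfold fm; rw [lg_of_dvd hp hpn, mul_zero]
    rw [h2, zero_sub, abs_neg]
    exact abs_fq_le p n
  refine le_trans (Finset.sum_le_sum h1) ?_
  rw [Finset.sum_const, nsmul_eq_mul, mul_one]
  exact_mod_cast hc

lemma intble {f : ℕ → ℝ} (hf : ∀ n, |f n| ≤ 1) {X H : ℝ} (hX : 0 ≤ X) (hH : 1 ≤ H) :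
    IntervalIntegrable (fun x : ℝ => (Ms f x H) ^ 2) volume X (2 * X) := by
  have hsig : 0 < sig H := by
    unfold sig; apply Real.sqrt_pos.2; have := Real.pi_pos; positivity
  have h1 : IntervalIntegrable (fun x : ℝ => (Zm f X H x * sig H) ^ 2) volume X (2 * X) := by
    have hms : Measurable (fun x : ℝ => (Zm f X H x * sig H) ^ 2) := by
      have := measurable_Zm f X H
      fun_prop
    apply intervalIntegrable_of_bdd_real hms (((⌊2 * X + H⌋₊ + 1 : ℕ) : ℝ) ^ 2)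
    intro x
    rw [abs_of_nonneg (sq_nonneg _)]
    rw [← sq_abs]
    apply pow_le_pow_left₀ (abs_nonneg _)
    unfold Zm
    rw [div_mul_cancel₀ _ hsig.ne']
    refine le_trans (Finset.abs_sum_le_sum_abs _ _) ?_
    calc ∑ n ∈ Finset.range (⌊2 * X + H⌋₊ + 1), |if |(n : ℝ) - x| < H / 2 then f n else 0|
        ≤ ∑ n ∈ Finset.range (⌊2 * X + H⌋₊ + 1), (1:ℝ) := by
          apply Finset.sum_le_sum
          intro n _
          split_ifs
          · exact hf n
          · simp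
      _ = _ := by simp
  refine h1.congr ?_
  intro x hx
  have hx' := Set.uIoc_subset_uIcc hx
  rw [Set.uIcc_of_le (by linarith)] at hx'
  show (Zm f X H x * sig H) ^ 2 = (Ms f x H) ^ 2
  rw [Zm_eq (by linarith) hx'.2, div_mul_cancel₀ _ hsig.ne']

lemma volume_Icc_ne_top (X : ℝ) {s : Set ℝ} (hs : s ⊆ Set.Icc X (2 * X)) : volume s ≠ ⊤ := by
  refine ne_top_of_le_ne_top ?_ (measure_mono hs)
  rw [Real.volume_Icc]; exact ENNReal.ofReal_ne_top

end Swap

theorem integral_swap {p : ℕ} (hp : p.Prime) {X H : ℝ} (hH : 1 ≤ H) (hHp : H ≤ p)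
    (hpX : (p : ℝ) ≤ X) :
    |(∫ x in X..(2 * X), (Ms (fm p) x H) ^ 2) - ∫ x in X..(2 * X), (Ms (fq p) x H) ^ 2| ≤
      12 * X * H ^ 2 / p := by
  have hp0 : (0:ℝ) < p := by exact_mod_cast hp.pos
  have hX0 : 0 ≤ X := by linarith
  have hH0 : 0 ≤ H := by linarith
  have i1 := Swap.intble (f := fm p) (abs_fm_le p) hX0 hH
  have i2 := Swap.intble (f := fq p) (abs_fq_le p) hX0 hH
  rw [← intervalIntegral.integral_sub i1 i2, intervalIntegral.integral_of_le (by linarith)]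
  have hsub : Set.Ioc X (2 * X) ∩ Swap.Zs p X H ⊆ Set.Ioc X (2 * X) := Set.inter_subset_left
  rw [setIntegral_eq_of_subset_of_forall_sdiff_eq_zero measurableSet_Ioc hsub]
  · have hfin : volume (Set.Ioc X (2 * X) ∩ Swap.Zs p X H) < ⊤ :=
      lt_of_le_of_lt (measure_mono Set.inter_subset_right)
        (lt_top_iff_ne_top.2 (Swap.volume_Zs_ne_top hp hH hHp hpX))
    have hb : ∀ x ∈ Set.Ioc X (2 * X) ∩ Swap.Zs p X H,
        ‖(Ms (fm p) x H) ^ 2 - (Ms (fq p) x H) ^ 2‖ ≤ 4 * H := by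
      intro x _
      have h1 := Swap.abs_sub_le_one hp hHp x
      have h2 := Swap.abs_Ms_le (f := fm p) (abs_fm_le p) x hH0
      have h3 := Swap.abs_Ms_le (f := fq p) (abs_fq_le p) x hH0
      have e : (Ms (fm p) x H) ^ 2 - (Ms (fq p) x H) ^ 2 =
          (Ms (fm p) x H - Ms (fq p) x H) * (Ms (fm p) x H + Ms (fq p) x H) := by ring
      rw [Real.norm_eq_abs, e, abs_mul]
      have h4 : |Ms (fm p) x H + Ms (fq p) x H| ≤ 4 * H := by
        refine le_trans (abs_add_le _ _) ?_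
        linarith
      calc |Ms (fm p) x H - Ms (fq p) x H| * |Ms (fm p) x H + Ms (fq p) x H| ≤ 1 * (4 * H) :=
            mul_le_mul h1 h4 (abs_nonneg _) zero_le_one
        _ = 4 * H := one_mul _
    have h1 := norm_setIntegral_le_of_norm_le_const hfin hb
    rw [Real.norm_eq_abs] at h1
    refine le_trans h1 ?_
    have h2 : volume.real (Set.Ioc X (2 * X) ∩ Swap.Zs p X H) ≤ 3 * X * H / p := by
      refine le_trans ?_ (Swap.volume_Zs_toReal hp hH hHp hpX)
      exact ENNReal.toReal_mono (Swap.volume_Zs_ne_top hp hH hHp hpX)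
        (measure_mono Set.inter_subset_right)
    calc 4 * H * volume.real (Set.Ioc X (2 * X) ∩ Swap.Zs p X H) ≤ 4 * H * (3 * X * H / p) :=
          mul_le_mul_of_nonneg_left h2 (by positivity)
      _ = 12 * X * H ^ 2 / p := by ring
  · intro x hx
    have hx1 : x ∈ Set.Ioc X (2 * X) := hx.1
    have hx2 : x ∉ Swap.Zs p X H := fun h => hx.2 ⟨hx1, h⟩
    rw [Swap.eq_off_Zs hH0 ⟨hx1.1.le, hx1.2⟩ hx2, sub_self]

theorem volume_swap {p : ℕ} (hp : p.Prime) {X H : ℝ} (hH : 1 ≤ H) (hHp : H ≤ p)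
    (hpX : (p : ℝ) ≤ X) (σ t : ℝ) :
    |(volume {x : ℝ | x ∈ Set.Icc X (2 * X) ∧ Ms (fm p) x H / σ ≤ t}).toReal -
      (volume {x : ℝ | x ∈ Set.Icc X (2 * X) ∧ Ms (fq p) x H / σ ≤ t}).toReal| ≤
      3 * X * H / p := by
  have hH0 : 0 ≤ H := by linarith
  have key : ∀ f g : ℕ → ℝ, (∀ x ∈ Set.Icc X (2 * X), x ∉ Swap.Zs p X H →
      Ms f x H = Ms g x H) →
      (volume {x : ℝ | x ∈ Set.Icc X (2 * X) ∧ Ms f x H / σ ≤ t}).toReal -
        (volume {x : ℝ | x ∈ Set.Icc X (2 * X) ∧ Ms g x H / σ ≤ t}).toReal ≤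
        3 * X * H / p := by
    intro f g hfg
    have h1 : {x : ℝ | x ∈ Set.Icc X (2 * X) ∧ Ms f x H / σ ≤ t} ⊆
        {x : ℝ | x ∈ Set.Icc X (2 * X) ∧ Ms g x H / σ ≤ t} ∪ Swap.Zs p X H := by
      intro x hx
      by_cases hz : x ∈ Swap.Zs p X H
      · exact Or.inr hz
      · left
        refine ⟨hx.1, ?_⟩
        rw [← hfg x hx.1 hz]; exact hx.2
    have h2 := le_trans (measure_mono (μ := volume) h1) (measure_union_le _ _)
    have hg : volume {x : ℝ | x ∈ Set.Icc X (2 * X) ∧ Ms g x H / σ ≤ t} ≠ ⊤ :=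
      Swap.volume_Icc_ne_top X (fun x hx => hx.1)
    have hz := Swap.volume_Zs_ne_top hp hH hHp hpX
    have h3 := ENNReal.toReal_mono (ENNReal.add_ne_top.2 ⟨hg, hz⟩) h2
    rw [ENNReal.toReal_add hg hz] at h3
    have h4 := Swap.volume_Zs_toReal hp hH hHp hpX
    linarith
  rw [abs_le]
  constructor
  · have := key (fq p) (fm p) (fun x hx hz => (Swap.eq_off_Zs hH0 hx hz).symm)
    linarith
  · exact key (fm p) (fq p) (fun x hx hz => Swap.eq_off_Zs hH0 hx hz)

end Pool.Agent.P4f18dfQ
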