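import Pool.Agent.Lib.P4f18dfQ.Defs

/-!
# The dyadic net

Module QT.NetM.  `exists_net`: if `n < 2^(s+1)` take `n₁ = n₂ = n` (exponent `0`).  Otherwise let
`e ≥ 1` with `2^(s+e) ≤ n < 2^(s+e+1)` (`e = Nat.log 2 n - s`), so `e + 1 ≤ E`; `q = n / 2^e` lies in
`[2^s, 2^(s+1))`, `n₁ = q 2^e`; if `n = n₁` take `n₂ = n₁`, else `n₂ = (q+1) 2^e`, which is in the net
(if `q + 1 = 2^(s+1)` write it as `2^s * 2^(e+1)`).  `n₂ - n₁ ≤ 2^e` and `2^e 2^s ≤ n`.
-/

set_option autoImplicit false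

namespace Pool.Agent.P4f18dfQ

open Finset

namespace NetM

theorem mem_Net {s E q e : ℕ} (hq : q < 2 ^ (s + 1)) (he : e ≤ E) : q * 2 ^ e ∈ Net s E := by
  unfold Net
  rw [Finset.mem_image]
  refine ⟨(q, e), ?_, rfl⟩
  rw [Finset.mem_product, Finset.mem_range, Finset.mem_range]
  exact ⟨hq, by simpa using Nat.lt_succ_of_le he⟩

end NetM

theorem card_Net_le (s E : ℕ) : (Net s E).card ≤ 2 ^ (s + 1) * (E + 1) := by
  unfold Net
  refine le_trans Finset.card_image_le ?_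
  rw [Finset.card_product, Finset.card_range, Finset.card_range]

theorem pow_mem_Net {s E e : ℕ} (he : e ≤ E) : 2 ^ e ∈ Net s E := by
  have h := NetM.mem_Net (s := s) (q := 1) (Nat.one_lt_two_pow (by omega)) he
  rwa [one_mul] at h

theorem exists_net {s E n : ℕ} (hn : n < 2 ^ (s + E)) :
    ∃ n₁ ∈ Net s E, ∃ n₂ ∈ Net s E, n₁ ≤ n ∧ n ≤ n₂ ∧ (n₂ - n₁) * 2 ^ s ≤ n := by
  rcases Nat.lt_or_ge n (2 ^ (s + 1)) with h1 | h1
  · have h := NetM.mem_Net (E := E) h1 (Nat.zero_le E)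
    rw [pow_zero, mul_one] at h
    exact ⟨n, h, n, h, le_rfl, le_rfl, by simp⟩
  · have hn0 : n ≠ 0 := by
      rintro rfl
      have h00 : 0 < 2 ^ (s + 1) := by positivity
      omega
    have hlog1 : s + 1 ≤ Nat.log 2 n := (Nat.le_log_iff_pow_le (by norm_num) hn0).2 h1
    obtain ⟨e, he⟩ : ∃ e, Nat.log 2 n = s + e := ⟨Nat.log 2 n - s, by omega⟩
    have h2 : 2 ^ (s + e) ≤ n := by rw [← he]; exact Nat.pow_log_le_self 2 hn0
    have h3 : n < 2 ^ (s + e + 1) := by rw [← he]; exact Nat.lt_pow_succ_log_self (by norm_num) n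
    have h4 : s + e < s + E := (Nat.pow_lt_pow_iff_right (by norm_num : 1 < 2)).1 (lt_of_le_of_lt h2 hn)
    have he1 : 1 ≤ e := by omega
    have h2e : 0 < 2 ^ e := by positivity
    have hq2 : n / 2 ^ e < 2 ^ (s + 1) := by
      rw [Nat.div_lt_iff_lt_mul h2e, ← pow_add]
      have : s + 1 + e = s + e + 1 := by omega
      rw [this]; exact h3
    have hdm : 2 ^ e * (n / 2 ^ e) + n % 2 ^ e = n := Nat.div_add_mod n (2 ^ e)
    have hml : n % 2 ^ e < 2 ^ e := Nat.mod_lt _ h2e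
    have hse : 2 ^ e * 2 ^ s ≤ n := by
      rw [← pow_add, add_comm e s]; exact h2
    refine ⟨n / 2 ^ e * 2 ^ e, NetM.mem_Net hq2 (by omega), ?_⟩
    rcases Nat.eq_zero_or_pos (n % 2 ^ e) with h0 | h0
    · refine ⟨n / 2 ^ e * 2 ^ e, NetM.mem_Net hq2 (by omega), ?_, ?_, by simp⟩
      · nlinarith
      · nlinarith
    · refine ⟨(n / 2 ^ e + 1) * 2 ^ e, ?_, ?_, ?_, ?_⟩
      · rcases Nat.lt_or_ge (n / 2 ^ e + 1) (2 ^ (s + 1)) with h5 | h5
        · exact NetM.mem_Net h5 (by omega)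
        · have h6 : n / 2 ^ e + 1 = 2 ^ (s + 1) := by omega
          have h7 : (n / 2 ^ e + 1) * 2 ^ e = 2 ^ s * 2 ^ (e + 1) := by
            rw [h6, ← pow_add, ← pow_add]
            congr 1
            omega
          rw [h7]
          exact NetM.mem_Net (Nat.pow_lt_pow_right (by norm_num) (by omega)) (by omega)
      · nlinarith
      · nlinarith
      · have h8 : (n / 2 ^ e + 1) * 2 ^ e - n / 2 ^ e * 2 ^ e = 2 ^ e := by
          rw [add_mul, one_mul]; omega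
        rw [h8]; exact hse

end Pool.Agent.P4f18dfQ
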