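import Pool.Agent.Lib.P4f18dfQ.Tail
import Pool.Agent.Lib.P4f18dfQ.NetM

/-!
# The exceptional primes for the law

Module QT.BadL.  Parameters (all inequalities for large `P`):
`c₀ = min (η / (2 K + 3)) (1 / (K + 2))`, `0 < c ≤ c₀`, `lam = 1 / (12 K)`, `s` with
`12 K P^(cK) ≤ 2^s ≤ 24 K P^(cK)`, `E` with `8 exp (P^c) < 2^E` and `E ≤ 2 P^c + 10`
(`1 / log 2 < 3/2`).  `B` is the union over `k ∈ Icc 1 K`, `h ∈ Icc 1 ⌊P^c⌋₊`, `N ∈ Net s E` with
`P^3 ≤ 8 N` of the sets of `card_bad k` with this `lam` (its hypothesis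
`8 h^(k+1) ≤ lam (√h)^k P` follows from `96 K h^(K+1) ≤ 96 K P^(c (K+1)) ≤ P`; `h ≤ P ≤ N`).
Cardinality `≤ K * P^c * (48 K P^(cK) (2 P^c + 11)) * (144 K^2 C P^(cK)) ≤ const * P^(c (2K + 2)) ≤
P^η / 2`.
For `p ∈ PP P`, `p ∉ B`, `1 ≤ k ≤ K`, `1 ≤ h ≤ P^c` and every `N` with `P^3 ≤ N ≤ 2 exp (P^c)`: let
`n ≥ N` be the upper net point (`exists_net`, `(n - N) 2^s ≤ N`, so `n ≤ 2 N`, `P^3 ≤ 8 n`); then
`|Ek (fq p) k N h| ≤ |Ek (fq p) k n h| + (n - N) h^k` (`abs_pow_sub_triv_le`)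
`≤ lam (√h)^k 2 N + N h^k / 2^s ≤ (1 / (6K) + 1 / (12K)) (√h)^k N = (1 / (4K)) (√h)^k N`, as
`h^k = (√h)^k (√h)^k`, `(√h)^k ≤ P^(cK)`.  Hence (`Dk_eq_Ek`, for `P^3 ≤ N ≤ exp (P^c)`)
`|Dk| ≤ (|Ek (2N)| + |Ek N|) / N ≤ (3 / (4K)) (√h)^k`.
-/

set_option autoImplicit false

namespace Pool.Agent.P4f18dfQ

open Finset Filter Pool.Agent.P4f18df

namespace BadL

/-- one constant for all `k ≤ K` -/
theorem card_bad_all (K : ℕ) : ∃ C : ℝ, 0 < C ∧ ∀ k ∈ Icc 1 K, ∀ P N h : ℕ, 2 ≤ P →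
    P ^ 3 ≤ 8 * N → 1 ≤ h → h ≤ P → h ≤ N → ∀ lam : ℝ, 0 < lam →
    8 * (h : ℝ) ^ (k + 1) ≤ lam * (Real.sqrt h) ^ k * P →
      (((PP P).filter (fun p => lam * (Real.sqrt h) ^ k * N < |Ek (fq p) k N h|)).card : ℝ) ≤
        C * (h : ℝ) ^ k / lam ^ 2 := by
  induction K with
  | zero => exact ⟨1, one_pos, fun k hk => by simp at hk⟩
  | succ K ih =>
    obtain ⟨C₁, hC₁, h₁⟩ := ih
    obtain ⟨C₂, hC₂, h₂⟩ := card_bad (K + 1) (by omega)
    refine ⟨C₁ + C₂, by positivity, ?_⟩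
    intro k hk P N h a1 a2 a3 a4 a5 lam a6 a7
    rw [mem_Icc] at hk
    have hh : (0 : ℝ) ≤ (h : ℝ) ^ k / lam ^ 2 := by positivity
    rcases Nat.lt_or_ge K k with hk2 | hk2
    · have : k = K + 1 := by omega
      subst this
      refine (h₂ P N h a1 a2 a3 a4 a5 lam a6 a7).trans ?_
      rw [mul_div_assoc, mul_div_assoc]
      exact mul_le_mul_of_nonneg_right (by linarith) hh
    · refine (h₁ k (mem_Icc.2 ⟨hk.1, hk2⟩) P N h a1 a2 a3 a4 a5 lam a6 a7).trans ?_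
      rw [mul_div_assoc, mul_div_assoc]
      exact mul_le_mul_of_nonneg_right (by linarith) hh

/-- a power of two above `x` -/
theorem exists_pow_two {x : ℝ} (hx : 1 ≤ x) : ∃ s : ℕ, x ≤ 2 ^ s ∧ (2 : ℝ) ^ s ≤ 2 * x := by
  obtain ⟨n, h1, h2⟩ := exists_nat_pow_near hx (by norm_num : (1 : ℝ) < 2)
  refine ⟨n + 1, h2.le, ?_⟩
  rw [pow_succ]
  linarith

theorem exists_E {T : ℝ} (hT : 0 ≤ T) : ∃ E : ℕ, 8 * Real.exp T < 2 ^ E ∧ (E : ℝ) ≤ 2 * T + 10 := by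
  refine ⟨⌊2 * T⌋₊ + 10, ?_, ?_⟩
  · have h1 : 2 * T < ⌊2 * T⌋₊ + 1 := Nat.lt_floor_add_one _
    have h2 : (2 : ℝ) ^ (⌊2 * T⌋₊ + 10) = 2 ^ 9 * Real.exp ((⌊2 * T⌋₊ + 1 : ℕ) * Real.log 2) := by
      rw [mul_comm ((⌊2 * T⌋₊ + 1 : ℕ) : ℝ), Real.exp_mul, Real.exp_log (by norm_num : (0:ℝ) < 2),
        Real.rpow_natCast, ← pow_add]
      congr 1
      omega
    rw [h2]
    have h3 : Real.exp T ≤ Real.exp ((⌊2 * T⌋₊ + 1 : ℕ) * Real.log 2) := by
      apply Real.exp_le_exp.2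
      have hl := Real.log_two_gt_d9
      push_cast
      nlinarith
    have h4 := Real.exp_pos T
    nlinarith
  · have h1 : (⌊2 * T⌋₊ : ℝ) ≤ 2 * T := Nat.floor_le (by linarith)
    push_cast
    linarith

theorem Ek_diff {p : ℕ} (hp : p.Prime) (k h : ℕ) {N n : ℕ} (hNn : N ≤ n) :
    |Ek (fq p) k N h| ≤ |Ek (fq p) k n h| + ((n : ℝ) - N) * (h : ℝ) ^ k := by
  have hu : Ioc 0 n = Ioc 0 N ∪ Ioc N n := by
    ext a; simp only [Finset.mem_Ioc, Finset.mem_union]; omega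
  have hd : Disjoint (Ioc 0 N) (Ioc N n) := by
    rw [Finset.disjoint_left]
    intro a h1 h2
    rw [Finset.mem_Ioc] at h1 h2
    omega
  have h1 : Ek (fq p) k n h = Ek (fq p) k N h +
      ∑ a ∈ Ioc N n, ((Wd (fq p) h a) ^ k - (triv k (Q h a) : ℝ)) := by
    unfold Ek
    rw [hu, Finset.sum_union hd]
  have h2 : |∑ a ∈ Ioc N n, ((Wd (fq p) h a) ^ k - (triv k (Q h a) : ℝ))| ≤
      ((n : ℝ) - N) * (h : ℝ) ^ k := by
    refine (Finset.abs_sum_le_sum_abs _ _).trans ?_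
    refine (Finset.sum_le_sum fun a _ => abs_pow_sub_triv_le hp k h a).trans ?_
    rw [Finset.sum_const, Nat.card_Ioc, nsmul_eq_mul, Nat.cast_sub hNn]
  have h3 : Ek (fq p) k N h = Ek (fq p) k n h -
      ∑ a ∈ Ioc N n, ((Wd (fq p) h a) ^ k - (triv k (Q h a) : ℝ)) := by
    rw [h1]; ring
  rw [h3]
  exact (abs_sub _ _).trans (by linarith)

theorem cube_ge {P : ℕ} (h : 3 ≤ P) : 8 * P ≤ P ^ 3 := by
  have h1 : 8 ≤ P * P := by nlinarith
  calc 8 * P ≤ (P * P) * P := Nat.mul_le_mul_right P h1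
    _ = P ^ 3 := by ring

theorem card_bU {α : Type*} {s : Finset α} {f : α → Finset ℕ} {x : ℝ}
    (h : ∀ a ∈ s, ((f a).card : ℝ) ≤ x) : ((s.biUnion f).card : ℝ) ≤ s.card * x := by
  have h1 : ((s.biUnion f).card : ℝ) ≤ ∑ a ∈ s, ((f a).card : ℝ) := by
    exact_mod_cast Finset.card_biUnion_le
  refine h1.trans ((Finset.sum_le_sum h).trans ?_)
  rw [Finset.sum_const, nsmul_eq_mul]

/-- the bound for all `N` from the bound on the net -/
theorem bound_all {K : ℕ} (hK : 1 ≤ K) {T : ℝ} (hT : 1 ≤ T) {s E P p : ℕ} (hp : p.Prime)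
    (hs : 12 * K * T ^ K ≤ 2 ^ s) (hE : 8 * Real.exp T < 2 ^ E)
    {k h : ℕ} (hk : k ∈ Icc 1 K) (hh1 : 1 ≤ h) (hhT : (h : ℝ) ≤ T)
    (hnet : ∀ n ∈ Net s E, P ^ 3 ≤ 8 * n →
      |Ek (fq p) k n h| ≤ 1 / (12 * K) * (Real.sqrt h) ^ k * n)
    {N : ℕ} (hN1 : P ^ 3 ≤ N) (hN2 : (N : ℝ) ≤ 2 * Real.exp T) :
    |Ek (fq p) k N h| ≤ 1 / (4 * K) * (Real.sqrt h) ^ k * N := by
  have hK0 : (1 : ℝ) ≤ K := by exact_mod_cast hK
  rw [mem_Icc] at hk
  have hN3 : N < 2 ^ (s + E) := by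
    have h1 : (N : ℝ) < 2 ^ E := by
      have := Real.exp_pos T
      linarith
    have h2 : (2 : ℝ) ^ E ≤ 2 ^ (s + E) := pow_le_pow_right₀ (by norm_num) (by omega)
    exact_mod_cast h1.trans_le h2
  obtain ⟨n₁, _, n, hn, h1, h2, h3⟩ := exists_net hN3
  have h4 : (n - N) * 2 ^ s ≤ N :=
    (Nat.mul_le_mul_right _ (Nat.sub_le_sub_left h1 n)).trans h3
  have h5 : ((n : ℝ) - N) * 2 ^ s ≤ N := by
    have : (((n - N : ℕ) : ℝ)) * 2 ^ s ≤ N := by exact_mod_cast h4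
    rwa [Nat.cast_sub h2] at this
  have hnN : (0 : ℝ) ≤ (n : ℝ) - N := by
    have : (N : ℝ) ≤ n := by exact_mod_cast h2
    linarith
  have hTK : (1 : ℝ) ≤ T ^ K := one_le_pow₀ hT
  have hN0 : (0 : ℝ) ≤ N := Nat.cast_nonneg _
  have h6 : ((n : ℝ) - N) * (12 * K * T ^ K) ≤ N :=
    (mul_le_mul_of_nonneg_left hs hnN).trans h5
  have hq : (0 : ℝ) ≤ (Real.sqrt h) ^ k := by positivity
  have hq1 : (Real.sqrt h) ^ k ≤ T ^ K := by
    have e1 : Real.sqrt h ≤ T := by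
      rw [Real.sqrt_le_left (by linarith)]
      nlinarith
    have e2 : (Real.sqrt h) ^ k ≤ T ^ k := pow_le_pow_left₀ (Real.sqrt_nonneg _) e1 k
    exact e2.trans (pow_le_pow_right₀ hT hk.2)
  have hq2 : (h : ℝ) ^ k = (Real.sqrt h) ^ k * (Real.sqrt h) ^ k := by
    rw [← mul_pow, Real.mul_self_sqrt (Nat.cast_nonneg _)]
  have h7 : ((n : ℝ) - N) * (h : ℝ) ^ k ≤ 1 / (12 * K) * (Real.sqrt h) ^ k * N := by
    rw [hq2]
    have e1 : ((n : ℝ) - N) * ((Real.sqrt h) ^ k * (Real.sqrt h) ^ k) ≤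
        ((n : ℝ) - N) * (T ^ K * (Real.sqrt h) ^ k) :=
      mul_le_mul_of_nonneg_left (mul_le_mul_of_nonneg_right hq1 hq) hnN
    refine e1.trans ?_
    rw [div_mul_eq_mul_div, div_mul_eq_mul_div, le_div_iff₀ (by positivity), one_mul]
    nlinarith
  have h8 : (n : ℝ) ≤ 2 * N := by
    have e1 : ((n : ℝ) - N) * 1 ≤ ((n : ℝ) - N) * (12 * K * T ^ K) := by
      refine mul_le_mul_of_nonneg_left ?_ hnN
      nlinarith
    linarith
  have h9 := hnet n hn (by omega)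
  have h10 := Ek_diff hp k h h2
  have h11 : 1 / (12 * K) * (Real.sqrt h) ^ k * (n : ℝ) ≤
      1 / (12 * K) * (Real.sqrt h) ^ k * (2 * N) := mul_le_mul_of_nonneg_left h8 (by positivity)
  calc |Ek (fq p) k N h| ≤ _ := h10
    _ ≤ 1 / (12 * K) * (Real.sqrt h) ^ k * (2 * N) + 1 / (12 * K) * (Real.sqrt h) ^ k * N :=
        add_le_add (h9.trans h11) h7
    _ = 1 / (4 * K) * (Real.sqrt h) ^ k * N := by
        field_simp
        ring

end BadL

open BadL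

theorem bad_law (K : ℕ) (hK : 1 ≤ K) (η : ℝ) (hη : 0 < η) :
    ∃ c₀ : ℝ, 0 < c₀ ∧ ∀ c : ℝ, 0 < c → c ≤ c₀ → ∃ P₀ : ℕ, ∀ P : ℕ, P₀ ≤ P →
      ∃ B : Finset ℕ, (B.card : ℝ) ≤ (P : ℝ) ^ η / 2 ∧ ∀ p ∈ PP P, p ∉ B →
        ∀ k ∈ Icc 1 K, ∀ h : ℕ, 1 ≤ h → (h : ℝ) ≤ (P : ℝ) ^ c → ∀ N : ℕ, P ^ 3 ≤ N →
          (N : ℝ) ≤ Real.exp ((P : ℝ) ^ c) →
            |Dk (fq p) k N h| ≤ (1 / K : ℝ) * (Real.sqrt h) ^ k := by
  obtain ⟨C, hC0, hC⟩ := card_bad_all K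
  have hK0 : (1 : ℝ) ≤ K := by exact_mod_cast hK
  refine ⟨min (η / (2 * K + 3)) (1 / (K + 2)), by positivity, ?_⟩
  intro c hc hc0
  have hcη : c * (2 * K + 3) ≤ η := by
    have := hc0.trans (min_le_left _ _)
    rwa [le_div_iff₀ (by positivity)] at this
  have hcK : c * (K + 2) ≤ 1 := by
    have := hc0.trans (min_le_right _ _)
    rwa [le_div_iff₀ (by positivity)] at this
  set D : ℝ := K * (48 * K * 13 * (C * (144 * K ^ 2))) with hD
  have hD0 : 0 < D := by positivity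
  have hlim : ∀ᶠ P : ℕ in atTop, 96 * K + 2 * D ≤ (P : ℝ) ^ c :=
    ((tendsto_rpow_atTop hc).comp tendsto_natCast_atTop_atTop).eventually_ge_atTop _
  obtain ⟨P₀, hP₀⟩ := eventually_atTop.1 hlim
  refine ⟨max P₀ 3, fun P hP => ?_⟩
  have hP1 : P₀ ≤ P := (le_max_left _ _).trans hP
  have hP3 : 3 ≤ P := (le_max_right _ _).trans hP
  have hPr : (1 : ℝ) ≤ P := by
    have : 1 ≤ P := by omega
    exact_mod_cast this
  have hTM := hP₀ P hP1
  set T : ℝ := (P : ℝ) ^ c with hT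
  have hT96 : 96 * (K : ℝ) ≤ T := by linarith
  have hTD : 2 * D ≤ T := by linarith
  have hT1 : (1 : ℝ) ≤ T := by linarith
  have hT0 : (0 : ℝ) < T := by linarith
  have hpow : ∀ j : ℕ, T ^ j = (P : ℝ) ^ (c * j) := by
    intro j
    rw [hT, Real.rpow_mul (by linarith), Real.rpow_natCast]
  have hTP : T ^ (K + 2) ≤ P := by
    rw [hpow]
    calc (P : ℝ) ^ (c * ((K + 2 : ℕ) : ℝ)) ≤ (P : ℝ) ^ (1 : ℝ) :=
          Real.rpow_le_rpow_of_exponent_le hPr (by push_cast; exact hcK)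
      _ = P := Real.rpow_one _
  have hTη : T ^ (2 * K + 3) ≤ (P : ℝ) ^ η := by
    rw [hpow]
    exact Real.rpow_le_rpow_of_exponent_le hPr (by push_cast; exact hcη)
  have hTleP : T ≤ P := by
    refine le_trans ?_ hTP
    calc T = T ^ 1 := (pow_one T).symm
      _ ≤ T ^ (K + 2) := pow_le_pow_right₀ hT1 (by omega)
  have hTK : (1 : ℝ) ≤ T ^ K := one_le_pow₀ hT1
  have hx1 : (1 : ℝ) ≤ 12 * K * T ^ K := by nlinarith
  obtain ⟨s, hs1, hs2⟩ := exists_pow_two hx1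
  obtain ⟨E, hE1, hE2⟩ := exists_E hT0.le
  set B : Finset ℕ := (Icc 1 K).biUnion fun k => (Icc 1 ⌊T⌋₊).biUnion fun h =>
    ((Net s E).filter (fun N => P ^ 3 ≤ 8 * N)).biUnion fun N =>
      (PP P).filter (fun p => 1 / (12 * K) * (Real.sqrt h) ^ k * N < |Ek (fq p) k N h|) with hB
  refine ⟨B, ?_, ?_⟩
  · have c1 : ∀ k ∈ Icc 1 K, ∀ h ∈ Icc 1 ⌊T⌋₊, ∀ N ∈ (Net s E).filter (fun N => P ^ 3 ≤ 8 * N),
        (((PP P).filter (fun p => 1 / (12 * (K : ℝ)) * (Real.sqrt h) ^ k * N <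
          |Ek (fq p) k N h|)).card : ℝ) ≤ C * (144 * K ^ 2) * T ^ K := by
      intro k hk h hh N hN
      rw [mem_Icc] at hh
      rw [mem_filter] at hN
      have hhT : (h : ℝ) ≤ T := (Nat.le_floor_iff hT0.le).1 hh.2
      have hhP : h ≤ P := by exact_mod_cast hhT.trans hTleP
      have hPN : P ≤ N := by
        have h1 : P ^ 3 ≤ 8 * N := hN.2
        have h2 : 8 * P ≤ P ^ 3 := cube_ge hP3
        omega
      have hh1 : (1 : ℝ) ≤ h := by exact_mod_cast hh.1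
      have hk' := mem_Icc.1 hk
      have hcond : 8 * (h : ℝ) ^ (k + 1) ≤ 1 / (12 * (K : ℝ)) * (Real.sqrt h) ^ k * P := by
        have e1 : (h : ℝ) ^ (k + 1) ≤ T ^ (K + 1) :=
          (pow_le_pow_left₀ (by linarith) hhT _).trans (pow_le_pow_right₀ hT1 (by omega))
        have e2 : (1 : ℝ) ≤ (Real.sqrt h) ^ k := one_le_pow₀ (Real.one_le_sqrt.2 hh1)
        have e3 : 96 * K * T ^ (K + 1) ≤ P := by
          refine le_trans ?_ hTP
          calc 96 * (K : ℝ) * T ^ (K + 1) ≤ T * T ^ (K + 1) :=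
                mul_le_mul_of_nonneg_right hT96 (by positivity)
            _ = T ^ (K + 2) := by ring
        have e4 : (P : ℝ) ≤ (Real.sqrt h) ^ k * P := by nlinarith
        rw [div_mul_eq_mul_div, div_mul_eq_mul_div, le_div_iff₀ (by positivity), one_mul]
        nlinarith
      have h1 := hC k hk P N h (by omega) hN.2 hh.1 hhP (hhP.trans hPN) (1 / (12 * K))
        (by positivity) hcond
      refine h1.trans ?_
      have e1 : (h : ℝ) ^ k ≤ T ^ K :=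
        (pow_le_pow_left₀ (by linarith) hhT _).trans (pow_le_pow_right₀ hT1 hk'.2)
      have e2 : C * (h : ℝ) ^ k / (1 / (12 * (K : ℝ))) ^ 2 = C * (144 * K ^ 2) * (h : ℝ) ^ k := by
        field_simp
        ring
      rw [e2]
      exact mul_le_mul_of_nonneg_left e1 (by positivity)
    have c2 : ∀ k ∈ Icc 1 K, ∀ h ∈ Icc 1 ⌊T⌋₊,
        ((((Net s E).filter (fun N => P ^ 3 ≤ 8 * N)).biUnion fun N =>
          (PP P).filter (fun p => 1 / (12 * (K : ℝ)) * (Real.sqrt h) ^ k * N <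
            |Ek (fq p) k N h|)).card : ℝ) ≤
          (48 * K * T ^ K * (13 * T)) * (C * (144 * K ^ 2) * T ^ K) := by
      intro k hk h hh
      refine (card_bU (c1 k hk h hh)).trans ?_
      refine mul_le_mul_of_nonneg_right ?_ (by positivity)
      have e1 : (((Net s E).filter (fun N => P ^ 3 ≤ 8 * N)).card : ℝ) ≤
          2 ^ (s + 1) * ((E : ℝ) + 1) := by
        have := (Finset.card_filter_le (Net s E) (fun N => P ^ 3 ≤ 8 * N)).trans
          (card_Net_le s E)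
        exact_mod_cast this
      refine e1.trans ?_
      have e2 : (2 : ℝ) ^ (s + 1) ≤ 48 * K * T ^ K := by
        rw [pow_succ]
        linarith
      have e3 : (E : ℝ) + 1 ≤ 13 * T := by linarith
      exact mul_le_mul e2 e3 (by positivity) (by positivity)
    have c3 : ∀ k ∈ Icc 1 K, (((Icc 1 ⌊T⌋₊).biUnion fun h =>
        ((Net s E).filter (fun N => P ^ 3 ≤ 8 * N)).biUnion fun N =>
          (PP P).filter (fun p => 1 / (12 * (K : ℝ)) * (Real.sqrt h) ^ k * N <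
            |Ek (fq p) k N h|)).card : ℝ) ≤
          T * ((48 * K * T ^ K * (13 * T)) * (C * (144 * K ^ 2) * T ^ K)) := by
      intro k hk
      refine (card_bU (c2 k hk)).trans ?_
      refine mul_le_mul_of_nonneg_right ?_ (by positivity)
      rw [Nat.card_Icc]
      have := Nat.floor_le hT0.le
      simpa using this
    have c4 : (B.card : ℝ) ≤
        K * (T * ((48 * K * T ^ K * (13 * T)) * (C * (144 * K ^ 2) * T ^ K))) := by
      have := card_bU c3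
      rw [Nat.card_Icc, Nat.add_sub_cancel] at this
      exact this
    refine c4.trans ?_
    have c5 : K * (T * ((48 * K * T ^ K * (13 * T)) * (C * (144 * K ^ 2) * T ^ K))) =
        D * T ^ (2 * K + 2) := by
      rw [hD]
      ring
    rw [c5, le_div_iff₀ (by norm_num)]
    refine le_trans ?_ hTη
    calc D * T ^ (2 * K + 2) * 2 = (2 * D) * T ^ (2 * K + 2) := by ring
      _ ≤ T * T ^ (2 * K + 2) := mul_le_mul_of_nonneg_right hTD (by positivity)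
      _ = T ^ (2 * K + 3) := by ring
  · intro p hp hpB k hk h hh1 hhT N hN1 hN2
    have hpp : p.Prime := (mem_PP.1 hp).2
    have hnet : ∀ n ∈ Net s E, P ^ 3 ≤ 8 * n →
        |Ek (fq p) k n h| ≤ 1 / (12 * K) * (Real.sqrt h) ^ k * n := by
      intro n hn h8
      by_contra hlt
      push Not at hlt
      apply hpB
      rw [hB]
      simp only [mem_biUnion]
      refine ⟨k, hk, h, mem_Icc.2 ⟨hh1, (Nat.le_floor_iff hT0.le).2 hhT⟩, n,
        mem_filter.2 ⟨hn, h8⟩, mem_filter.2 ⟨hp, hlt⟩⟩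
    have hexp := Real.exp_pos T
    have b1 := bound_all hK hT1 hpp hs1 hE1 hk hh1 hhT hnet hN1 (by linarith)
    have b2 := bound_all hK hT1 hpp hs1 hE1 hk hh1 hhT hnet (N := 2 * N) (by omega)
      (by push_cast; linarith)
    have hN0 : (0 : ℝ) < N := by
      have : 0 < N := lt_of_lt_of_le (by positivity) hN1
      exact_mod_cast this
    rw [Dk_eq_Ek, abs_div, abs_of_pos hN0, div_le_iff₀ hN0]
    refine (abs_sub _ _).trans ?_
    push_cast at b2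
    have hq : (0 : ℝ) ≤ (Real.sqrt h) ^ k * N := by positivity
    have e1 : 1 / (4 * (K : ℝ)) * (Real.sqrt h) ^ k * (2 * N) +
        1 / (4 * K) * (Real.sqrt h) ^ k * N = 3 / (4 * K) * ((Real.sqrt h) ^ k * N) := by
      field_simp
      ring
    have e2 : 3 / (4 * (K : ℝ)) * ((Real.sqrt h) ^ k * N) ≤
        1 / K * ((Real.sqrt h) ^ k * N) := by
      refine mul_le_mul_of_nonneg_right ?_ hq
      rw [div_le_div_iff₀ (by positivity) (by positivity)]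
      nlinarith
    calc |Ek (fq p) k (2 * N) h| + |Ek (fq p) k N h| ≤ _ := add_le_add b2 b1
      _ = _ := e1
      _ ≤ _ := e2
      _ = 1 / (K : ℝ) * (Real.sqrt h) ^ k * N := by ring

end Pool.Agent.P4f18dfQ
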