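import Pool.Agent.Lib.P4f18dfQ.NetM

/-!
# From the net to all lengths and all scales (deterministic)

Module QT.Interp.  Write `‖·‖` for the `ℓ²` norm over `a ∈ Ioc 0 N` and
`T η o = √(∑_{a ∈ Ioc 0 N} (Wd f η (a + o))^2)`; clearly `(T η o)^2 ≤ Uk f η (N + o)`, `Uk f η` is
monotone in `N`, `Wd f (η₁ + η₂) a = Wd f η₁ a + Wd f η₂ (a + η₁)` and Minkowski
(`Real.Lp_add_le` with exponent 2, or expand the square and use Cauchy–Schwarz) gives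
`T (η₁ + η₂) o ≤ T η₁ o + T η₂ (o + η₁)`.
(1) `Uk_up`: by strong induction on `η` show `(T η o)^2 ≤ 50 η N`, i.e. `T η o ≤ 2.5 √(8 N η)`:
for `η ≥ 1` let `2^e ≤ η < 2^(e+1)`, `η = 2^e + η'`; `T (2^e) o ≤ √(Uk f (2^e) (2N)) ≤ √(8 · 2^e N)`
and with `y = η' / 2^e ∈ [0,1)`: `1 + 2.5 √y ≤ 2.5 √(1 + y)` because
`√(1+y) - √y = 1 / (√(1+y) + √y) ≥ 1 / (√2 + 1) ≥ 1 / 2.5`.
(2) `Uk_all`, with `κ = 1 / 2^s ≤ 1/4`: for `N` in the range let `n₁ ≤ N ≤ n₂` be the net points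
(`exists_net`, `(n₂ - n₁) ≤ κ N`), `m' ≤ m` the net point for `m` (`η = m - m' ≤ κ m`, `m' ≥ 1`,
`η < 2^E₁`).  The hypothesis of (1): for `e ≤ E₁` (all `η < 2^(E₁+1)`), `Uk f (2^e) (2N) ≤
Uk f (2^e) n ≤ (c2 + lam) 2^e n ≤ (1 + 1) 2^e · (5/4) 2N ≤ 8 · 2^e N` with `n` the upper net point of
`2 N` (`n ≥ N₀`, `c2 ≤ 1`... use `c2_le`).  Monotonicity: `|Uk f m' N - c2 m' N| ≤ (κ + (1 + κ) lam) m' N`
(for the lower bound `n₁ ≥ N / 2 ≥ N₀`).  Minkowski: `|√Uk(m,N) - √Uk(m',N)| ≤ T η m' ≤ √(50 κ m N)`,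
so `|Uk f m N - Uk f m' N| ≤ √(50 κ) (2 √(c2 + κ + (1+κ) lam) + √(50 κ)) m N ≤ 50 √κ m N`
(`c2 ≤ 0.61`: if you only use `c2 ≤ 1` the constant is `2 √2.5 + 3.54 ≤ 6.71`, times `7.08`, i.e.
`47.5 √κ`, still fine), and `c2 |m' - m| N ≤ κ m N`.  Total
`≤ (2 lam + 2 κ + 47.5 √κ) m N ≤ (2 lam + 50 √κ) m N` (`κ ≤ √κ / 2`).
-/

set_option autoImplicit false

namespace Pool.Agent.P4f18dfQ

open Finset Pool.Agent.P4f18df

namespace Interp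

lemma Wd_add (f : ℕ → ℝ) (u v a : ℕ) : Wd f (u + v) a = Wd f u a + Wd f v (a + u) := by
  unfold Wd
  have h1 : Ioc a (a + (u + v)) = Ioc a (a + u) ∪ Ioc (a + u) (a + u + v) := by
    ext x; simp only [Finset.mem_Ioc, Finset.mem_union]; omega
  have h2 : Disjoint (Ioc a (a + u)) (Ioc (a + u) (a + u + v)) := by
    rw [Finset.disjoint_left]
    intro x hx hy
    rw [Finset.mem_Ioc] at hx hy
    omega
  rw [h1, Finset.sum_union h2]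

lemma Wd_zero (f : ℕ → ℝ) (a : ℕ) : Wd f 0 a = 0 := by
  unfold Wd; simp

lemma Uk_mono (f : ℕ → ℝ) (m : ℕ) {N M : ℕ} (h : N ≤ M) : Uk f m N ≤ Uk f m M := by
  unfold Uk
  apply Finset.sum_le_sum_of_subset_of_nonneg
  · intro x hx
    rw [Finset.mem_Ioc] at hx ⊢
    omega
  · intro i _ _
    positivity

lemma Uk_nonneg (f : ℕ → ℝ) (m N : ℕ) : 0 ≤ Uk f m N := by
  unfold Uk
  exact Finset.sum_nonneg (fun _ _ => sq_nonneg _)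

lemma sum_shift_le (f : ℕ → ℝ) (m N o : ℕ) :
    ∑ a ∈ Ioc 0 N, (Wd f m (a + o)) ^ 2 ≤ Uk f m (N + o) := by
  unfold Uk
  have h1 : ∑ a ∈ Ioc 0 N, (Wd f m (a + o)) ^ 2 = ∑ b ∈ (Ioc 0 N).image (fun a => a + o),
      (Wd f m b) ^ 2 := by
    rw [Finset.sum_image]
    intro a _ b _ hab
    simpa using hab
  rw [h1]
  apply Finset.sum_le_sum_of_subset_of_nonneg
  · intro x hx
    rw [Finset.mem_image] at hx
    obtain ⟨a, ha, rfl⟩ := hx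
    rw [Finset.mem_Ioc] at ha ⊢
    omega
  · intro i _ _
    positivity

/-- expansion of the square with Cauchy–Schwarz -/
lemma cross (S : Finset ℕ) (x y : ℕ → ℝ) {A B C : ℝ} (hA : ∑ a ∈ S, x a ^ 2 ≤ A)
    (hB : ∑ a ∈ S, y a ^ 2 ≤ B) (hC : 0 ≤ C) (h : A * B ≤ C ^ 2) :
    |∑ a ∈ S, (x a + y a) ^ 2 - ∑ a ∈ S, x a ^ 2 - ∑ a ∈ S, y a ^ 2| ≤ 2 * C := by
  have h0 : ∑ a ∈ S, (x a + y a) ^ 2 - ∑ a ∈ S, x a ^ 2 - ∑ a ∈ S, y a ^ 2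
      = 2 * ∑ a ∈ S, x a * y a := by
    rw [← Finset.sum_sub_distrib, ← Finset.sum_sub_distrib, Finset.mul_sum]
    apply Finset.sum_congr rfl
    intro a _
    ring
  have h1 : (∑ a ∈ S, x a * y a) ^ 2 ≤ (∑ a ∈ S, x a ^ 2) * ∑ a ∈ S, y a ^ 2 :=
    Finset.sum_mul_sq_le_sq_mul_sq S x y
  have hx0 : 0 ≤ ∑ a ∈ S, x a ^ 2 := Finset.sum_nonneg (fun _ _ => sq_nonneg _)
  have hy0 : 0 ≤ ∑ a ∈ S, y a ^ 2 := Finset.sum_nonneg (fun _ _ => sq_nonneg _)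
  have h2 : (∑ a ∈ S, x a * y a) ^ 2 ≤ C ^ 2 :=
    le_trans h1 (le_trans (mul_le_mul hA hB hy0 (le_trans hx0 hA)) h)
  have h3 : |∑ a ∈ S, x a * y a| ≤ C := abs_le_of_sq_le_sq h2 hC
  rw [h0, abs_mul, abs_of_pos (by norm_num : (0:ℝ) < 2)]
  linarith

end Interp

theorem Uk_up {f : ℕ → ℝ} {N E : ℕ}
    (hB : ∀ e ≤ E, Uk f (2 ^ e) (2 * N) ≤ 8 * 2 ^ e * (N : ℝ)) :
    ∀ η : ℕ, η < 2 ^ (E + 1) → ∀ o : ℕ, o + η ≤ N →
      ∑ a ∈ Ioc 0 N, (Wd f η (a + o)) ^ 2 ≤ 50 * (η : ℝ) * N := by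
  intro η
  induction η using Nat.strong_induction_on with
  | _ η ih =>
    intro hη o ho
    rcases Nat.eq_zero_or_pos η with h0 | h0
    · subst h0
      simp [Interp.Wd_zero]
    set e := Nat.log 2 η with he
    have h1 : 2 ^ e ≤ η := Nat.pow_log_le_self 2 h0.ne'
    have h2 : η < 2 ^ (e + 1) := Nat.lt_pow_succ_log_self (by norm_num) η
    have heE : e ≤ E := by
      by_contra hc
      push Not at hc
      have h3 : 2 ^ (E + 1) ≤ 2 ^ e := Nat.pow_le_pow_right (by norm_num) hc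
      omega
    obtain ⟨η', hη'⟩ : ∃ η', η = 2 ^ e + η' := ⟨η - 2 ^ e, by omega⟩
    have hp0 : 0 < 2 ^ e := by positivity
    have h4 : η' < 2 ^ e := by
      rw [pow_succ] at h2; omega
    have h5 := ih η' (by omega) (by omega) (o + 2 ^ e) (by omega)
    have h6 : ∑ a ∈ Ioc 0 N, (Wd f (2 ^ e) (a + o)) ^ 2 ≤ 8 * 2 ^ e * (N : ℝ) :=
      le_trans (Interp.sum_shift_le f (2 ^ e) N o)
        (le_trans (Interp.Uk_mono f (2 ^ e) (by omega)) (hB e heE))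
    have h7 : (η' : ℝ) ≤ 2 ^ e := by exact_mod_cast h4.le
    have h8 := Interp.cross (Ioc 0 N) (fun a => Wd f (2 ^ e) (a + o))
      (fun a => Wd f η' (a + (o + 2 ^ e))) (C := 20 * 2 ^ e * N) h6 h5 (by positivity) (by
        have h9 : (0:ℝ) ≤ N := by positivity
        have h10 : (0:ℝ) ≤ 2 ^ e := by positivity
        have h11 : (0:ℝ) ≤ η' := by positivity
        have h12 : (2:ℝ) ^ e * η' ≤ 2 ^ e * 2 ^ e := mul_le_mul_of_nonneg_left h7 h10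
        have h13 : (0:ℝ) ≤ (N:ℝ) ^ 2 := by positivity
        nlinarith [mul_le_mul_of_nonneg_left h12 h13])
    have h9 : ∀ a, Wd f η (a + o) = Wd f (2 ^ e) (a + o) + Wd f η' (a + (o + 2 ^ e)) := by
      intro a
      conv_lhs => rw [hη']
      rw [Interp.Wd_add, Nat.add_assoc]
    have h8' := (abs_le.1 h8).2
    simp only [h9]
    have h11 : (η : ℝ) = 2 ^ e + η' := by
      conv_lhs => rw [hη']
      push_cast; ring
    have h12 : (0:ℝ) ≤ 2 ^ e * (N:ℝ) := by positivity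
    rw [h11]
    nlinarith

theorem Uk_all {f : ℕ → ℝ} {s E₁ E₂ N₀ : ℕ} {lam : ℝ} (hs : 2 ≤ s) (hlam : 0 ≤ lam)
    (hlam1 : lam ≤ 1)
    (h : ∀ m ∈ Net s E₁, 1 ≤ m → ∀ N ∈ Net s E₂, N₀ ≤ N →
      |Uk f m N - c2 * m * N| ≤ lam * m * N) :
    ∀ m : ℕ, 1 ≤ m → m < 2 ^ E₁ → ∀ N : ℕ, 2 * N₀ ≤ N → 4 * N < 2 ^ (s + E₂) → m ≤ N →
      |Uk f m N - c2 * m * N| ≤ (2 * lam + 50 * Real.sqrt (1 / 2 ^ s)) * m * N := by
  intro m hm1 hmE N hN₀ hNE hmN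
  have hc0 := c2_pos
  have hc1 := c2_le
  set r : ℝ := Real.sqrt (1 / 2 ^ s) with hr
  have hr0 : 0 ≤ r := Real.sqrt_nonneg _
  have hr2 : r ^ 2 = 1 / 2 ^ s := Real.sq_sqrt (by positivity)
  have h2s : (4:ℝ) ≤ 2 ^ s := by
    calc (4:ℝ) = 2 ^ 2 := by norm_num
      _ ≤ 2 ^ s := pow_le_pow_right₀ (by norm_num) hs
  have h2s' : 4 ≤ 2 ^ s := by
    calc 4 = 2 ^ 2 := by norm_num
      _ ≤ 2 ^ s := Nat.pow_le_pow_right (by norm_num) hs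
  have hk4 : r ^ 2 ≤ 1 / 4 := by
    rw [hr2]
    exact one_div_le_one_div_of_le (by norm_num) h2s
  have hr12 : r ≤ 1 / 2 := by nlinarith
  have hrr2 : r ^ 2 ≤ 1 / 2 * r := by
    rw [sq]; exact mul_le_mul_of_nonneg_right hr12 hr0
  have hks : r ^ 2 * 2 ^ s = 1 := by
    rw [hr2]; field_simp
  -- the net points
  obtain ⟨n₁, hn₁, n₂, hn₂, hn1, hn2, hn3⟩ := exists_net (s := s) (E := E₂) (n := N) (by omega)
  obtain ⟨k₁, hk₁, k₂, hk₂, hk1, hk2, hk3⟩ := exists_net (s := s) (E := E₂) (n := 2 * N) (by omega)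
  obtain ⟨m₁, hm₁, m₂, hm₂, hm1', hm2', hm3⟩ := exists_net (s := s) (E := E₁) (n := m)
    (lt_of_lt_of_le hmE (Nat.pow_le_pow_right (by norm_num) (by omega)))
  have hN1 : 1 ≤ N := le_trans hm1 hmN
  have hmr : (1:ℝ) ≤ m := by exact_mod_cast hm1
  have hNr : (1:ℝ) ≤ N := by exact_mod_cast hN1
  -- real forms
  have e1 : ((n₂:ℝ) - n₁) ≤ r ^ 2 * N := by
    have : (((n₂ - n₁ : ℕ) : ℝ)) * 2 ^ s ≤ N := by exact_mod_cast hn3
    rw [Nat.cast_sub (le_trans hn1 hn2)] at this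
    have h5 : ((n₂:ℝ) - n₁) = r ^ 2 * (((n₂:ℝ) - n₁) * 2 ^ s) := by
      calc ((n₂:ℝ) - n₁) = (r ^ 2 * 2 ^ s) * ((n₂:ℝ) - n₁) := by rw [hks]; ring
        _ = _ := by ring
    rw [h5]
    exact mul_le_mul_of_nonneg_left this (sq_nonneg r)
  have e2 : ((k₂:ℝ) - k₁) ≤ r ^ 2 * (2 * N) := by
    have : (((k₂ - k₁ : ℕ) : ℝ)) * 2 ^ s ≤ 2 * N := by exact_mod_cast hk3
    rw [Nat.cast_sub (le_trans hk1 hk2)] at this
    have h5 : ((k₂:ℝ) - k₁) = r ^ 2 * (((k₂:ℝ) - k₁) * 2 ^ s) := by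
      calc ((k₂:ℝ) - k₁) = (r ^ 2 * 2 ^ s) * ((k₂:ℝ) - k₁) := by rw [hks]; ring
        _ = _ := by ring
    rw [h5]
    exact mul_le_mul_of_nonneg_left this (sq_nonneg r)
  have e3 : ((m₂:ℝ) - m₁) ≤ r ^ 2 * m := by
    have : (((m₂ - m₁ : ℕ) : ℝ)) * 2 ^ s ≤ m := by exact_mod_cast hm3
    rw [Nat.cast_sub (le_trans hm1' hm2')] at this
    have h5 : ((m₂:ℝ) - m₁) = r ^ 2 * (((m₂:ℝ) - m₁) * 2 ^ s) := by
      calc ((m₂:ℝ) - m₁) = (r ^ 2 * 2 ^ s) * ((m₂:ℝ) - m₁) := by rw [hks]; ring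
        _ = _ := by ring
    rw [h5]
    exact mul_le_mul_of_nonneg_left this (sq_nonneg r)
  have f1 : (n₁:ℝ) ≤ N := by exact_mod_cast hn1
  have f2 : (N:ℝ) ≤ n₂ := by exact_mod_cast hn2
  have f3 : (m₁:ℝ) ≤ m := by exact_mod_cast hm1'
  have f4 : (m:ℝ) ≤ m₂ := by exact_mod_cast hm2'
  have f5 : (k₁:ℝ) ≤ 2 * N := by exact_mod_cast hk1
  have f6 : (2 * N:ℝ) ≤ k₂ := by exact_mod_cast hk2
  have hm₁0 : (0:ℝ) ≤ m₁ := by positivity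
  have hrN : r ^ 2 * (N:ℝ) ≤ 1 / 4 * N := mul_le_mul_of_nonneg_right hk4 (by linarith)
  have hrm : r ^ 2 * (m:ℝ) ≤ 1 / 4 * m := mul_le_mul_of_nonneg_right hk4 (by linarith)
  have g1 : (3 / 4 : ℝ) * N ≤ n₁ := by linarith
  have g2 : (3 / 4 : ℝ) * m ≤ m₁ := by linarith
  have hm₁1 : 1 ≤ m₁ := by
    rcases Nat.eq_zero_or_pos m₁ with h | h
    · rw [h] at g2; norm_num at g2; linarith
    · exact h
  have hN₀r : (2:ℝ) * N₀ ≤ N := by exact_mod_cast hN₀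
  have hN₀0 : (0:ℝ) ≤ N₀ := by positivity
  have hn₁0 : N₀ ≤ n₁ := by
    have : (N₀ : ℝ) ≤ n₁ := by linarith
    exact_mod_cast this
  have hn₂0 : N₀ ≤ n₂ := by omega
  have hk₂0 : N₀ ≤ k₂ := by omega
  -- step (1)
  have hB : ∀ e ≤ E₁, Uk f (2 ^ e) (2 * N) ≤ 8 * 2 ^ e * (N : ℝ) := by
    intro e he
    have h1 := h (2 ^ e) (pow_mem_Net he) Nat.one_le_two_pow k₂ hk₂ hk₂0
    push_cast at h1
    have h2 := (abs_le.1 h1).2
    have h3 := Interp.Uk_mono f (2 ^ e) hk2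
    have h4 : (0:ℝ) ≤ 2 ^ e := by positivity
    have h5 : (k₂:ℝ) ≤ 5 / 2 * N := by linarith
    have h6 : (0:ℝ) ≤ k₂ := by positivity
    have h7 : (0:ℝ) ≤ 2 ^ e * k₂ := by positivity
    have h8 : (2:ℝ) ^ e * k₂ ≤ 2 ^ e * (5 / 2 * N) := mul_le_mul_of_nonneg_left h5 h4
    have h9 : c2 * (2 ^ e * (k₂:ℝ)) ≤ 1 * (2 ^ e * k₂) := mul_le_mul_of_nonneg_right hc1 h7
    have h10 : lam * (2 ^ e * (k₂:ℝ)) ≤ 1 * (2 ^ e * k₂) := mul_le_mul_of_nonneg_right hlam1 h7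
    have h11 : (0:ℝ) ≤ 2 ^ e * (N:ℝ) := by positivity
    linarith
  have hY := Uk_up hB (m - m₁)
    (lt_of_lt_of_le (by omega : m - m₁ < 2 ^ E₁) (Nat.pow_le_pow_right (by norm_num) (by omega)))
    m₁ (by omega)
  rw [Nat.cast_sub hm1'] at hY
  obtain ⟨M, hM⟩ : ∃ M : ℝ, M = (m:ℝ) * N := ⟨_, rfl⟩
  have hM0 : 0 ≤ M := by rw [hM]; positivity
  have hY' : ∑ a ∈ Ioc 0 N, (Wd f (m - m₁) (a + m₁)) ^ 2 ≤ 50 * r ^ 2 * M := by
    have h1 : ((m:ℝ) - m₁) * N ≤ (r ^ 2 * m) * N :=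
      mul_le_mul_of_nonneg_right (by linarith) (by linarith)
    subst hM
    linarith
  -- monotonicity
  have hUu : Uk f m₁ N ≤ c2 * m₁ * N + (r ^ 2 + 5 / 4 * lam) * M := by
    have h1 := (abs_le.1 (h m₁ hm₁ hm₁1 n₂ hn₂ hn₂0)).2
    have h2 := Interp.Uk_mono f m₁ hn2
    have h3 : (n₂:ℝ) ≤ N + r ^ 2 * N := by linarith
    have h4 : (n₂:ℝ) ≤ 5 / 4 * N := by linarith
    have h5 : (m₁:ℝ) * n₂ ≤ m₁ * (N + r ^ 2 * N) := mul_le_mul_of_nonneg_left h3 hm₁0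
    have h6 : (m₁:ℝ) * n₂ ≤ m * (5 / 4 * N) :=
      mul_le_mul f3 h4 (by positivity) (by positivity)
    have h7 : c2 * ((m₁:ℝ) * n₂) ≤ c2 * (m₁ * (N + r ^ 2 * N)) :=
      mul_le_mul_of_nonneg_left h5 hc0.le
    have h8 : lam * ((m₁:ℝ) * n₂) ≤ lam * (m * (5 / 4 * N)) :=
      mul_le_mul_of_nonneg_left h6 hlam
    have h9 : (m₁:ℝ) * N ≤ M := by
      rw [hM]; exact mul_le_mul_of_nonneg_right f3 (by linarith)
    have h10 : c2 * (r ^ 2 * ((m₁:ℝ) * N)) ≤ 1 * (r ^ 2 * M) := by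
      apply mul_le_mul hc1 (mul_le_mul_of_nonneg_left h9 (sq_nonneg r)) (by positivity)
        (by norm_num)
    subst hM
    linarith
  have hUl : c2 * m₁ * N - (r ^ 2 + lam) * M ≤ Uk f m₁ N := by
    have h1 := (abs_le.1 (h m₁ hm₁ hm₁1 n₁ hn₁ hn₁0)).1
    have h2 := Interp.Uk_mono f m₁ hn1
    have h3 : (N:ℝ) - r ^ 2 * N ≤ n₁ := by linarith
    have h5 : (m₁:ℝ) * (N - r ^ 2 * N) ≤ m₁ * n₁ := mul_le_mul_of_nonneg_left h3 hm₁0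
    have h6 : (m₁:ℝ) * n₁ ≤ m * N :=
      mul_le_mul f3 f1 (by positivity) (by positivity)
    have h7 : c2 * ((m₁:ℝ) * (N - r ^ 2 * N)) ≤ c2 * (m₁ * n₁) :=
      mul_le_mul_of_nonneg_left h5 hc0.le
    have h8 : lam * ((m₁:ℝ) * n₁) ≤ lam * (m * N) :=
      mul_le_mul_of_nonneg_left h6 hlam
    have h9 : (m₁:ℝ) * N ≤ M := by
      rw [hM]; exact mul_le_mul_of_nonneg_right f3 (by linarith)
    have h10 : c2 * (r ^ 2 * ((m₁:ℝ) * N)) ≤ 1 * (r ^ 2 * M) := by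
      apply mul_le_mul hc1 (mul_le_mul_of_nonneg_left h9 (sq_nonneg r)) (by positivity)
        (by norm_num)
    subst hM
    linarith
  have hU52 : Uk f m₁ N ≤ 5 / 2 * M := by
    have h9 : (m₁:ℝ) * N ≤ M := by
      rw [hM]; exact mul_le_mul_of_nonneg_right f3 (by linarith)
    have h10 : c2 * ((m₁:ℝ) * N) ≤ 1 * M :=
      mul_le_mul hc1 h9 (by positivity) (by norm_num)
    have h11 : r ^ 2 * M ≤ 1 / 4 * M := mul_le_mul_of_nonneg_right hk4 hM0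
    have h12 : lam * M ≤ 1 * M := mul_le_mul_of_nonneg_right hlam1 hM0
    linarith
  -- Minkowski
  have hcr := Interp.cross (Ioc 0 N) (fun a => Wd f m₁ a) (fun a => Wd f (m - m₁) (a + m₁))
    (A := 5 / 2 * M) (B := 50 * r ^ 2 * M) (C := 12 * r * M) hU52 hY' (by positivity) (by
      have : 0 ≤ r ^ 2 * M ^ 2 := by positivity
      calc 5 / 2 * M * (50 * r ^ 2 * M) = 125 * (r ^ 2 * M ^ 2) := by ring
        _ ≤ 144 * (r ^ 2 * M ^ 2) := by linarith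
        _ = (12 * r * M) ^ 2 := by ring)
  beta_reduce at hcr
  have hUm : ∑ a ∈ Ioc 0 N, (Wd f m₁ a + Wd f (m - m₁) (a + m₁)) ^ 2 = Uk f m N := by
    unfold Uk
    apply Finset.sum_congr rfl
    intro a _
    rw [← Interp.Wd_add]
    congr 2
    omega
  rw [hUm] at hcr
  have hU0 : ∑ a ∈ Ioc 0 N, (Wd f m₁ a) ^ 2 = Uk f m₁ N := rfl
  rw [hU0] at hcr
  have hY0 : 0 ≤ ∑ a ∈ Ioc 0 N, (Wd f (m - m₁) (a + m₁)) ^ 2 :=
    Finset.sum_nonneg (fun _ _ => sq_nonneg _)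
  obtain ⟨c1, c3⟩ := abs_le.1 hcr
  have hrr : r ^ 2 * M ≤ (1 / 2 * r) * M := mul_le_mul_of_nonneg_right hrr2 hM0
  have hYr : ∑ a ∈ Ioc 0 N, (Wd f (m - m₁) (a + m₁)) ^ 2 ≤ 25 * r * M := by
    linarith
  have hcm : c2 * m₁ * N ≤ c2 * M := by
    have h9 : (m₁:ℝ) * N ≤ M := by
      rw [hM]; exact mul_le_mul_of_nonneg_right f3 (by linarith)
    have := mul_le_mul_of_nonneg_left h9 hc0.le
    linarith
  have hcm2 : c2 * M - r ^ 2 * M ≤ c2 * m₁ * N := by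
    have h1 : ((m:ℝ) - r ^ 2 * m) ≤ m₁ := by linarith
    have h2 : ((m:ℝ) - r ^ 2 * m) * N ≤ m₁ * N := mul_le_mul_of_nonneg_right h1 (by linarith)
    have h3 := mul_le_mul_of_nonneg_left h2 hc0.le
    have h4 : c2 * (r ^ 2 * M) ≤ 1 * (r ^ 2 * M) :=
      mul_le_mul_of_nonneg_right hc1 (by positivity)
    subst hM
    linarith
  have hlM : 0 ≤ lam * M := by positivity
  have hrM : 0 ≤ r * M := by positivity
  have hgoal : |Uk f m N - c2 * M| ≤ (2 * lam + 50 * r) * M := by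
    rw [abs_le]
    constructor <;> linarith
  rw [hM] at hgoal
  calc |Uk f m N - c2 * m * N| = |Uk f m N - c2 * (m * N)| := by rw [mul_assoc]
    _ ≤ (2 * lam + 50 * r) * (m * N) := hgoal
    _ = _ := by ring

end Pool.Agent.P4f18dfQ
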