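import Pool.Agent.Lib.P4f18dfQ.Defs

/-!
# Counting squarefree integers in all short intervals

Module QT.Sqc.  (1) `#{n ∈ (0, x] squarefree} = ∑_{d ≤ √x} μ(d) ⌊x / d^2⌋ = c2 x + O(3 √x)`:
`moebius_sq_tail` (in `Lib/P4f18df/Sqf.lean`) with `z = Nat.sqrt x`, `2 / (z + 1) ≤ 2 / √x`
(there may be useful lemmas in `Lib/P4f18df/Sqf.lean`: `sum_moebius_sq`, `card_Q_eq`).
(2) `∑_{a ∈ (0,N]} card (Q h a) = ∑_{i=1}^h #{n ∈ (i, N+i] squarefree}` (exchange of the summations,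
`n = a + i`), each term is `c2 N + O(3 √(N+i) + 3 √i)`, and `3 √(2N) + 3 √N ≤ 10 √N`.
-/

set_option autoImplicit false

namespace Pool.Agent.P4f18dfQ

open Finset Pool.Agent.P4f18df

namespace Sqc

lemma card_eq_sum (x : ℕ) : (((Ioc 0 x).filter Squarefree).card : ℝ) =
    ∑ d ∈ Ioc 0 x, (ArithmeticFunction.moebius d : ℝ) * ((x / d ^ 2 : ℕ) : ℝ) := by
  have h1 : (((Ioc 0 x).filter Squarefree).card : ℝ) = ∑ n ∈ Ioc 0 x, (if Squarefree n then (1:ℝ) else 0) := by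
    rw [Finset.card_filter]; push_cast; rfl
  have h2 : ∀ n ∈ Ioc 0 x, (if Squarefree n then (1:ℝ) else 0) =
      ∑ d ∈ Ioc 0 x, if d ^ 2 ∣ n then (ArithmeticFunction.moebius d : ℝ) else 0 := by
    intro n hn
    rw [Finset.mem_Ioc] at hn
    have := sum_moebius_sq (n := n) (M := x) hn.1 hn.2
    rw [← Finset.sum_filter]
    have h3 : ((∑ d ∈ (Ioc 0 x).filter (fun d => d ^ 2 ∣ n), (ArithmeticFunction.moebius d : ℤ) : ℤ) : ℝ) =
      ((if Squarefree n then 1 else 0 : ℤ) : ℝ) := by rw [this]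
    push_cast at h3
    rw [h3]
  rw [h1, Finset.sum_congr rfl h2, Finset.sum_comm]
  apply Finset.sum_congr rfl
  intro d _
  rw [← Finset.sum_filter, Finset.sum_const, nsmul_eq_mul, mul_comm, Nat.Ioc_filter_dvd_card_eq_div]

lemma floor_err (x v : ℕ) (hv : 0 < v) : |((x / v : ℕ) : ℝ) - (x : ℝ) / v| ≤ 1 := by
  have hv' : (0 : ℝ) < v := by exact_mod_cast hv
  have h1 : ((x / v : ℕ) : ℝ) ≤ (x : ℝ) / v := Nat.cast_div_le
  have h2 : (x : ℝ) / v < ((x / v : ℕ) : ℝ) + 1 := by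
    rw [div_lt_iff₀ hv']
    have h3 : x < v * (x / v + 1) := Nat.lt_mul_div_succ x hv
    have h4 : (x : ℝ) < v * (((x / v : ℕ) : ℝ) + 1) := by exact_mod_cast h3
    linarith
  rw [abs_le]
  constructor <;> linarith

end Sqc

open Sqc

theorem card_squarefree (x : ℕ) :
    |(((Ioc 0 x).filter Squarefree).card : ℝ) - c2 * x| ≤ 3 * Real.sqrt x := by
  set z := Nat.sqrt x with hz
  have hzx : z ≤ x := Nat.sqrt_le_self x
  have hzs : (z : ℝ) ≤ Real.sqrt x := by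
    apply Real.le_sqrt_of_sq_le
    have := Nat.sqrt_le' x
    exact_mod_cast this
  have hzs' : Real.sqrt x ≤ z + 1 := by
    apply Real.sqrt_le_iff.2
    refine ⟨by positivity, ?_⟩
    have := Nat.lt_succ_sqrt' x
    have h' : x ≤ (z + 1) ^ 2 := this.le
    exact_mod_cast h'
  have hs0 : 0 ≤ Real.sqrt x := Real.sqrt_nonneg _
  have hsx : Real.sqrt x * Real.sqrt x = x := Real.mul_self_sqrt (Nat.cast_nonneg x)
  rw [card_eq_sum]
  have h1 : ∑ d ∈ Ioc 0 x, (ArithmeticFunction.moebius d : ℝ) * ((x / d ^ 2 : ℕ) : ℝ) =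
      ∑ d ∈ Ioc 0 z, (ArithmeticFunction.moebius d : ℝ) * ((x / d ^ 2 : ℕ) : ℝ) := by
    symm
    apply Finset.sum_subset
    · intro d hd
      rw [Finset.mem_Ioc] at hd ⊢
      omega
    · intro d hd hd'
      rw [Finset.mem_Ioc] at hd hd'
      have hzd : z < d := by omega
      have hlt : x < d ^ 2 := by
        have := Nat.lt_succ_sqrt' x
        have h2 : (z + 1) ^ 2 ≤ d ^ 2 := Nat.pow_le_pow_left hzd 2
        exact lt_of_lt_of_le this h2
      rw [Nat.div_eq_of_lt hlt]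
      simp
  rw [h1]
  have h2 : |∑ d ∈ Ioc 0 z, (ArithmeticFunction.moebius d : ℝ) * ((x / d ^ 2 : ℕ) : ℝ) -
      x * ∑ d ∈ Ioc 0 z, (ArithmeticFunction.moebius d : ℝ) / (d : ℝ) ^ 2| ≤ z := by
    rw [Finset.mul_sum, ← Finset.sum_sub_distrib]
    refine (Finset.abs_sum_le_sum_abs _ _).trans ?_
    have h3 : ∀ d ∈ Ioc 0 z, |(ArithmeticFunction.moebius d : ℝ) * ((x / d ^ 2 : ℕ) : ℝ) -
        x * ((ArithmeticFunction.moebius d : ℝ) / (d : ℝ) ^ 2)| ≤ 1 := by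
      intro d hd
      rw [Finset.mem_Ioc] at hd
      have e : (ArithmeticFunction.moebius d : ℝ) * ((x / d ^ 2 : ℕ) : ℝ) -
          x * ((ArithmeticFunction.moebius d : ℝ) / (d : ℝ) ^ 2) =
          (ArithmeticFunction.moebius d : ℝ) * (((x / d ^ 2 : ℕ) : ℝ) - (x : ℝ) / ((d ^ 2 : ℕ) : ℝ)) := by
        push_cast
        ring
      rw [e, abs_mul]
      have h4 := floor_err x (d ^ 2) (by have := hd.1; positivity)
      calc _ ≤ (1:ℝ) * 1 := mul_le_mul (abs_moebius_le d) h4 (abs_nonneg _) zero_le_one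
        _ = 1 := by norm_num
    refine (Finset.sum_le_sum h3).trans ?_
    rw [Finset.sum_const, Nat.card_Ioc, nsmul_eq_mul]
    simp
  have h3 := moebius_sq_tail z
  have h4 : |x * ∑ d ∈ Ioc 0 z, (ArithmeticFunction.moebius d : ℝ) / (d : ℝ) ^ 2 - c2 * x| ≤ 2 * Real.sqrt x := by
    have e : (x : ℝ) * ∑ d ∈ Ioc 0 z, (ArithmeticFunction.moebius d : ℝ) / (d : ℝ) ^ 2 - c2 * x =
        x * (∑ d ∈ Ioc 0 z, (ArithmeticFunction.moebius d : ℝ) / (d : ℝ) ^ 2 - c2) := by ring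
    rw [e, abs_mul, abs_of_nonneg (Nat.cast_nonneg x : (0:ℝ) ≤ x)]
    calc (x : ℝ) * |∑ d ∈ Ioc 0 z, (ArithmeticFunction.moebius d : ℝ) / (d : ℝ) ^ 2 - c2|
        ≤ x * (2 / (z + 1)) := mul_le_mul_of_nonneg_left h3 (Nat.cast_nonneg x)
      _ ≤ 2 * Real.sqrt x := by
          rw [mul_div_assoc', div_le_iff₀ (by positivity)]
          nlinarith
  calc _ = |(∑ d ∈ Ioc 0 z, (ArithmeticFunction.moebius d : ℝ) * ((x / d ^ 2 : ℕ) : ℝ) -
      x * ∑ d ∈ Ioc 0 z, (ArithmeticFunction.moebius d : ℝ) / (d : ℝ) ^ 2) +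
      (x * ∑ d ∈ Ioc 0 z, (ArithmeticFunction.moebius d : ℝ) / (d : ℝ) ^ 2 - c2 * x)| := by
        congr 1
        ring
    _ ≤ z + 2 * Real.sqrt x := (abs_add_le _ _).trans (add_le_add h2 h4)
    _ ≤ _ := by linarith

namespace Sqc

/-- number of squarefree integers up to `x` -/
noncomputable def F (x : ℕ) : ℝ := (((Ioc 0 x).filter Squarefree).card : ℝ)

lemma F_shift (N i : ℕ) : ∑ a ∈ Ioc 0 N, (if Squarefree (a + i) then (1:ℝ) else 0) = F (N + i) - F i := by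
  have h1 : ∀ x, F x = ∑ n ∈ Ioc 0 x, (if Squarefree n then (1:ℝ) else 0) := by
    intro x
    unfold F
    rw [Finset.card_filter]; push_cast; rfl
  rw [h1, h1]
  have h2 : ∑ a ∈ Ioc 0 N, (if Squarefree (a + i) then (1:ℝ) else 0) =
      ∑ n ∈ Ioc i (N + i), (if Squarefree n then (1:ℝ) else 0) := by
    refine Finset.sum_bij (fun a _ => a + i) ?_ ?_ ?_ ?_
    · intro a ha
      rw [Finset.mem_Ioc] at ha ⊢
      omega
    · intro a _ b _ h
      exact Nat.add_right_cancel h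
    · intro n hn
      rw [Finset.mem_Ioc] at hn
      exact ⟨n - i, by rw [Finset.mem_Ioc]; omega, by omega⟩
    · intro a _
      rfl
  rw [h2, eq_sub_iff_add_eq, add_comm, ← Finset.sum_union]
  · apply Finset.sum_congr _ (fun _ _ => rfl)
    ext n
    simp only [Finset.mem_union, Finset.mem_Ioc]
    omega
  · rw [Finset.disjoint_left]
    intro n h3 h4
    rw [Finset.mem_Ioc] at h3 h4
    omega

lemma card_Q_shift (h a : ℕ) : ((Q h a).card : ℝ) =
    ∑ i ∈ Ioc 0 h, (if Squarefree (a + i) then (1:ℝ) else 0) := by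
  have h1 : ((Q h a).card : ℝ) = ∑ n ∈ Ioc a (a + h), (if Squarefree n then (1:ℝ) else 0) := by
    rw [Q, Finset.card_filter]; push_cast; rfl
  rw [h1]
  symm
  refine Finset.sum_bij (fun i _ => a + i) ?_ ?_ ?_ ?_
  · intro i hi
    rw [Finset.mem_Ioc] at hi ⊢
    omega
  · intro i _ j _ h
    exact Nat.add_left_cancel h
  · intro n hn
    rw [Finset.mem_Ioc] at hn
    exact ⟨n - a, by rw [Finset.mem_Ioc]; omega, by omega⟩
  · intro i _
    rfl

end Sqc

theorem sum_card_Q_cum {N h : ℕ} (hh : h ≤ N) :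
    |∑ a ∈ Ioc 0 N, ((Q h a).card : ℝ) - c2 * h * N| ≤ 10 * h * Real.sqrt N := by
  rw [Finset.sum_congr rfl fun a _ => card_Q_shift h a, Finset.sum_comm,
    Finset.sum_congr rfl fun i _ => F_shift N i]
  have hN0 : 0 ≤ Real.sqrt N := Real.sqrt_nonneg _
  have h1 : ∀ i ∈ Ioc 0 h, |(F (N + i) - F i) - c2 * N| ≤ 10 * Real.sqrt N := by
    intro i hi
    rw [Finset.mem_Ioc] at hi
    have ha := card_squarefree (N + i)
    have hb := card_squarefree i
    have hc : Real.sqrt ((N + i : ℕ) : ℝ) ≤ 2 * Real.sqrt N := by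
      apply Real.sqrt_le_iff.2
      refine ⟨by positivity, ?_⟩
      rw [mul_pow, Real.sq_sqrt (Nat.cast_nonneg N)]
      have : N + i ≤ 4 * N := by omega
      have h' : ((N + i : ℕ) : ℝ) ≤ ((4 * N : ℕ) : ℝ) := by exact_mod_cast this
      push_cast at h' ⊢
      linarith
    have hd : Real.sqrt (i : ℝ) ≤ Real.sqrt N := Real.sqrt_le_sqrt (by exact_mod_cast hi.2.trans hh)
    have e : (F (N + i) - F i) - c2 * N = (F (N + i) - c2 * ((N + i : ℕ) : ℝ)) - (F i - c2 * i) := by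
      push_cast
      ring
    rw [e]
    refine (abs_sub _ _).trans ?_
    unfold F
    linarith
  have h2 : ∑ i ∈ Ioc 0 h, (F (N + i) - F i) - c2 * h * N = ∑ i ∈ Ioc 0 h, ((F (N + i) - F i) - c2 * N) := by
    rw [Finset.sum_sub_distrib (f := fun i => F (N + i) - F i), Finset.sum_const, Nat.card_Ioc, nsmul_eq_mul]
    simp only [Nat.sub_zero]
    ring
  rw [h2]
  refine (Finset.abs_sum_le_sum_abs _ _).trans ((Finset.sum_le_sum h1).trans ?_)
  rw [Finset.sum_const, Nat.card_Ioc, nsmul_eq_mul]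
  simp only [Nat.sub_zero]
  exact le_of_eq (by ring)

end Pool.Agent.P4f18dfQ
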