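import Pool.Agent.Lib.P4f18dfQ.Tail
import Pool.Agent.Lib.P4f18dfQ.Interp
import Pool.Agent.Lib.P4f18dfQ.Sqc

/-!
# The exceptional primes for the mean square

Module QT.BadV.  Parameters (all inequalities for large `P`): `c₀ = min ((1 - 2α) / 40) (η / 40)`,
`0 < c ≤ c₀`, `lam = P^(-3c)`, `s` with `P^(6c) ≤ 2^s ≤ 2 P^(6c)` (so `s ≥ 2`), `E₁` with
`2 P^α < 2^E₁ ≤ 4 P^α`, `E₂` with `8 exp (P^c) < 2^E₂` and `E₂ ≤ 2 P^c + 10` (`1 / log 2 < 3/2`),
`N₀ = (P^3 + 7) / 8` (so `P^3 ≤ 8 N₀`, `2 N₀ ≤ P^3 / 3`).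
`B` is the union over `m ∈ Net s E₁` with `1 ≤ m` and over `N ∈ Net s E₂` with `N₀ ≤ N` of the sets
of `card_bad 2` (lengths `m`, `k = 2`).  All elements of `Net s E₁` are
`< 2^(s+1) 2^E₁ ≤ 16 P^(α + 6c) ≤ P` (add a lemma), so the hypothesis `8 m^3 ≤ lam m P` holds, as
`2α + 15c < 1`, and `m ≤ P ≤ N`.
Cardinality: `card (Net s E₁) ≤ 4 P^(6c) (E₁ + 1) ≤ P^(7c)`, `card (Net s E₂) ≤ 4 P^(6c) (2 P^c + 11) ≤
P^(8c)`, each set has at most `C m^2 / lam^2 ≤ 256 C P^(2α + 12c + 6c)` elements; total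
`≤ 256 C P^(2α + 33c) ≤ P^(2α+η) / 2` (as `33 c < η`).
For `p ∈ PP P`, `p ∉ B`: `Uk (fq p) m N = Ek (fq p) 2 N m + ∑ card (Q m a)` (`triv_two`), so with
`sum_card_Q_cum` and `(√m)^2 = m`, `|Uk - c2 m N| ≤ lam m N + 10 m √N ≤ 2 lam m N` on the net
(`√N ≥ P^(3/2) / 3`), and `Uk_all` (with `2 lam ≤ 1`) gives for all `m ≤ 2 P^α < 2^E₁` and all `N` in
the range (`2 N₀ ≤ N`, `4 N ≤ 8 exp (P^c) < 2^E₂ ≤ 2^(s+E₂)`, `m ≤ N`) the bound with
`4 lam + 50 √(1 / 2^s) ≤ 54 P^(-3c) ≤ P^(-2c)`.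
-/

set_option autoImplicit false

namespace Pool.Agent.P4f18dfQ

open Finset Filter Pool.Agent.P4f18df

namespace BadV

theorem exists_E {T : ℝ} (hT : 0 ≤ T) : ∃ E : ℕ, 8 * Real.exp T < 2 ^ E ∧ (E : ℝ) ≤ 2 * T + 10 := by
  refine ⟨⌊2 * T⌋₊ + 10, ?_, ?_⟩
  · have h1 : 2 * T < ⌊2 * T⌋₊ + 1 := Nat.lt_floor_add_one _
    have h2 : (2 : ℝ) ^ (⌊2 * T⌋₊ + 10) = 2 ^ 9 * Real.exp ((⌊2 * T⌋₊ + 1 : ℕ) * Real.log 2) := by
      rw [mul_comm ((⌊2 * T⌋₊ + 1 : ℕ) : ℝ), Real.exp_mul, Real.exp_log (by norm_num : (0:ℝ) < 2),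
        Real.rpow_natCast, ← pow_add]
      congr 1
      omega
    rw [h2]
    have h3 : Real.exp T ≤ Real.exp ((⌊2 * T⌋₊ + 1 : ℕ) * Real.log 2) := by
      apply Real.exp_le_exp.2
      have hl := Real.log_two_gt_d9
      push_cast
      nlinarith
    have h4 := Real.exp_pos T
    nlinarith
  · have h1 : (⌊2 * T⌋₊ : ℝ) ≤ 2 * T := Nat.floor_le (by linarith)
    push_cast
    linarith

theorem cube_ge {P : ℕ} (h : 3 ≤ P) : 8 * P ≤ P ^ 3 := by
  have h1 : 8 ≤ P * P := by nlinarith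
  calc 8 * P ≤ (P * P) * P := Nat.mul_le_mul_right P h1
    _ = P ^ 3 := by ring

theorem card_bU {α : Type*} {s : Finset α} {f : α → Finset ℕ} {x : ℝ}
    (h : ∀ a ∈ s, ((f a).card : ℝ) ≤ x) : ((s.biUnion f).card : ℝ) ≤ s.card * x := by
  have h1 : ((s.biUnion f).card : ℝ) ≤ ∑ a ∈ s, ((f a).card : ℝ) := by
    exact_mod_cast Finset.card_biUnion_le
  refine h1.trans ((Finset.sum_le_sum h).trans ?_)
  rw [Finset.sum_const, nsmul_eq_mul]

theorem mem_Net_lt {s E n : ℕ} (h : n ∈ Net s E) : (n : ℝ) ≤ 2 ^ (s + 1) * 2 ^ E := by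
  unfold Net at h
  rw [mem_image] at h
  obtain ⟨x, hx, rfl⟩ := h
  rw [mem_product, mem_range, mem_range] at hx
  have h1 : x.1 * 2 ^ x.2 ≤ 2 ^ (s + 1) * 2 ^ E :=
    Nat.mul_le_mul hx.1.le (Nat.pow_le_pow_right (by norm_num) (by omega))
  exact_mod_cast h1

theorem Uk_eq (f : ℕ → ℝ) (m N : ℕ) :
    Uk f m N = Ek f 2 N m + ∑ a ∈ Ioc 0 N, ((Q m a).card : ℝ) := by
  unfold Uk Ek
  rw [← Finset.sum_add_distrib]
  refine Finset.sum_congr rfl fun a _ => ?_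
  rw [triv_two]
  ring

end BadV

open BadV

theorem bad_var (α η : ℝ) (hα : 0 < α) (hα' : α < 1 / 2) (hη : 0 < η) :
    ∃ c₀ : ℝ, 0 < c₀ ∧ ∀ c : ℝ, 0 < c → c ≤ c₀ → ∃ P₀ : ℕ, ∀ P : ℕ, P₀ ≤ P →
      ∃ B : Finset ℕ, (B.card : ℝ) ≤ (P : ℝ) ^ (2 * α + η) / 2 ∧ ∀ p ∈ PP P, p ∉ B →
        ∀ m : ℕ, 1 ≤ m → (m : ℝ) ≤ 2 * (P : ℝ) ^ α → ∀ N : ℕ, (P : ℝ) ^ 3 / 3 ≤ N →
          (N : ℝ) ≤ 2 * Real.exp ((P : ℝ) ^ c) →
            |Uk (fq p) m N - c2 * m * N| ≤ (P : ℝ) ^ (-(2 * c)) * m * N := by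
  obtain ⟨C, hC0, hC⟩ := card_bad 2 (by norm_num)
  refine ⟨min ((1 - 2 * α) / 40) (η / 40), lt_min (by linarith) (by linarith), ?_⟩
  intro c hc hc0
  have hcα : 40 * c ≤ 1 - 2 * α := by
    have := hc0.trans (min_le_left _ _)
    linarith
  have hcη : 40 * c ≤ η := by
    have := hc0.trans (min_le_right _ _)
    linarith
  have hlim : ∀ᶠ P : ℕ in atTop, 100 + 106496 * C ≤ (P : ℝ) ^ c :=
    ((tendsto_rpow_atTop hc).comp tendsto_natCast_atTop_atTop).eventually_ge_atTop _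
  have hlog : ∀ᶠ P : ℕ in atTop, Real.log P ≤ (1 / 10) * (P : ℝ) ^ c := by
    have h1 := (isLittleO_log_rpow_atTop hc).bound (show (0 : ℝ) < 1 / 10 by norm_num)
    have h2 := (tendsto_natCast_atTop_atTop (R := ℝ)).eventually h1
    filter_upwards [h2] with P hP
    rw [Real.norm_eq_abs, Real.norm_eq_abs,
      abs_of_nonneg (Real.rpow_nonneg (Nat.cast_nonneg P) c)] at hP
    exact (le_abs_self _).trans hP
  obtain ⟨P₀, hP₀⟩ := eventually_atTop.1 (hlim.and hlog)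
  refine ⟨max P₀ 3, fun P hP => ?_⟩
  have hP1 : P₀ ≤ P := (le_max_left _ _).trans hP
  have hP3 : 3 ≤ P := (le_max_right _ _).trans hP
  have hP3r : (3 : ℝ) ≤ P := by exact_mod_cast hP3
  have hPr : (1 : ℝ) ≤ P := by linarith
  have hPpos : (0 : ℝ) < P := by linarith
  obtain ⟨hTM, hTlog⟩ := hP₀ P hP1
  have hPneg : (P : ℝ) ^ (-(2 * c)) = 1 / ((P : ℝ) ^ c) ^ 2 := by
    rw [Real.rpow_neg hPpos.le, one_div, ← Real.rpow_natCast, ← Real.rpow_mul hPpos.le]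
    congr 2
    push_cast
    ring
  have hPη : ((P : ℝ) ^ c) ^ 33 ≤ (P : ℝ) ^ η := by
    rw [← Real.rpow_natCast, ← Real.rpow_mul hPpos.le]
    refine Real.rpow_le_rpow_of_exponent_le hPr ?_
    push_cast
    linarith
  have hPα : ((P : ℝ) ^ c) ^ 20 * (P : ℝ) ^ (2 * α) ≤ P := by
    rw [← Real.rpow_natCast, ← Real.rpow_mul hPpos.le, ← Real.rpow_add hPpos]
    calc (P : ℝ) ^ (c * ((20 : ℕ) : ℝ) + 2 * α) ≤ (P : ℝ) ^ (1 : ℝ) := by
          refine Real.rpow_le_rpow_of_exponent_le hPr ?_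
          push_cast
          linarith
      _ = P := Real.rpow_one _
  rw [hPneg, Real.rpow_add hPpos]
  set T : ℝ := (P : ℝ) ^ c with hT
  set A : ℝ := (P : ℝ) ^ α with hA
  have hA2 : (P : ℝ) ^ (2 * α) = A ^ 2 := by
    rw [hA, ← Real.rpow_natCast, ← Real.rpow_mul hPpos.le]
    congr 1
    push_cast
    ring
  rw [hA2] at hPα ⊢
  have hA1 : 1 ≤ A := Real.one_le_rpow hPr hα.le
  have hA0 : 0 < A := by linarith
  have hT100 : 100 ≤ T := by nlinarith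
  have hTC : 106496 * C ≤ T := by linarith
  have hT1 : 1 ≤ T := by linarith
  have hT0 : 0 < T := by linarith
  have hTpow : ∀ j : ℕ, 1 ≤ T ^ j := fun j => one_le_pow₀ hT1
  obtain ⟨s₀, hs₀, hs₀'⟩ := exists_nat_pow_near (hTpow 6) (by norm_num : (1 : ℝ) < 2)
  obtain ⟨e₀, he₀, he₀'⟩ := exists_nat_pow_near (show (1 : ℝ) ≤ 2 * A by linarith)
    (by norm_num : (1 : ℝ) < 2)
  obtain ⟨E₂, hE2, hE2'⟩ := exists_E hT0.le
  set s : ℕ := s₀ + 1 with hs
  set E₁ : ℕ := e₀ + 1 with hE₁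
  have hs1 : T ^ 6 ≤ 2 ^ s := hs₀'.le
  have hs2 : (2 : ℝ) ^ s ≤ 2 * T ^ 6 := by
    rw [hs, pow_succ]
    linarith
  have hE1 : 2 * A < 2 ^ E₁ := he₀'
  have hE1' : (2 : ℝ) ^ E₁ ≤ 4 * A := by
    rw [hE₁, pow_succ]
    linarith
  have hs4 : 2 ≤ s := by
    by_contra hlt
    have h1 : (2 : ℝ) ^ s ≤ 2 ^ 1 := pow_le_pow_right₀ (by norm_num) (by omega)
    have h2 : T ≤ T ^ 6 := by
      calc T = T ^ 1 := (pow_one T).symm
        _ ≤ T ^ 6 := pow_le_pow_right₀ hT1 (by norm_num)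
    linarith
  have hAP : A ≤ P := by
    calc A ≤ A ^ 2 := by nlinarith
      _ = 1 * A ^ 2 := (one_mul _).symm
      _ ≤ T ^ 20 * A ^ 2 := mul_le_mul_of_nonneg_right (hTpow 20) (by positivity)
      _ ≤ P := hPα
  have hE1T : (E₁ : ℝ) + 1 ≤ T := by
    have h1 : Real.log ((2 : ℝ) ^ E₁) ≤ Real.log (4 * P) :=
      Real.log_le_log (by positivity) (by linarith)
    rw [Real.log_pow, Real.log_mul (by norm_num) hPpos.ne'] at h1
    have h2 : Real.log 4 = 2 * Real.log 2 := by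
      rw [show (4 : ℝ) = 2 ^ 2 by norm_num, Real.log_pow]
      norm_num
    have h3 := Real.log_two_gt_d9
    have h4 := Real.log_two_lt_d9
    have h5 : (0 : ℝ) ≤ E₁ := Nat.cast_nonneg _
    nlinarith
  set N₀ : ℕ := (P ^ 3 + 7) / 8 with hN₀
  have hN8 : P ^ 3 ≤ 8 * N₀ := by omega
  have hN3 : (2 * N₀ : ℝ) ≤ (P : ℝ) ^ 3 / 3 := by
    have h1 : 8 * N₀ ≤ P ^ 3 + 7 := by omega
    have h2 : (8 * N₀ : ℝ) ≤ (P : ℝ) ^ 3 + 7 := by exact_mod_cast h1
    have h3 : (27 : ℝ) ≤ (P : ℝ) ^ 3 := by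
      calc (27 : ℝ) = 3 ^ 3 := by norm_num
        _ ≤ (P : ℝ) ^ 3 := pow_le_pow_left₀ (by norm_num) hP3r 3
    linarith
  -- the elements of the first net
  have hm_le : ∀ m ∈ Net s E₁, (m : ℝ) ≤ 16 * T ^ 6 * A := by
    intro m hm
    refine (mem_Net_lt hm).trans ?_
    have h1 : (2 : ℝ) ^ (s + 1) ≤ 4 * T ^ 6 := by
      rw [pow_succ]
      linarith
    calc (2 : ℝ) ^ (s + 1) * 2 ^ E₁ ≤ (4 * T ^ 6) * (4 * A) :=
          mul_le_mul h1 hE1' (by positivity) (by positivity)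
      _ = 16 * T ^ 6 * A := by ring
  have hm_sq : ∀ m ∈ Net s E₁, (m : ℝ) ^ 2 ≤ 256 * T ^ 12 * A ^ 2 := by
    intro m hm
    calc (m : ℝ) ^ 2 ≤ (16 * T ^ 6 * A) ^ 2 :=
          pow_le_pow_left₀ (Nat.cast_nonneg _) (hm_le m hm) 2
      _ = 256 * T ^ 12 * A ^ 2 := by ring
  have hm_P : ∀ m ∈ Net s E₁, m ≤ P := by
    intro m hm
    have h1 : 16 * T ^ 6 * A ≤ P := by
      refine le_trans ?_ hPα
      have h2 : 16 * T ^ 6 ≤ T ^ 20 := by
        calc 16 * T ^ 6 ≤ T * T ^ 6 := by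
              refine mul_le_mul_of_nonneg_right ?_ (by positivity)
              linarith
          _ = T ^ 7 := by ring
          _ ≤ T ^ 20 := pow_le_pow_right₀ hT1 (by norm_num)
      exact mul_le_mul h2 (by nlinarith) hA0.le (by positivity)
    exact_mod_cast (hm_le m hm).trans h1
  have hPN : ∀ N : ℕ, N₀ ≤ N → P ≤ N := by
    intro N hN
    have h2 : 8 * P ≤ P ^ 3 := cube_ge hP3
    omega
  have hcond : ∀ m ∈ Net s E₁, 8 * (m : ℝ) ^ (2 + 1) ≤ 1 / T ^ 3 * (Real.sqrt m) ^ 2 * P := by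
    intro m hm
    rw [Real.sq_sqrt (Nat.cast_nonneg _)]
    have h1 := hm_sq m hm
    have h2 : 2048 * T ^ 15 * A ^ 2 ≤ P := by
      refine le_trans ?_ hPα
      refine mul_le_mul_of_nonneg_right ?_ (by positivity)
      have h5 : (2048 : ℝ) ≤ T ^ 5 := by
        calc (2048 : ℝ) ≤ 100 ^ 5 := by norm_num
          _ ≤ T ^ 5 := pow_le_pow_left₀ (by norm_num) hT100 5
      calc 2048 * T ^ 15 ≤ T ^ 5 * T ^ 15 := mul_le_mul_of_nonneg_right h5 (by positivity)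
        _ = T ^ 20 := by ring
    rw [div_mul_eq_mul_div, div_mul_eq_mul_div, le_div_iff₀ (by positivity), one_mul]
    have h3 : (8 * (m : ℝ) ^ 2) * T ^ 3 ≤ P := by
      refine le_trans ?_ h2
      calc (8 * (m : ℝ) ^ 2) * T ^ 3 ≤ (8 * (256 * T ^ 12 * A ^ 2)) * T ^ 3 := by
            refine mul_le_mul_of_nonneg_right ?_ (by positivity)
            linarith
        _ = 2048 * T ^ 15 * A ^ 2 := by ring
    calc 8 * (m : ℝ) ^ (2 + 1) * T ^ 3 = (m : ℝ) * ((8 * (m : ℝ) ^ 2) * T ^ 3) := by ring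
      _ ≤ (m : ℝ) * P := mul_le_mul_of_nonneg_left h3 (Nat.cast_nonneg _)
  set B : Finset ℕ := ((Net s E₁).filter (fun m => 1 ≤ m)).biUnion fun m =>
    ((Net s E₂).filter (fun N => N₀ ≤ N)).biUnion fun N =>
      (PP P).filter (fun p => 1 / T ^ 3 * (Real.sqrt m) ^ 2 * N < |Ek (fq p) 2 N m|) with hB
  refine ⟨B, ?_, ?_⟩
  · have c1 : ∀ m ∈ (Net s E₁).filter (fun m => 1 ≤ m), ∀ N ∈ (Net s E₂).filter (fun N => N₀ ≤ N),
        (((PP P).filter (fun p => 1 / T ^ 3 * (Real.sqrt m) ^ 2 * N <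
          |Ek (fq p) 2 N m|)).card : ℝ) ≤ 256 * C * T ^ 18 * A ^ 2 := by
      intro m hm N hN
      rw [mem_filter] at hm hN
      have hmP := hm_P m hm.1
      have h1 := hC P N m (by omega) (hN8.trans (Nat.mul_le_mul_left 8 hN.2)) hm.2 hmP
        (hmP.trans (hPN N hN.2)) (1 / T ^ 3) (by positivity) (hcond m hm.1)
      refine h1.trans ?_
      have e2 : C * (m : ℝ) ^ 2 / (1 / T ^ 3) ^ 2 = C * T ^ 6 * (m : ℝ) ^ 2 := by
        field_simp
      rw [e2]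
      calc C * T ^ 6 * (m : ℝ) ^ 2 ≤ C * T ^ 6 * (256 * T ^ 12 * A ^ 2) :=
            mul_le_mul_of_nonneg_left (hm_sq m hm.1) (by positivity)
        _ = 256 * C * T ^ 18 * A ^ 2 := by ring
    have hnet_card : ∀ E : ℕ, ∀ y : ℝ, (E : ℝ) + 1 ≤ y → ∀ q : ℕ → Prop, ∀ _ : DecidablePred q,
        (((Net s E).filter q).card : ℝ) ≤ 4 * T ^ 6 * y := by
      intro E y hy q _
      have e1 : (((Net s E).filter q).card : ℝ) ≤ 2 ^ (s + 1) * ((E : ℝ) + 1) := by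
        have := (Finset.card_filter_le (Net s E) q).trans (card_Net_le s E)
        exact_mod_cast this
      refine e1.trans ?_
      have e2 : (2 : ℝ) ^ (s + 1) ≤ 4 * T ^ 6 := by
        rw [pow_succ]
        linarith
      exact mul_le_mul e2 hy (by positivity) (by positivity)
    have c2' : ∀ m ∈ (Net s E₁).filter (fun m => 1 ≤ m),
        ((((Net s E₂).filter (fun N => N₀ ≤ N)).biUnion fun N =>
          (PP P).filter (fun p => 1 / T ^ 3 * (Real.sqrt m) ^ 2 * N <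
            |Ek (fq p) 2 N m|)).card : ℝ) ≤
          (4 * T ^ 6 * (13 * T)) * (256 * C * T ^ 18 * A ^ 2) := by
      intro m hm
      refine (card_bU (c1 m hm)).trans ?_
      refine mul_le_mul_of_nonneg_right ?_ (by positivity)
      exact hnet_card E₂ (13 * T) (by linarith) _ _
    have c3 : (B.card : ℝ) ≤
        (4 * T ^ 6 * T) * ((4 * T ^ 6 * (13 * T)) * (256 * C * T ^ 18 * A ^ 2)) := by
      refine (card_bU c2').trans ?_
      refine mul_le_mul_of_nonneg_right ?_ (by positivity)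
      exact hnet_card E₁ T hE1T _ _
    refine c3.trans ?_
    have c4 : (4 * T ^ 6 * T) * ((4 * T ^ 6 * (13 * T)) * (256 * C * T ^ 18 * A ^ 2)) =
        (53248 * C) * T ^ 32 * A ^ 2 := by
      ring
    rw [c4, le_div_iff₀ (by norm_num)]
    calc (53248 * C) * T ^ 32 * A ^ 2 * 2 = A ^ 2 * ((106496 * C) * T ^ 32) := by ring
      _ ≤ A ^ 2 * (T * T ^ 32) := by
          refine mul_le_mul_of_nonneg_left ?_ (by positivity)
          exact mul_le_mul_of_nonneg_right hTC (by positivity)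
      _ = A ^ 2 * T ^ 33 := by ring
      _ ≤ A ^ 2 * (P : ℝ) ^ η := mul_le_mul_of_nonneg_left hPη (by positivity)
  · intro p hp hpB m hm1 hmA N hN1 hN2
    have hnet : ∀ m ∈ Net s E₁, 1 ≤ m → ∀ N ∈ Net s E₂, N₀ ≤ N →
        |Uk (fq p) m N - c2 * m * N| ≤ (2 / T ^ 3) * m * N := by
      intro m hm h1m N hN hN0
      have h1 : |Ek (fq p) 2 N m| ≤ 1 / T ^ 3 * (Real.sqrt m) ^ 2 * N := by
        by_contra hlt
        push Not at hlt
        apply hpB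
        rw [hB]
        simp only [mem_biUnion]
        exact ⟨m, mem_filter.2 ⟨hm, h1m⟩, N, mem_filter.2 ⟨hN, hN0⟩, mem_filter.2 ⟨hp, hlt⟩⟩
      rw [Real.sq_sqrt (Nat.cast_nonneg _)] at h1
      have h2 := sum_card_Q_cum ((hm_P m hm).trans (hPN N hN0))
      have h3 : 10 * T ^ 3 ≤ Real.sqrt N := by
        have e1 : (P : ℝ) / 3 ≤ Real.sqrt N := by
          apply Real.le_sqrt_of_sq_le
          have e2 : (P : ℝ) ^ 3 ≤ 8 * N := by
            exact_mod_cast hN8.trans (Nat.mul_le_mul_left 8 hN0)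
          have e3 : (3 : ℝ) * (P : ℝ) ^ 2 ≤ (P : ℝ) ^ 3 := by nlinarith [sq_nonneg (P : ℝ)]
          nlinarith [sq_nonneg (P : ℝ)]
        have e4 : 30 * T ^ 3 ≤ P := by
          refine le_trans ?_ hPα
          calc 30 * T ^ 3 ≤ T * T ^ 3 := by
                refine mul_le_mul_of_nonneg_right ?_ (by positivity)
                linarith
            _ = T ^ 4 * 1 := by ring
            _ ≤ T ^ 20 * A ^ 2 := mul_le_mul (pow_le_pow_right₀ hT1 (by norm_num))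
                (one_le_pow₀ hA1) (by norm_num) (by positivity)
        linarith
      have hsq : Real.sqrt N * Real.sqrt N = N := Real.mul_self_sqrt (Nat.cast_nonneg _)
      have h4 : 10 * (m : ℝ) * Real.sqrt N ≤ 1 / T ^ 3 * m * N := by
        rw [div_mul_eq_mul_div, div_mul_eq_mul_div, le_div_iff₀ (by positivity), one_mul]
        calc 10 * (m : ℝ) * Real.sqrt N * T ^ 3 = (m : ℝ) * Real.sqrt N * (10 * T ^ 3) := by ring
          _ ≤ (m : ℝ) * Real.sqrt N * Real.sqrt N :=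
              mul_le_mul_of_nonneg_left h3 (by positivity)
          _ = m * N := by rw [mul_assoc, hsq]
      rw [Uk_eq]
      calc |Ek (fq p) 2 N m + ∑ a ∈ Ioc 0 N, ((Q m a).card : ℝ) - c2 * m * N|
          = |Ek (fq p) 2 N m + (∑ a ∈ Ioc 0 N, ((Q m a).card : ℝ) - c2 * m * N)| := by
            congr 1; ring
        _ ≤ |Ek (fq p) 2 N m| + |∑ a ∈ Ioc 0 N, ((Q m a).card : ℝ) - c2 * m * N| :=
            abs_add_le _ _
        _ ≤ 1 / T ^ 3 * m * N + 1 / T ^ 3 * m * N := add_le_add h1 (h2.trans h4)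
        _ = (2 / T ^ 3) * m * N := by ring
    have hT3 : (54 : ℝ) ≤ T ^ 3 := by
      calc (54 : ℝ) ≤ 100 ^ 3 := by norm_num
        _ ≤ T ^ 3 := pow_le_pow_left₀ (by norm_num) hT100 3
    have hP33 : (P : ℝ) ^ 3 / 3 ≥ 3 * P := by nlinarith [sq_nonneg (P : ℝ)]
    have hN8' : 2 * N₀ ≤ N := by exact_mod_cast hN3.trans hN1
    have hE2N : 4 * N < 2 ^ (s + E₂) := by
      have h1 : (4 * N : ℝ) < 2 ^ E₂ := by linarith
      have h2 : (2 : ℝ) ^ E₂ ≤ 2 ^ (s + E₂) := pow_le_pow_right₀ (by norm_num) (by omega)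
      exact_mod_cast h1.trans_le h2
    have hmE : m < 2 ^ E₁ := by exact_mod_cast hmA.trans_lt hE1
    have hmN : m ≤ N := by
      have : (m : ℝ) ≤ N := by linarith
      exact_mod_cast this
    have h := Uk_all (f := fq p) (s := s) (E₁ := E₁) (E₂ := E₂) (N₀ := N₀) (lam := 2 / T ^ 3)
      hs4 (by positivity) (by rw [div_le_one (by positivity)]; linarith) hnet m hm1 hmE N hN8'
      hE2N hmN
    refine h.trans ?_
    have h5 : Real.sqrt (1 / 2 ^ s) ≤ 1 / T ^ 3 := by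
      rw [Real.sqrt_le_left (by positivity), div_pow, one_pow]
      refine one_div_le_one_div_of_le (by positivity) ?_
      calc (T ^ 3) ^ 2 = T ^ 6 := by ring
        _ ≤ 2 ^ s := hs1
    have h6 : 2 * (2 / T ^ 3) + 50 * Real.sqrt (1 / 2 ^ s) ≤ 1 / T ^ 2 := by
      have e1 : 2 * (2 / T ^ 3) + 50 * (1 / T ^ 3) = 54 / T ^ 3 := by ring
      have e2 : 54 / T ^ 3 ≤ 1 / T ^ 2 := by
        rw [div_le_div_iff₀ (by positivity) (by positivity), one_mul]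
        calc 54 * T ^ 2 ≤ T * T ^ 2 := by
              refine mul_le_mul_of_nonneg_right ?_ (by positivity)
              linarith
          _ = T ^ 3 := by ring
      linarith
    have h7 : (0 : ℝ) ≤ (m : ℝ) * N := by positivity
    calc (2 * (2 / T ^ 3) + 50 * Real.sqrt (1 / 2 ^ s)) * m * N
        = (2 * (2 / T ^ 3) + 50 * Real.sqrt (1 / 2 ^ s)) * ((m : ℝ) * N) := by ring
      _ ≤ (1 / T ^ 2) * ((m : ℝ) * N) := mul_le_mul_of_nonneg_right h6 h7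
      _ = 1 / T ^ 2 * m * N := by ring

end Pool.Agent.P4f18dfQ
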