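import Pool.Agent.Lib.P4f18dfQ.Defs
import Pool.Agent.Lib.P4f18dfQ.Weil

/-!
# Complete sums of the Legendre symbol of products of shifts

Module QT.Bridge.  `lg p n = legendreSym p n = quadraticChar (ZMod p) (n : ZMod p)`
(`jacobiSym.legendreSym.to_jacobiSym`, definition of `legendreSym`), so
`lg p (Fs S n) = quadraticChar (∏_{s ∈ S} ((n : ZMod p) + s)) =
quadraticChar (∏_{s ∈ S'} ((n : ZMod p) - s))`, `S' = S.image (fun s => -(s : ZMod p))`, of the same
cardinality since the elements of `S` are `< p`.  The sum over `n ∈ range p` is the sum over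
`ZMod p` (`Finset.sum_nbij'` with `Nat.cast` and `ZMod.val`, or `Fin` equivalence).
`p = 2`: trivial bound `2 ≤ 2 * √2`; take the maximum of the constants.
-/

set_option autoImplicit false

namespace Pool.Agent.P4f18dfQ

open Finset

namespace Bridge

theorem lg_eq_quadraticChar (p : ℕ) [Fact p.Prime] (n : ℕ) :
    lg p n = ((quadraticChar (ZMod p) (n : ZMod p) : ℤ) : ℝ) := by
  unfold lg
  rw [← jacobiSym.legendreSym.to_jacobiSym]
  unfold legendreSym
  push_cast
  rfl

theorem sum_range_eq (p : ℕ) [Fact p.Prime] (f : ZMod p → ℝ) :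
    ∑ n ∈ range p, f (n : ZMod p) = ∑ x : ZMod p, f x := by
  have hp : 0 < p := (Fact.out : p.Prime).pos
  refine Finset.sum_nbij' (fun n => (n : ZMod p)) (fun x => x.val) ?_ ?_ ?_ ?_ ?_
  · intro n _; exact Finset.mem_univ _
  · intro x _; exact Finset.mem_range.2 (ZMod.val_lt x)
  · intro n hn
    exact ZMod.val_cast_of_lt (Finset.mem_range.1 hn)
  · intro x _; exact ZMod.natCast_zmod_val x
  · intro n _; rfl

end Bridge

open Bridge

theorem lg_Fs_periodic (p : ℕ) (S : Finset ℕ) (n : ℕ) :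
    lg p (Fs S (n + p)) = lg p (Fs S n) := by
  have h : Fs S (n + p) ≡ Fs S n [MOD p] := by
    rw [← ZMod.natCast_eq_natCast_iff]
    unfold Fs
    push_cast
    refine Finset.prod_congr rfl fun s _ => ?_
    rw [ZMod.natCast_self, add_zero]
  have h2 : ((Fs S (n + p) : ℕ) : ℤ) % (p : ℤ) = ((Fs S n : ℕ) : ℤ) % (p : ℤ) := by
    exact_mod_cast h
  unfold lg
  rw [jacobiSym.mod_left' h2]

theorem complete_sum (m : ℕ) (hm : 1 ≤ m) : ∃ C : ℝ, 0 < C ∧ ∀ p : ℕ, p.Prime →
    ∀ S : Finset ℕ, S.card = m → (∀ s ∈ S, s < p) →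
      |∑ n ∈ range p, lg p (Fs S n)| ≤ C * Real.sqrt p := by
  classical
  obtain ⟨C, hC, hmain⟩ := weil m hm
  refine ⟨max C 2, lt_max_of_lt_left hC, ?_⟩
  intro p hp S hS hlt
  have : Fact p.Prime := ⟨hp⟩
  have hsq : 0 ≤ Real.sqrt p := Real.sqrt_nonneg _
  by_cases hp2 : p = 2
  · have h1 : |∑ n ∈ range p, lg p (Fs S n)| ≤ ∑ n ∈ range p, (1:ℝ) :=
      (Finset.abs_sum_le_sum_abs _ _).trans (Finset.sum_le_sum fun n _ => abs_lg_le _ _)
    have h2 : ∑ n ∈ range p, (1:ℝ) = 2 := by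
      rw [Finset.sum_const, Finset.card_range, hp2]; norm_num
    have h3 : (1:ℝ) ≤ Real.sqrt p := by
      rw [Real.one_le_sqrt, hp2]; norm_num
    calc |∑ n ∈ range p, lg p (Fs S n)| ≤ 2 := by rw [← h2]; exact h1
      _ ≤ 2 * Real.sqrt p := by linarith
      _ ≤ max C 2 * Real.sqrt p := mul_le_mul_of_nonneg_right (le_max_right _ _) hsq
  · set S' : Finset (ZMod p) := S.image (fun s : ℕ => -(s : ZMod p)) with hS'
    have hinj : Set.InjOn (fun s : ℕ => -(s : ZMod p)) (S : Set ℕ) := by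
      intro a ha b hb hab
      have h1 : ((a : ℕ) : ZMod p) = (b : ZMod p) := neg_injective hab
      have h2 := congrArg ZMod.val h1
      rwa [ZMod.val_cast_of_lt (hlt a ha), ZMod.val_cast_of_lt (hlt b hb)] at h2
    have hcard : S'.card = m := by
      rw [hS', Finset.card_image_of_injOn hinj, hS]
    have hterm : ∀ n : ℕ, lg p (Fs S n) =
        ((quadraticChar (ZMod p) (∏ s ∈ S', ((n : ZMod p) - s)) : ℤ) : ℝ) := by
      intro n
      rw [lg_eq_quadraticChar]
      congr 3
      rw [hS', Finset.prod_image (fun a ha b hb hab => hinj ha hb hab)]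
      unfold Fs
      push_cast
      refine Finset.prod_congr rfl fun s _ => ?_
      ring
    have hsum : ∑ n ∈ range p, lg p (Fs S n) =
        ∑ x : ZMod p, ((quadraticChar (ZMod p) (∏ s ∈ S', (x - s)) : ℤ) : ℝ) := by
      rw [← sum_range_eq p (fun x => ((quadraticChar (ZMod p) (∏ s ∈ S', (x - s)) : ℤ) : ℝ))]
      exact Finset.sum_congr rfl fun n _ => hterm n
    rw [hsum]
    exact (hmain p hp2 S' hcard).trans (mul_le_mul_of_nonneg_right (le_max_left _ _) hsq)

end Pool.Agent.P4f18dfQ
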