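import Pool.Agent.Lib.P4f18df.TwLaw
import Pool.Agent.Lib.P4f18df.Variance

/-!
# Quadratic twists of the Möbius function by characters of small conductor: definitions
-/

set_option autoImplicit false

namespace Pool.Agent.P4f18dfQ

open Finset Pool.Agent.P4f18df NumberTheorySymbols

/-- the Legendre symbol as a real number -/
noncomputable def lg (p n : ℕ) : ℝ := ((J((n : ℤ) | p) : ℤ) : ℝ)

/-- the twisted Möbius function -/
noncomputable def fm (p n : ℕ) : ℝ := (ArithmeticFunction.moebius n : ℝ) * lg p n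

/-- the same function with the symbol replaced by `1` at the multiples of `p` -/
noncomputable def fq (p n : ℕ) : ℝ :=
  (ArithmeticFunction.moebius n : ℝ) * (if p ∣ n then 1 else lg p n)

/-- product of shifts -/
def Fs (S : Finset ℕ) (n : ℕ) : ℕ := ∏ s ∈ S, (n + s)

/-- cumulative discrepancy of the `k`-th moment -/
noncomputable def Ek (f : ℕ → ℝ) (k N h : ℕ) : ℝ :=
  ∑ a ∈ Ioc 0 N, ((Wd f h a) ^ k - (triv k (Q h a) : ℝ))

/-- cumulative mean square -/
noncomputable def Uk (f : ℕ → ℝ) (m N : ℕ) : ℝ := ∑ a ∈ Ioc 0 N, (Wd f m a) ^ 2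

/-- the primes in `(P, 2P]` -/
def PP (P : ℕ) : Finset ℕ := (Ioc P (2 * P)).filter Nat.Prime

/-- the values taken an odd number of times -/
def od {k : ℕ} (t : Fin k → ℕ) : Finset ℕ :=
  (univ.image t).filter (fun s => Odd (univ.filter (fun j => t j = s)).card)

/-- tuples of shifts in `[1, h]` in which some value occurs an odd number of times -/
def Tk (k h : ℕ) : Finset (Fin k → ℕ) :=
  (Fintype.piFinset (fun _ : Fin k => Icc 1 h)).filter (fun t => (od t).Nonempty)

/-- the off-diagonal part of the cumulative `k`-th moment -/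
noncomputable def Gk (k N h p : ℕ) : ℝ :=
  ∑ t ∈ Tk k h, ∑ a ∈ Ioc 0 N,
    (∏ j, (ArithmeticFunction.moebius (a + t j) : ℝ)) * lg p (Fs (od t) a)

/-- dyadic net -/
def Net (s E : ℕ) : Finset ℕ :=
  ((range (2 ^ (s + 1))) ×ˢ (range (E + 1))).image (fun x => x.1 * 2 ^ x.2)

lemma lg_cases (p n : ℕ) : lg p n = 0 ∨ lg p n = 1 ∨ lg p n = -1 := by
  unfold lg
  rcases jacobiSym.trichotomy (n : ℤ) p with h | h | h <;> rw [h] <;> simp

lemma abs_lg_le (p n : ℕ) : |lg p n| ≤ 1 := by
  rcases lg_cases p n with h | h | h <;> rw [h] <;> simp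

lemma lg_sq_of_not_dvd {p n : ℕ} (hp : p.Prime) (h : ¬ p ∣ n) : lg p n = 1 ∨ lg p n = -1 := by
  have hJ : J((n : ℤ) | p) = 1 ∨ J((n : ℤ) | p) = -1 := by
    apply jacobiSym.eq_one_or_neg_one
    rw [Int.gcd_natCast_natCast, Nat.gcd_comm]
    exact (Nat.Prime.coprime_iff_not_dvd hp).2 h
  unfold lg
  rcases hJ with h | h <;> rw [h] <;> norm_num

lemma lg_of_dvd {p n : ℕ} (hp : p.Prime) (h : p ∣ n) : lg p n = 0 := by
  unfold lg
  have : J((n : ℤ) | p) = 0 := by
    haveI := NeZero.mk hp.ne_zero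
    rw [jacobiSym.eq_zero_iff_not_coprime, Int.gcd_natCast_natCast]
    intro hc
    have h1 : p ∣ Nat.gcd n p := Nat.dvd_gcd h dvd_rfl
    rw [hc] at h1
    exact hp.one_lt.ne' (Nat.dvd_one.1 h1)
  rw [this]; norm_num

lemma lg_mul (p a b : ℕ) : lg p (a * b) = lg p a * lg p b := by
  unfold lg
  push_cast
  rw [jacobiSym.mul_left]
  push_cast
  ring

lemma lg_one (p : ℕ) : lg p 1 = 1 := by
  unfold lg; simp

lemma lg_Fs (p : ℕ) (S : Finset ℕ) (n : ℕ) : lg p (Fs S n) = ∏ s ∈ S, lg p (n + s) := by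
  classical
  induction S using Finset.induction_on with
  | empty => simp [Fs, lg_one]
  | insert a S ha ih =>
    have : Fs (insert a S) n = (n + a) * Fs S n := by
      unfold Fs; rw [Finset.prod_insert ha]
    rw [this, lg_mul, ih, Finset.prod_insert ha]

lemma sgn_fq {p : ℕ} (hp : p.Prime) : SgnFun (fq p) := by
  intro n
  constructor
  · intro hn
    have hM : ArithmeticFunction.moebius n = 1 ∨ ArithmeticFunction.moebius n = -1 := by
      rcases ArithmeticFunction.moebius_ne_zero_iff_eq_or.1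
        (ArithmeticFunction.moebius_ne_zero_iff_squarefree.2 hn) with h | h
      · exact Or.inl h
      · exact Or.inr h
    have hL : (if p ∣ n then (1:ℝ) else lg p n) = 1 ∨ (if p ∣ n then (1:ℝ) else lg p n) = -1 := by
      split_ifs with h
      · left; rfl
      · exact lg_sq_of_not_dvd hp h
    unfold fq
    rcases hL with h2 | h2 <;> rcases hM with h3 | h3 <;> rw [h2, h3] <;> norm_num
  · intro hn
    unfold fq
    rw [ArithmeticFunction.moebius_eq_zero_of_not_squarefree hn]; simp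

lemma fm_eq_fq {p n : ℕ} (h : ¬ p ∣ n) : fm p n = fq p n := by
  unfold fm fq; rw [if_neg h]

lemma abs_moebius_le (n : ℕ) : |(ArithmeticFunction.moebius n : ℝ)| ≤ 1 := by
  have := ArithmeticFunction.abs_moebius_le_one (n := n)
  exact_mod_cast this

lemma abs_fm_le (p n : ℕ) : |fm p n| ≤ 1 := by
  unfold fm
  rw [abs_mul]
  have h1 := abs_moebius_le n
  have h2 := abs_lg_le p n
  calc _ ≤ (1:ℝ) * 1 := mul_le_mul h1 h2 (abs_nonneg _) zero_le_one
    _ = 1 := by norm_num

lemma abs_fq_le (p n : ℕ) : |fq p n| ≤ 1 := by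
  unfold fq
  rw [abs_mul]
  have h1 := abs_moebius_le n
  have h2 : |(if p ∣ n then (1:ℝ) else lg p n)| ≤ 1 := by
    split_ifs
    · simp
    · exact abs_lg_le p n
  calc _ ≤ (1:ℝ) * 1 := mul_le_mul h1 h2 (abs_nonneg _) zero_le_one
    _ = 1 := by norm_num

lemma Dk_eq_Ek (f : ℕ → ℝ) (k N h : ℕ) : Dk f k N h = (Ek f k (2 * N) h - Ek f k N h) / N := by
  unfold Dk Ek
  congr 1
  have hd : Disjoint (Ioc 0 N) (Ioc N (2 * N)) := by
    rw [Finset.disjoint_left]
    intro a h1 h2
    rw [Finset.mem_Ioc] at h1 h2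
    omega
  have hu : Ioc 0 (2 * N) = Ioc 0 N ∪ Ioc N (2 * N) := by
    ext a; simp only [Finset.mem_Ioc, Finset.mem_union]; omega
  rw [hu, Finset.sum_union hd]
  ring

lemma mem_PP {P p : ℕ} : p ∈ PP P ↔ (P < p ∧ p ≤ 2 * P) ∧ p.Prime := by
  unfold PP; rw [Finset.mem_filter, Finset.mem_Ioc]

lemma card_PP_le (P : ℕ) : (PP P).card ≤ P := by
  unfold PP
  refine le_trans (Finset.card_filter_le _ _) ?_
  rw [Nat.card_Ioc]; omega

end Pool.Agent.P4f18dfQ
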