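import Mathlib

/-!
# Duality

Module QT.Dual.  `duality`: put `T i = ∑_n c n * A i n` and `Z = ∑_i (T i)^2`.  Then
`Z = ∑_n c n * (∑_i T i * A i n) ≤ √(∑ c^2) * √(∑_n (∑_i T i A i n)^2) ≤ √(∑ c^2) * √(Δ Z)`
(Cauchy–Schwarz; in squared form `Z^2 ≤ (∑ c^2) * (Δ * Z)`), so `Z ≤ Δ ∑ c^2` (`Z ≥ 0`; if `Z = 0`
trivial).
`duality_of_near_orth`: for real `b`, `∑_n (∑_i b i A i n)^2 = ∑_{i,j} b i b j ∑_n A i n A j n
≤ N₁ ∑ b^2 + E (∑ |b i|)^2 ≤ (N₁ + E * s.card) ∑ b^2`.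
-/

set_option autoImplicit false

namespace Pool.Agent.P4f18dfQ

open Finset

namespace Dual

end Dual

theorem duality {ι κ : Type*} (s : Finset ι) (t : Finset κ) (A : ι → κ → ℝ) (Δ : ℝ) (hΔ : 0 ≤ Δ)
    (h : ∀ b : ι → ℝ, ∑ n ∈ t, (∑ i ∈ s, b i * A i n) ^ 2 ≤ Δ * ∑ i ∈ s, b i ^ 2) (c : κ → ℝ) :
    ∑ i ∈ s, (∑ n ∈ t, c n * A i n) ^ 2 ≤ Δ * ∑ n ∈ t, c n ^ 2 := by
  set T : ι → ℝ := fun i => ∑ n ∈ t, c n * A i n with hT
  set Z : ℝ := ∑ i ∈ s, (T i) ^ 2 with hZ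
  have hZ0 : 0 ≤ Z := Finset.sum_nonneg fun i _ => sq_nonneg _
  have hC0 : 0 ≤ ∑ n ∈ t, c n ^ 2 := Finset.sum_nonneg fun i _ => sq_nonneg _
  have e : Z = ∑ n ∈ t, c n * (∑ i ∈ s, T i * A i n) := by
    rw [hZ]
    simp only [Finset.mul_sum]
    rw [Finset.sum_comm]
    refine Finset.sum_congr rfl fun i _ => ?_
    rw [sq]
    conv_lhs => rw [hT]
    simp only
    rw [Finset.mul_sum]
    refine Finset.sum_congr rfl fun n _ => ?_
    ring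
  have h1 : Z ^ 2 ≤ (∑ n ∈ t, c n ^ 2) * (Δ * Z) := by
    calc Z ^ 2 = (∑ n ∈ t, c n * (∑ i ∈ s, T i * A i n)) ^ 2 := by rw [← e]
      _ ≤ (∑ n ∈ t, c n ^ 2) * ∑ n ∈ t, (∑ i ∈ s, T i * A i n) ^ 2 :=
          Finset.sum_mul_sq_le_sq_mul_sq _ _ _
      _ ≤ (∑ n ∈ t, c n ^ 2) * (Δ * Z) := mul_le_mul_of_nonneg_left (h T) hC0
  show Z ≤ Δ * ∑ n ∈ t, c n ^ 2
  rcases hZ0.eq_or_lt with h0 | h0
  · rw [← h0]
    positivity
  · by_contra hcon
    push Not at hcon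
    have := mul_lt_mul_of_pos_right hcon h0
    nlinarith

theorem duality_of_near_orth {ι κ : Type*} [DecidableEq ι] (s : Finset ι) (t : Finset κ)
    (A : ι → κ → ℝ) (N₁ E : ℝ) (hN₁ : 0 ≤ N₁) (hE : 0 ≤ E)
    (h1 : ∀ i ∈ s, ∑ n ∈ t, (A i n) ^ 2 ≤ N₁)
    (h2 : ∀ i ∈ s, ∀ j ∈ s, i ≠ j → |∑ n ∈ t, A i n * A j n| ≤ E) (c : κ → ℝ) :
    ∑ i ∈ s, (∑ n ∈ t, c n * A i n) ^ 2 ≤ (N₁ + E * s.card) * ∑ n ∈ t, c n ^ 2 := by
  refine duality s t A (N₁ + E * s.card) (by positivity) (fun b => ?_) c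
  have e : ∑ n ∈ t, (∑ i ∈ s, b i * A i n) ^ 2 =
      ∑ i ∈ s, ∑ j ∈ s, b i * b j * ∑ n ∈ t, A i n * A j n := by
    simp only [Finset.mul_sum]
    have h3 : ∀ n ∈ t, (∑ i ∈ s, b i * A i n) ^ 2 =
        ∑ i ∈ s, ∑ j ∈ s, b i * b j * (A i n * A j n) := by
      intro n _
      rw [sq, Finset.sum_mul_sum]
      refine Finset.sum_congr rfl fun i _ => Finset.sum_congr rfl fun j _ => ?_
      ring
    rw [Finset.sum_congr rfl h3, Finset.sum_comm]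
    refine Finset.sum_congr rfl fun i _ => ?_
    rw [Finset.sum_comm]
  have h3 : ∀ i ∈ s, ∀ j ∈ s, b i * b j * ∑ n ∈ t, A i n * A j n ≤
      (if i = j then b i ^ 2 * N₁ else 0) + E * (|b i| * |b j|) := by
    intro i hi j hj
    by_cases hij : i = j
    · subst hij
      rw [if_pos rfl]
      have h4 : ∑ n ∈ t, A i n * A i n ≤ N₁ := by
        refine le_trans (le_of_eq ?_) (h1 i hi)
        exact Finset.sum_congr rfl fun n _ => by ring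
      have h5 : b i * b i * ∑ n ∈ t, A i n * A i n ≤ b i * b i * N₁ :=
        mul_le_mul_of_nonneg_left h4 (mul_self_nonneg _)
      have h6 : 0 ≤ E * (|b i| * |b i|) := by positivity
      nlinarith
    · rw [if_neg hij, zero_add]
      calc b i * b j * ∑ n ∈ t, A i n * A j n ≤ |b i * b j * ∑ n ∈ t, A i n * A j n| :=
            le_abs_self _
        _ = |b i| * |b j| * |∑ n ∈ t, A i n * A j n| := by rw [abs_mul, abs_mul]
        _ ≤ |b i| * |b j| * E := by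
            gcongr
            exact h2 i hi j hj hij
        _ = E * (|b i| * |b j|) := by ring
  rw [e]
  calc ∑ i ∈ s, ∑ j ∈ s, b i * b j * ∑ n ∈ t, A i n * A j n
      ≤ ∑ i ∈ s, ∑ j ∈ s, ((if i = j then b i ^ 2 * N₁ else 0) + E * (|b i| * |b j|)) :=
        Finset.sum_le_sum fun i hi => Finset.sum_le_sum fun j hj => h3 i hi j hj
    _ = N₁ * ∑ i ∈ s, b i ^ 2 + E * (∑ i ∈ s, |b i|) ^ 2 := by
        simp only [Finset.sum_add_distrib]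
        congr 1
        · rw [Finset.mul_sum]
          refine Finset.sum_congr rfl fun i hi => ?_
          rw [Finset.sum_ite_eq, if_pos hi]
          ring
        · rw [sq, Finset.sum_mul_sum, Finset.mul_sum]
          refine Finset.sum_congr rfl fun i _ => ?_
          rw [Finset.mul_sum]
    _ ≤ N₁ * ∑ i ∈ s, b i ^ 2 + E * (s.card * ∑ i ∈ s, |b i| ^ 2) := by
        gcongr
        exact sq_sum_le_card_mul_sum_sq
    _ = (N₁ + E * s.card) * ∑ i ∈ s, b i ^ 2 := by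
        simp only [sq_abs]
        ring

end Pool.Agent.P4f18dfQ
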