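import Pool.Agent.Lib.P4f18dfQ.Op

/-!
# Existence of the Stepanov coefficients (linear algebra)

Module QT.Exists.  The unknowns form the space
`V = (Fin J → degreeLT (ZMod p) D) × (Fin J → degreeLT (ZMod p) D)` of dimension `2 * J * D`; the
map to `∏_{k < l} degreeLT (ZMod p) (D + J + k (m-1))` sending `(r, s)` to
`∑_j ((th f)^[k] (r j) + C a * (bo c f)^[k] (s j)) * X ^ j` is linear (`th f` and `bo c f` are
linear maps; it may be convenient to define linear-map versions and to iterate them with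
`Module.End` powers), it has values in these spaces by the degree bounds of `Op.lean`
(`natDegree ≤ (D - 1) + k (m - 1) + (J - 1)`), and the target has dimension
`∑_{k < l} (D + J + k (m-1)) < 2 J D`.  Use `LinearMap.ker_ne_bot_of_finrank_lt` (or
`LinearMap.exists_ne_zero_of_...`), and extend by `0` for `j ≥ J`.
Alternatively work with coefficient vectors and
`Matrix`/`LinearMap` on `Fin _ → ZMod p`, or with a counting argument (pigeonhole): the number of
choices of `(r, s)` is `p ^ (2 J D)` and the number of values is at most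
`p ^ (∑_{k<l} (D + J + k (m-1)))`, so two choices have the same image; take the difference.
-/

set_option autoImplicit false

namespace Pool.Agent.P4f18dfQ

open Polynomial Finset

namespace Exists

/-- `th f` as a linear map -/
noncomputable def thL {p : ℕ} [Fact p.Prime] (f : (ZMod p)[X]) :
    (ZMod p)[X] →ₗ[ZMod p] (ZMod p)[X] where
  toFun := th f
  map_add' x y := by simp only [th, derivative_add, mul_add]
  map_smul' a x := by simp only [th, derivative_smul, mul_smul_comm, RingHom.id_apply]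

/-- `bo c f` as a linear map -/
noncomputable def boL {p : ℕ} [Fact p.Prime] (c : ZMod p) (f : (ZMod p)[X]) :
    (ZMod p)[X] →ₗ[ZMod p] (ZMod p)[X] where
  toFun := bo c f
  map_add' x y := by simp only [bo, derivative_add, mul_add]; ring
  map_smul' a x := by
    simp only [bo, derivative_smul, mul_smul_comm, RingHom.id_apply, smul_add]

theorem thL_pow {p : ℕ} [Fact p.Prime] (f x : (ZMod p)[X]) (k : ℕ) :
    ((thL f) ^ k) x = (th f)^[k] x := by
  rw [Module.End.pow_apply]; rfl

theorem boL_pow {p : ℕ} [Fact p.Prime] (c : ZMod p) (f x : (ZMod p)[X]) (k : ℕ) :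
    ((boL c f) ^ k) x = (bo c f)^[k] x := by
  rw [Module.End.pow_apply]; rfl

/-- vectors to polynomials -/
noncomputable def emb (p : ℕ) [Fact p.Prime] (D : ℕ) :
    (Fin D → ZMod p) →ₗ[ZMod p] (ZMod p)[X] :=
  (degreeLT (ZMod p) D).subtype ∘ₗ (degreeLTEquiv (ZMod p) D).symm.toLinearMap

theorem emb_degree {p : ℕ} [Fact p.Prime] {D : ℕ} (v : Fin D → ZMod p) :
    (emb p D v).degree < D :=
  mem_degreeLT.1 ((degreeLTEquiv (ZMod p) D).symm v).2

theorem emb_inj {p : ℕ} [Fact p.Prime] {D : ℕ} {v : Fin D → ZMod p} (h : emb p D v = 0) :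
    v = 0 := by
  have h1 : (degreeLTEquiv (ZMod p) D).symm v = 0 := Subtype.ext h
  exact (LinearEquiv.map_eq_zero_iff _).1 h1

/-- the polynomial at level `k` -/
noncomputable def pm {p : ℕ} [Fact p.Prime] (f : (ZMod p)[X]) (c a : ZMod p) (D J k : ℕ) :
    ((Fin J → Fin D → ZMod p) × (Fin J → Fin D → ZMod p)) →ₗ[ZMod p] (ZMod p)[X] :=
  ∑ j : Fin J, (LinearMap.mulRight (ZMod p) (X ^ (j : ℕ))) ∘ₗ
    (((thL f) ^ k) ∘ₗ (emb p D) ∘ₗ (LinearMap.proj j) ∘ₗ (LinearMap.fst _ _ _) +
      a • (((boL c f) ^ k) ∘ₗ (emb p D) ∘ₗ (LinearMap.proj j) ∘ₗ (LinearMap.snd _ _ _)))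

theorem pm_apply {p : ℕ} [Fact p.Prime] (f : (ZMod p)[X]) (c a : ZMod p) (D J k : ℕ)
    (v : (Fin J → Fin D → ZMod p) × (Fin J → Fin D → ZMod p)) :
    pm f c a D J k v = ∑ j : Fin J, ((th f)^[k] (emb p D (v.1 j)) +
      C a * (bo c f)^[k] (emb p D (v.2 j))) * X ^ (j : ℕ) := by
  unfold pm
  rw [LinearMap.sum_apply]
  refine Finset.sum_congr rfl ?_
  intro j _
  simp only [LinearMap.comp_apply, LinearMap.add_apply, LinearMap.smul_apply,
    LinearMap.mulRight_apply, LinearMap.proj_apply, LinearMap.fst_apply, LinearMap.snd_apply,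
    thL_pow, boL_pow, smul_eq_C_mul]

/-- the whole system -/
noncomputable def sys {p : ℕ} [Fact p.Prime] (f : (ZMod p)[X]) (c a : ZMod p) (m D J l : ℕ) :
    ((Fin J → Fin D → ZMod p) × (Fin J → Fin D → ZMod p)) →ₗ[ZMod p]
      ((k : Fin l) → Fin (D + J + k * (m - 1)) → ZMod p) :=
  LinearMap.pi fun k => LinearMap.pi fun i => (lcoeff (ZMod p) (i : ℕ)) ∘ₗ (pm f c a D J k)

theorem exists_ker {p : ℕ} [Fact p.Prime] (f : (ZMod p)[X]) (c a : ZMod p) (m D J l : ℕ)
    (hcount : ∑ k ∈ range l, (D + J + k * (m - 1)) < 2 * J * D) :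
    ∃ v : (Fin J → Fin D → ZMod p) × (Fin J → Fin D → ZMod p), v ≠ 0 ∧
      ∀ k < l, ∀ i < D + J + k * (m - 1), (pm f c a D J k v).coeff i = 0 := by
  have h1 : Module.finrank (ZMod p) ((k : Fin l) → Fin (D + J + k * (m - 1)) → ZMod p) <
      Module.finrank (ZMod p) ((Fin J → Fin D → ZMod p) × (Fin J → Fin D → ZMod p)) := by
    rw [Module.finrank_pi_fintype, Module.finrank_prod, Module.finrank_pi_fintype]
    simp only [Module.finrank_fintype_fun_eq_card, Fintype.card_fin, Finset.sum_const,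
      Finset.card_univ, smul_eq_mul]
    rw [← Finset.sum_range (fun k => D + J + k * (m - 1))]
    calc _ < 2 * J * D := hcount
      _ = J * D + J * D := by ring
  have h2 := LinearMap.ker_ne_bot_of_finrank_lt (f := sys f c a m D J l) h1
  obtain ⟨v, hv, hv0⟩ := Submodule.exists_mem_ne_zero_of_ne_bot h2
  refine ⟨v, hv0, ?_⟩
  intro k hk i hi
  have h3 := congrFun (congrFun (LinearMap.mem_ker.1 hv) ⟨k, hk⟩) ⟨i, hi⟩
  exact h3

end Exists

theorem exists_coeffs {p : ℕ} [Fact p.Prime] (f : (ZMod p)[X]) (c a : ZMod p) (m D J l : ℕ)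
    (hm : 1 ≤ m) (hf : f.natDegree ≤ m) (hD : 1 ≤ D) (hJ : 1 ≤ J)
    (hcount : ∑ k ∈ range l, (D + J + k * (m - 1)) < 2 * J * D) :
    ∃ r s : ℕ → (ZMod p)[X], (∀ j, (r j).degree < D) ∧ (∀ j, (s j).degree < D) ∧
      (∃ j < J, r j ≠ 0 ∨ s j ≠ 0) ∧
      ∀ k < l, ∑ j ∈ range J, ((th f)^[k] (r j) + C a * (bo c f)^[k] (s j)) * X ^ j = 0 := by
  obtain ⟨v, hv0, hv⟩ := Exists.exists_ker f c a m D J l hcount
  have hdeg : ∀ w : Fin D → ZMod p, (Exists.emb p D w).natDegree ≤ D - 1 := by
    intro w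
    have h1 := Exists.emb_degree w
    by_cases h0 : Exists.emb p D w = 0
    · rw [h0]; simp
    · have h2 := (natDegree_lt_iff_degree_lt h0).2 h1
      omega
  have hz : ∀ k < l, Exists.pm f c a D J k v = 0 := by
    intro k hk
    ext i
    rw [coeff_zero]
    by_cases hi : i < D + J + k * (m - 1)
    · exact hv k hk i hi
    · apply coeff_eq_zero_of_natDegree_lt
      refine lt_of_le_of_lt ?_ (lt_of_lt_of_le (Nat.lt_succ_of_le (le_refl
        (D - 1 + k * (m - 1) + (J - 1)))) (by omega))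
      rw [Exists.pm_apply]
      apply natDegree_sum_le_of_forall_le
      intro j _
      refine (natDegree_mul_le).trans ?_
      rw [natDegree_X_pow]
      have hj : (j : ℕ) ≤ J - 1 := by have := j.2; omega
      refine Nat.add_le_add ?_ hj
      refine (natDegree_add_le _ _).trans (max_le ?_ ?_)
      · exact natDegree_th_iter hm hf (hdeg _) k
      · exact (natDegree_C_mul_le _ _).trans (natDegree_bo_iter c hm hf (hdeg _) k)
  refine ⟨fun j => if h : j < J then Exists.emb p D (v.1 ⟨j, h⟩) else 0,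
    fun j => if h : j < J then Exists.emb p D (v.2 ⟨j, h⟩) else 0, ?_, ?_, ?_, ?_⟩
  · intro j
    dsimp only
    split_ifs with h
    · exact Exists.emb_degree _
    · rw [degree_zero]; exact WithBot.bot_lt_coe _
  · intro j
    dsimp only
    split_ifs with h
    · exact Exists.emb_degree _
    · rw [degree_zero]; exact WithBot.bot_lt_coe _
  · by_contra hno
    push Not at hno
    apply hv0
    have h1 : v.1 = 0 := by
      funext j
      have h2 := (hno j j.2).1
      simp only [j.2, dif_pos] at h2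
      exact Exists.emb_inj h2
    have h1' : v.2 = 0 := by
      funext j
      have h2 := (hno j j.2).2
      simp only [j.2, dif_pos] at h2
      exact Exists.emb_inj h2
    exact Prod.ext h1 h1'
  · intro k hk
    have h1 := hz k hk
    rw [Exists.pm_apply] at h1
    rw [Finset.sum_range, ← h1]
    refine Finset.sum_congr rfl ?_
    intro j _
    simp only [j.2, dif_pos]

end Pool.Agent.P4f18dfQ
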