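import Pool.Agent.Lib.P4f18dfQ.Defs

/-!
# From the integral over real `x` to the cumulative discrete mean squares

Module QT.IntM.  `Ms f x H` (in `Lib/P4f18df/Real.lean`) is the sum of `f n` over `|n - x| < H/2`.
Let `m = ⌊H⌋₊`, `θ = H - m ∈ [0, 1)`, `y = x - H/2`, `a = ⌊y⌋₊`, `u = y - a ∈ [0,1)`.  The integers in
`(y, y + H)` are: for `0 < u < 1 - θ`: `Ioc a (a + m)`; for `1 - θ < u < 1`: `Ioc a (a + m + 1)`; so
`∫_{a}^{a+1} (Ms f (y + H/2) H)^2 dy = (1 - θ) (Wd f m a)^2 + θ (Wd f (m+1) a)^2` (a.e. equality on the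
two subintervals).  With `A = ⌊X - H/2⌋₊`, `B = ⌊2X - H/2⌋₊` the integral over
`y ∈ [X - H/2, 2X - H/2]` is the sum over the full cells `a ∈ (A, B)` plus parts of the cells `A` and
`B`, each between `0` and `(m+1)^2`; so it differs from
`(1-θ) (Uk f m B - Uk f m A) + θ (Uk f (m+1) B - Uk f (m+1) A)` by at most `2 (m+1)^2 ≤ 8 H^2`.
Hypothesis `h`: this is `c2 ((1-θ) m + θ (m+1)) (B - A) = c2 H (B - A)` up to
`τ H (A + B) ≤ 3 τ H X`, and `|B - A - X| ≤ 1`.  Divide by `X`: total error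
`≤ 3 τ H + c2 H / X + 8 H^2 / X ≤ (3 τ + 10 H / X) H`.  (`integral_floor_real`,
`intervalIntegrable_of_bdd_real`, `measurable_floor_comp_real` in `Lib/P4f18df/Variance.lean` and the
lemmas of `Lib/P4f18df/Real.lean` may help; the measurability of `x ↦ Ms f x H` is in
`measurable_Zm` there: `Zm` agrees with `Ms` on the relevant range, see `Zm_eq`.)
-/

set_option autoImplicit false

namespace Pool.Agent.P4f18dfQ

open Finset Pool.Agent.P4f18df MeasureTheory

namespace IntM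

/-- A function that is constant on an open interval. -/
lemma const_piece {F : ℝ → ℝ} {p q c : ℝ} (hpq : p ≤ q) (h : ∀ y ∈ Set.Ioo p q, F y = c) :
    IntervalIntegrable F volume p q ∧ ∫ y in p..q, F y = (q - p) * c := by
  have h1 : IntegrableOn (fun _ : ℝ => c) (Set.Ioo p q) volume :=
    integrableOn_const (by simp) (by simp)
  constructor
  · rw [intervalIntegrable_iff_integrableOn_Ioo_of_le hpq]
    exact h1.congr_fun (fun y hy => (h y hy).symm) measurableSet_Ioo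
  · rw [intervalIntegral.integral_of_le hpq, MeasureTheory.integral_Ioc_eq_integral_Ioo,
      MeasureTheory.setIntegral_congr_fun measurableSet_Ioo h, MeasureTheory.setIntegral_const]
    simp [hpq]

/-- The short sum as a function of the left end point. -/
lemma Ms_eq_sum (f : ℕ → ℝ) {y H : ℝ} {a k : ℕ} (ha : (a : ℝ) < y) (ha' : y < a + 1)
    (h1 : (a : ℝ) + k < y + H) (h2 : y + H < a + k + 1) :
    Ms f (y + H / 2) H = Wd f k a := by
  unfold Ms Wd
  apply Finset.sum_congr _ (fun _ _ => rfl)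
  ext n
  rw [Finset.mem_filter, Finset.mem_range, Finset.mem_Ioc, abs_lt]
  constructor
  · rintro ⟨-, h3, h4⟩
    have c1 : (a : ℝ) < n := by linarith
    have c2 : (n : ℝ) < a + k + 1 := by linarith
    have d1 : a < n := by exact_mod_cast c1
    have d2 : n < a + k + 1 := by exact_mod_cast c2
    omega
  · rintro ⟨h3, h4⟩
    have c1 : (a : ℝ) + 1 ≤ n := by exact_mod_cast h3
    have c2 : (n : ℝ) ≤ a + k := by exact_mod_cast h4
    have hH : 0 < H := by
      have : (0 : ℝ) ≤ k := Nat.cast_nonneg k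
      by_contra hcon
      push Not at hcon
      linarith
    refine ⟨?_, by linarith, by linarith⟩
    have : (n : ℝ) ≤ y + H / 2 + H := by linarith
    have := Nat.le_floor this
    omega

lemma cell (f : ℕ → ℝ) {H : ℝ} (hH : 1 ≤ H) (a : ℕ) :
    IntervalIntegrable (fun y => (Ms f (y + H / 2) H) ^ 2) volume (a : ℝ) ((a + 1 : ℕ) : ℝ) ∧
      ∫ y in (a : ℝ)..((a + 1 : ℕ) : ℝ), (Ms f (y + H / 2) H) ^ 2 =
        (1 - (H - ⌊H⌋₊)) * (Wd f ⌊H⌋₊ a) ^ 2 + (H - ⌊H⌋₊) * (Wd f (⌊H⌋₊ + 1) a) ^ 2 := by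
  set m := ⌊H⌋₊ with hm
  have b1 : (m : ℝ) ≤ H := Nat.floor_le (by linarith)
  have b2 : H < m + 1 := Nat.lt_floor_add_one _
  set θ := H - m with hθ
  have t0 : 0 ≤ θ := by linarith
  have t1 : θ < 1 := by linarith
  have hcast : ((a + 1 : ℕ) : ℝ) = a + 1 := by push_cast; ring
  rw [hcast]
  obtain ⟨i1, e1⟩ := const_piece (F := fun y => (Ms f (y + H / 2) H) ^ 2)
    (p := (a : ℝ)) (q := a + (1 - θ)) (c := (Wd f m a) ^ 2) (by linarith) (by
      intro y hy
      have := Ms_eq_sum f (y := y) (H := H) (a := a) (k := m) hy.1 (by linarith [hy.2])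
        (by linarith [hy.1]) (by linarith [hy.2])
      simp only [this])
  obtain ⟨i2, e2⟩ := const_piece (F := fun y => (Ms f (y + H / 2) H) ^ 2)
    (p := a + (1 - θ)) (q := (a : ℝ) + 1) (c := (Wd f (m + 1) a) ^ 2) (by linarith) (by
      intro y hy
      have := Ms_eq_sum f (y := y) (H := H) (a := a) (k := m + 1) (by linarith [hy.1]) hy.2
        (by push_cast; linarith [hy.1]) (by push_cast; linarith [hy.2])
      simp only [this])
  refine ⟨i1.trans i2, ?_⟩
  rw [← intervalIntegral.integral_add_adjacent_intervals i1 i2, e1, e2]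
  ring

lemma integrable_all (f : ℕ → ℝ) {H : ℝ} (hH : 1 ≤ H) {p q : ℝ} (hp : 0 ≤ p) (hpq : p ≤ q) :
    IntervalIntegrable (fun y => (Ms f (y + H / 2) H) ^ 2) volume p q := by
  obtain ⟨N, hN⟩ := exists_nat_ge q
  have h1 : IntervalIntegrable (fun y => (Ms f (y + H / 2) H) ^ 2) volume ((0 : ℕ) : ℝ)
      (N : ℝ) := by
    have := IntervalIntegrable.trans_iterate_Ico (a := fun k : ℕ => (k : ℝ))
      (f := fun y => (Ms f (y + H / 2) H) ^ 2) (μ := volume) (Nat.zero_le N)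
      (fun k _ => (cell f hH k).1)
    exact this
  refine h1.mono_set ?_
  rw [Set.uIcc_of_le hpq, Set.uIcc_of_le (by simp)]
  intro y hy
  exact ⟨by simpa using hp.trans hy.1, hy.2.trans hN⟩

lemma abs_Wd_le' {f : ℕ → ℝ} (hf : ∀ n, |f n| ≤ 1) (h a : ℕ) : |Wd f h a| ≤ h := by
  unfold Wd
  refine le_trans (Finset.abs_sum_le_sum_abs _ _) ?_
  refine le_trans (Finset.sum_le_sum (fun n _ => hf n)) ?_
  simp

lemma part_le {f : ℕ → ℝ} (hf : ∀ n, |f n| ≤ 1) {H : ℝ} (hH : 1 ≤ H) {p : ℝ} {a : ℕ}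
    (h1 : (a : ℝ) ≤ p) (h2 : p ≤ a + 1) :
    0 ≤ ∫ y in p..((a + 1 : ℕ) : ℝ), (Ms f (y + H / 2) H) ^ 2 ∧
      ∫ y in p..((a + 1 : ℕ) : ℝ), (Ms f (y + H / 2) H) ^ 2 ≤ 4 * H ^ 2 := by
  have ha0 : (0 : ℝ) ≤ a := Nat.cast_nonneg a
  have hcast : ((a + 1 : ℕ) : ℝ) = a + 1 := by push_cast; ring
  constructor
  · exact intervalIntegral.integral_nonneg (by rw [hcast]; exact h2) fun y _ => sq_nonneg _
  · have h3 : ∫ y in p..((a + 1 : ℕ) : ℝ), (Ms f (y + H / 2) H) ^ 2 ≤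
        ∫ y in (a : ℝ)..((a + 1 : ℕ) : ℝ), (Ms f (y + H / 2) H) ^ 2 := by
      rw [← intervalIntegral.integral_add_adjacent_intervals
        (integrable_all f hH ha0 h1) (integrable_all f hH (ha0.trans h1) (by rw [hcast]; exact h2))]
      have : 0 ≤ ∫ y in (a : ℝ)..p, (Ms f (y + H / 2) H) ^ 2 :=
        intervalIntegral.integral_nonneg h1 fun y _ => sq_nonneg _
      linarith
    refine h3.trans ?_
    rw [(cell f hH a).2]
    set m := ⌊H⌋₊ with hm
    have b1 : (m : ℝ) ≤ H := Nat.floor_le (by linarith)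
    have b2 : H < m + 1 := Nat.lt_floor_add_one _
    have m0 : (0 : ℝ) ≤ m := Nat.cast_nonneg m
    have w1 : (Wd f m a) ^ 2 ≤ (2 * H) ^ 2 := by
      rw [← sq_abs]
      exact pow_le_pow_left₀ (abs_nonneg _) ((abs_Wd_le' hf _ _).trans (by linarith)) 2
    have w2 : (Wd f (m + 1) a) ^ 2 ≤ (2 * H) ^ 2 := by
      rw [← sq_abs]
      refine pow_le_pow_left₀ (abs_nonneg _) ((abs_Wd_le' hf _ _).trans ?_) 2
      push_cast
      linarith
    have t0 : 0 ≤ H - m := by linarith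
    have t1 : 0 ≤ 1 - (H - m) := by linarith
    calc _ ≤ (1 - (H - m)) * (2 * H) ^ 2 + (H - m) * (2 * H) ^ 2 := by gcongr
      _ = 4 * H ^ 2 := by ring

lemma Uk_sub (f : ℕ → ℝ) (m : ℕ) {A B : ℕ} (hAB : A ≤ B) :
    Uk f m B - Uk f m A = ∑ a ∈ Ioc A B, (Wd f m a) ^ 2 := by
  unfold Uk
  rw [← Finset.sum_Ioc_consecutive _ (Nat.zero_le A) hAB]
  ring

end IntM

open IntM

theorem integral_Ms_sq {f : ℕ → ℝ} (hf : ∀ n, |f n| ≤ 1) {X H τ : ℝ} (hH : 1 ≤ H) (hHX : H ≤ X)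
    (hτ : 0 ≤ τ)
    (h : ∀ m : ℕ, (m = ⌊H⌋₊ ∨ m = ⌊H⌋₊ + 1) → ∀ N : ℕ, (N = ⌊X - H / 2⌋₊ ∨ N = ⌊2 * X - H / 2⌋₊) →
      |Uk f m N - c2 * m * N| ≤ τ * m * N) :
    |(∫ x in X..(2 * X), (Ms f x H) ^ 2) / X - c2 * H| ≤ (3 * τ + 10 * H / X) * H := by
  set F : ℝ → ℝ := fun y => (Ms f (y + H / 2) H) ^ 2 with hF
  set p := X - H / 2 with hp
  set q := 2 * X - H / 2 with hq
  set A := ⌊p⌋₊ with hA
  set B := ⌊q⌋₊ with hB
  set m := ⌊H⌋₊ with hm
  have hX0 : 0 < X := by linarith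
  have p0 : 0 ≤ p := by linarith
  have pq : p ≤ q := by linarith
  have q0 : 0 ≤ q := by linarith
  have a1 : (A : ℝ) ≤ p := Nat.floor_le p0
  have a2 : p < A + 1 := Nat.lt_floor_add_one _
  have b1 : (B : ℝ) ≤ q := Nat.floor_le q0
  have b2 : q < B + 1 := Nat.lt_floor_add_one _
  have AB : A ≤ B := Nat.floor_le_floor pq
  have m1 : (m : ℝ) ≤ H := Nat.floor_le (by linarith)
  have m2 : H < m + 1 := Nat.lt_floor_add_one _
  have m0 : (0 : ℝ) ≤ m := Nat.cast_nonneg m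
  have hA0 : (0 : ℝ) ≤ A := Nat.cast_nonneg A
  have hB0 : (0 : ℝ) ≤ B := Nat.cast_nonneg B
  have hAc : ((A + 1 : ℕ) : ℝ) = A + 1 := by push_cast; ring
  have hBc : ((B + 1 : ℕ) : ℝ) = B + 1 := by push_cast; ring
  have hABr : ((A + 1 : ℕ) : ℝ) ≤ ((B + 1 : ℕ) : ℝ) := by exact_mod_cast (by omega)
  -- substitution
  have e1 : (∫ x in X..(2 * X), (Ms f x H) ^ 2) = ∫ y in p..q, F y := by
    have h1 := intervalIntegral.integral_comp_sub_right (a := X) (b := 2 * X) F (H / 2)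
    simp only [hF, sub_add_cancel] at h1
    exact h1
  -- splitting
  have i1 : IntervalIntegrable F volume p ((A + 1 : ℕ) : ℝ) :=
    integrable_all f hH p0 (by rw [hAc]; exact a2.le)
  have i2 : IntervalIntegrable F volume ((A + 1 : ℕ) : ℝ) ((B + 1 : ℕ) : ℝ) :=
    integrable_all f hH (Nat.cast_nonneg _) hABr
  have i3 : IntervalIntegrable F volume p q := integrable_all f hH p0 pq
  have i4 : IntervalIntegrable F volume q ((B + 1 : ℕ) : ℝ) :=
    integrable_all f hH q0 (by rw [hBc]; exact b2.le)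
  have e2 : (∫ y in p..q, F y) + ∫ y in q..((B + 1 : ℕ) : ℝ), F y =
      (∫ y in p..((A + 1 : ℕ) : ℝ), F y) + ∫ y in ((A + 1 : ℕ) : ℝ)..((B + 1 : ℕ) : ℝ), F y := by
    rw [intervalIntegral.integral_add_adjacent_intervals i3 i4,
      intervalIntegral.integral_add_adjacent_intervals i1 i2]
  have e3 : ∫ y in ((A + 1 : ℕ) : ℝ)..((B + 1 : ℕ) : ℝ), F y =
      (1 - (H - m)) * (Uk f m B - Uk f m A) + (H - m) * (Uk f (m + 1) B - Uk f (m + 1) A) := by
    have h1 := intervalIntegral.sum_integral_adjacent_intervals_Ico (f := F) (μ := volume)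
      (a := fun k : ℕ => (k : ℝ)) (m := A + 1) (n := B + 1) (by omega)
      (fun k _ => (cell f hH k).1)
    rw [← h1, Uk_sub f m AB, Uk_sub f (m + 1) AB, Finset.mul_sum, Finset.mul_sum,
      ← Finset.sum_add_distrib]
    have h2 : Ico (A + 1) (B + 1) = Ioc A B := by
      ext n; simp only [Finset.mem_Ioc, Finset.mem_Ico]; omega
    rw [h2]
    exact Finset.sum_congr rfl fun a _ => (cell f hH a).2
  obtain ⟨u1, u2⟩ := part_le hf hH a1 a2.le
  obtain ⟨v1, v2⟩ := part_le hf hH b1 b2.le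
  -- the hypotheses
  have h1 := h m (Or.inl rfl) A (Or.inl rfl)
  have h2 := h m (Or.inl rfl) B (Or.inr rfl)
  have h3 := h (m + 1) (Or.inr rfl) A (Or.inl rfl)
  have h4 := h (m + 1) (Or.inr rfl) B (Or.inr rfl)
  rw [abs_le] at h1 h2 h3 h4
  push_cast at h3 h4
  set θ := H - (m : ℝ) with hθ
  have t0 : 0 ≤ θ := by linarith
  have t1 : 0 ≤ 1 - θ := by linarith
  have hmH : (m : ℝ) + θ = H := by linarith
  set U1 := Uk f m A
  set U2 := Uk f m B
  set U3 := Uk f (m + 1) A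
  set U4 := Uk f (m + 1) B
  have k1 : (1 - θ) * (U2 - U1) + θ * (U4 - U3) - c2 * H * (B - A) ≤ τ * H * (A + B) := by
    have g1 := mul_le_mul_of_nonneg_left h2.2 t1
    have g2 := mul_le_mul_of_nonneg_left h1.1 t1
    have g3 := mul_le_mul_of_nonneg_left h4.2 t0
    have g4 := mul_le_mul_of_nonneg_left h3.1 t0
    have : c2 * H * (B - A) = c2 * (m + θ) * (B - A) := by rw [hmH]
    have e : τ * H * (A + B) = τ * (m + θ) * (A + B) := by rw [hmH]
    rw [this, e]
    linear_combination g1 + g2 + g3 + g4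
  have k2 : -(τ * H * (A + B)) ≤ (1 - θ) * (U2 - U1) + θ * (U4 - U3) - c2 * H * (B - A) := by
    have g1 := mul_le_mul_of_nonneg_left h2.1 t1
    have g2 := mul_le_mul_of_nonneg_left h1.2 t1
    have g3 := mul_le_mul_of_nonneg_left h4.1 t0
    have g4 := mul_le_mul_of_nonneg_left h3.2 t0
    have : c2 * H * (B - A) = c2 * (m + θ) * (B - A) := by rw [hmH]
    have e : τ * H * (A + B) = τ * (m + θ) * (A + B) := by rw [hmH]
    rw [this, e]
    linear_combination g1 + g2 + g3 + g4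
  have k3 : τ * H * (A + B) ≤ 3 * τ * H * X := by
    have : (A : ℝ) + B ≤ 3 * X := by linarith
    have h5 : 0 ≤ τ * H := by positivity
    linear_combination mul_le_mul_of_nonneg_left this h5
  have c0 := c2_pos
  have c1 := c2_le
  have k4 : c2 * H * (B - A) - c2 * H * X ≤ H := by
    have h5 : (B : ℝ) - A - X ≤ 1 := by linarith
    have h6 : 0 ≤ c2 * H := by positivity
    have h7 : c2 * H ≤ H := mul_le_of_le_one_left (by linarith) c1
    linear_combination mul_le_mul_of_nonneg_left h5 h6 + h7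
  have k5 : -H ≤ c2 * H * (B - A) - c2 * H * X := by
    have h5 : -1 ≤ (B : ℝ) - A - X := by linarith
    have h6 : 0 ≤ c2 * H := by positivity
    have h7 : c2 * H ≤ H := mul_le_of_le_one_left (by linarith) c1
    linear_combination mul_le_mul_of_nonneg_left h5 h6 + h7
  have hHH : H ≤ H ^ 2 := by nlinarith
  rw [e1]
  have key : |(∫ y in p..q, F y) - c2 * H * X| ≤ 3 * τ * H * X + 10 * H ^ 2 := by
    have : (∫ y in p..q, F y) = (1 - θ) * (U2 - U1) + θ * (U4 - U3) +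
        (∫ y in p..((A + 1 : ℕ) : ℝ), F y) - ∫ y in q..((B + 1 : ℕ) : ℝ), F y := by
      rw [e3] at e2
      linarith
    rw [this, abs_le]
    constructor
    · linear_combination k2 + k3 + k5 + u1 + v2 + hHH + 5 * sq_nonneg H
    · linear_combination k1 + k3 + k4 + u2 + v1 + hHH + 5 * sq_nonneg H
  have e4 : (∫ y in p..q, F y) / X - c2 * H = ((∫ y in p..q, F y) - c2 * H * X) / X := by
    field_simp
  rw [e4, abs_div, abs_of_pos hX0, div_le_iff₀ hX0]
  refine key.trans (le_of_eq ?_)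
  field_simp

end Pool.Agent.P4f18dfQ
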