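import Pool.Agent.Lib.P4f18dfQ.BadV
import Pool.Agent.Lib.P4f18dfQ.BadL
import Pool.Agent.Lib.P4f18dfQ.IntM
import Pool.Agent.Lib.P4f18dfQ.Swap
import Pool.Agent.Lib.P4f18dfQ.Quant

/-!
# Assembly
-/

set_option autoImplicit false

namespace Pool.Agent.P4f18dfQ

open Finset Filter MeasureTheory ProbabilityTheory Pool.Agent.P4f18df

/-- the final statement in terms of `Ms` and `fm` -/
theorem main (α η δ : ℝ) (hα : 0 < α) (hα' : α < 1 / 2) (hη : 0 < η) (hδ : 0 < δ) :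
    ∃ c H₀ : ℝ, ∃ P₀ : ℕ, 0 < c ∧ ∀ P : ℕ, P₀ ≤ P →
      ∃ B : Finset ℕ, (B.card : ℝ) ≤ (P : ℝ) ^ (2 * α + η) ∧
        ∀ p : ℕ, p.Prime → P < p → p ≤ 2 * P → p ∉ B →
          ∀ X : ℝ, (P : ℝ) ^ 3 ≤ X → X ≤ Real.exp ((P : ℝ) ^ c) →
            (∀ H : ℝ, 1 ≤ H → H ≤ (P : ℝ) ^ α →
              |(∫ x in X..(2 * X), (Ms (fm p) x H) ^ 2) / X - H / (Real.pi ^ 2 / 6)| ≤
                (P : ℝ) ^ (-c) * H) ∧
            (∀ H t : ℝ, H₀ ≤ H → H ≤ (P : ℝ) ^ c →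
              |(volume {x : ℝ | x ∈ Set.Icc X (2 * X) ∧
                  Ms (fm p) x H / Real.sqrt (H / (Real.pi ^ 2 / 6)) ≤ t}).toReal / X -
                cdf (gaussianReal 0 1) t| ≤ δ) := by
  classical
  obtain ⟨K, hK1, hK⟩ := quant (δ / 2) (by positivity)
  obtain ⟨c₁, hc₁, hV⟩ := bad_var α η hα hα' hη
  obtain ⟨c₂, hc₂, hL⟩ := bad_law K hK1 η hη
  set c : ℝ := min (min c₁ c₂) (1 / 4) with hc
  have hc0 : 0 < c := by
    rw [hc]; exact lt_min (lt_min hc₁ hc₂) (by norm_num)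
  have hcc1 : c ≤ c₁ := le_trans (min_le_left _ _) (min_le_left _ _)
  have hcc2 : c ≤ c₂ := le_trans (min_le_left _ _) (min_le_right _ _)
  have hc4 : c ≤ 1 / 4 := min_le_right _ _
  obtain ⟨P₁, hP₁⟩ := hV c hc0 hcc1
  obtain ⟨P₂, hP₂⟩ := hL c hc0 hcc2
  -- large `P`
  have hcast : Tendsto (fun P : ℕ => (P : ℝ)) atTop atTop := tendsto_natCast_atTop_atTop
  have e1 : ∀ᶠ P : ℕ in atTop, (P : ℝ) ^ (-c) ≤ 1 / 6 :=
    (((tendsto_rpow_neg_atTop hc0).comp hcast).eventually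
      (gt_mem_nhds (by norm_num : (0:ℝ) < 1 / 6))).mono (fun _ h => le_of_lt h)
  have e2 : ∀ᶠ P : ℕ in atTop, (P : ℝ) ^ (-(1 / 4 : ℝ)) ≤ 1 / 44 :=
    (((tendsto_rpow_neg_atTop (by norm_num : (0:ℝ) < 1 / 4)).comp hcast).eventually
      (gt_mem_nhds (by norm_num : (0:ℝ) < 1 / 44))).mono (fun _ h => le_of_lt h)
  have e3 : ∀ᶠ P : ℕ in atTop, (P : ℝ) ^ (-(1 / 2 : ℝ)) ≤ δ / 6 :=
    (((tendsto_rpow_neg_atTop (by norm_num : (0:ℝ) < 1 / 2)).comp hcast).eventually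
      (gt_mem_nhds (by positivity : (0:ℝ) < δ / 6))).mono (fun _ h => le_of_lt h)
  obtain ⟨P₃, hP₃⟩ := eventually_atTop.1
    ((e1.and (e2.and e3)).and ((eventually_ge_atTop P₁).and
      ((eventually_ge_atTop P₂).and (eventually_ge_atTop 10))))
  refine ⟨c, K, P₃, hc0, ?_⟩
  intro P hP
  obtain ⟨⟨g1, g2, g3⟩, g4, g5, g6⟩ := hP₃ P hP
  have hPr : (10:ℝ) ≤ P := by exact_mod_cast g6
  have hP0 : (0:ℝ) < P := by linarith
  have hP1 : (1:ℝ) ≤ P := by linarith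
  obtain ⟨B₁, hB₁, hB₁'⟩ := hP₁ P g4
  obtain ⟨B₂, hB₂, hB₂'⟩ := hP₂ P g5
  refine ⟨B₁ ∪ B₂, ?_, ?_⟩
  · have h1 : ((B₁ ∪ B₂).card : ℝ) ≤ (B₁.card : ℝ) + B₂.card := by
      exact_mod_cast Finset.card_union_le B₁ B₂
    have h2 : (P : ℝ) ^ η ≤ (P : ℝ) ^ (2 * α + η) :=
      Real.rpow_le_rpow_of_exponent_le hP1 (by linarith)
    linarith
  intro p hp hpP hpP2 hpB X hX1 hX2
  rw [Finset.mem_union, not_or] at hpB
  have hpPP : p ∈ PP P := mem_PP.2 ⟨⟨hpP, hpP2⟩, hp⟩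
  have hpr : (P : ℝ) < p := by exact_mod_cast hpP
  have hpr2 : (p : ℝ) ≤ 2 * P := by exact_mod_cast hpP2
  have hp0 : (0:ℝ) < p := by linarith
  have hP3 : (100:ℝ) * P ≤ (P:ℝ) ^ 3 := by nlinarith [mul_nonneg hP0.le (by linarith : (0:ℝ) ≤ P - 10)]
  have hX0 : (0:ℝ) < X := by linarith
  have hpX : (p : ℝ) ≤ X := by linarith
  have hPc : (P : ℝ) ^ c ≤ P := by
    calc (P : ℝ) ^ c ≤ (P : ℝ) ^ (1:ℝ) := Real.rpow_le_rpow_of_exponent_le hP1 (by linarith)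
      _ = P := Real.rpow_one _
  have hPa : (P : ℝ) ^ α ≤ P := by
    calc (P : ℝ) ^ α ≤ (P : ℝ) ^ (1:ℝ) := Real.rpow_le_rpow_of_exponent_le hP1 (by linarith)
      _ = P := Real.rpow_one _
  constructor
  · intro H hH1 hH2
    have hHP : H ≤ P := le_trans hH2 hPa
    have hHp : H ≤ p := by linarith
    have hHX : H ≤ X := by linarith
    have hH0 : 0 < H := by linarith
    set τ : ℝ := (P : ℝ) ^ (-(2 * c)) with hτ
    have hτ0 : 0 ≤ τ := by rw [hτ]; positivity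
    have hint := integral_Ms_sq (f := fq p) (abs_fq_le p) hH1 hHX hτ0 (by
      intro m hm N hN
      have hfl1 : 1 ≤ ⌊H⌋₊ := Nat.le_floor (by exact_mod_cast hH1)
      have hm1 : 1 ≤ m := by rcases hm with h | h <;> omega
      have hfl2 : ((⌊H⌋₊ : ℕ) : ℝ) ≤ H := Nat.floor_le hH0.le
      have hm2 : (m : ℝ) ≤ 2 * (P : ℝ) ^ α := by
        rcases hm with h | h
        · rw [h]; linarith
        · rw [h]; push_cast; linarith
      have hN1 : (P : ℝ) ^ 3 / 3 ≤ N := by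
        rcases hN with h | h
        · have : X - H / 2 < ((⌊X - H / 2⌋₊ : ℕ) : ℝ) + 1 := Nat.lt_floor_add_one _
          rw [h]; linarith
        · have : 2 * X - H / 2 < ((⌊2 * X - H / 2⌋₊ : ℕ) : ℝ) + 1 := Nat.lt_floor_add_one _
          rw [h]; linarith
      have hN2 : (N : ℝ) ≤ 2 * Real.exp ((P : ℝ) ^ c) := by
        rcases hN with h | h
        · have : ((⌊X - H / 2⌋₊ : ℕ) : ℝ) ≤ X - H / 2 := Nat.floor_le (by linarith)
          rw [h]; linarith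
        · have : ((⌊2 * X - H / 2⌋₊ : ℕ) : ℝ) ≤ 2 * X - H / 2 := Nat.floor_le (by linarith)
          rw [h]; linarith
      exact hB₁' p hpPP hpB.1 m hm1 hm2 N hN1 hN2)
    have hsw := integral_swap hp hH1 hHp hpX
    have hc2 : c2 * H = H / (Real.pi ^ 2 / 6) := by
      unfold c2
      have : (Real.pi : ℝ) ≠ 0 := Real.pi_ne_zero
      field_simp
    rw [hc2] at hint
    set I₁ := ∫ x in X..(2 * X), (Ms (fm p) x H) ^ 2
    set I₂ := ∫ x in X..(2 * X), (Ms (fq p) x H) ^ 2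
    have k1 : |I₁ / X - I₂ / X| ≤ 12 * H / p * H := by
      rw [← sub_div, abs_div, abs_of_pos hX0, div_le_iff₀ hX0]
      refine le_trans hsw (le_of_eq ?_)
      ring
    have k2 : 12 * H / p ≤ 12 * (P:ℝ) ^ (-(1 / 2 : ℝ)) := by
      rw [div_le_iff₀ hp0]
      have a1 : H ≤ (P : ℝ) ^ (1 / 2 : ℝ) :=
        le_trans hH2 (Real.rpow_le_rpow_of_exponent_le hP1 (by linarith))
      have a2 : (P : ℝ) ^ (-(1 / 2 : ℝ)) * P = (P : ℝ) ^ (1 / 2 : ℝ) := by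
        rw [← Real.rpow_add_one hP0.ne']; norm_num
      have a3 : (P : ℝ) ^ (-(1 / 2 : ℝ)) * P ≤ (P : ℝ) ^ (-(1 / 2 : ℝ)) * p :=
        mul_le_mul_of_nonneg_left hpr.le (by positivity)
      nlinarith
    have k3 : 10 * H / X ≤ 10 * (P:ℝ) ^ (-(1 / 2 : ℝ)) := by
      rw [div_le_iff₀ hX0]
      have a1 : H ≤ (P : ℝ) ^ (1 / 2 : ℝ) :=
        le_trans hH2 (Real.rpow_le_rpow_of_exponent_le hP1 (by linarith))
      have a2 : (P : ℝ) ^ (-(1 / 2 : ℝ)) * P = (P : ℝ) ^ (1 / 2 : ℝ) := by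
        rw [← Real.rpow_add_one hP0.ne']; norm_num
      have a3 : (P : ℝ) ^ (-(1 / 2 : ℝ)) * P ≤ (P : ℝ) ^ (-(1 / 2 : ℝ)) * X :=
        mul_le_mul_of_nonneg_left (by linarith) (by positivity)
      nlinarith
    have k4 : (P:ℝ) ^ (-(1 / 2 : ℝ)) = (P:ℝ) ^ (-(1 / 4 : ℝ)) * (P:ℝ) ^ (-(1 / 4 : ℝ)) := by
      rw [← Real.rpow_add hP0]; norm_num
    have k5 : (P:ℝ) ^ (-(1 / 4 : ℝ)) ≤ (P:ℝ) ^ (-c) :=
      Real.rpow_le_rpow_of_exponent_le hP1 (by linarith)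
    have k6 : τ = (P:ℝ) ^ (-c) * (P:ℝ) ^ (-c) := by
      rw [hτ, ← Real.rpow_add hP0]; congr 1; ring
    have hPcpos : 0 < (P:ℝ) ^ (-c) := Real.rpow_pos_of_pos hP0 _
    have k7 : 3 * τ ≤ (P:ℝ) ^ (-c) / 2 := by
      rw [k6]; nlinarith
    have k8 : 22 * (P:ℝ) ^ (-(1 / 2 : ℝ)) ≤ (P:ℝ) ^ (-c) / 2 := by
      rw [k4]
      have : (P:ℝ) ^ (-(1 / 4 : ℝ)) * (P:ℝ) ^ (-(1 / 4 : ℝ)) ≤ 1 / 44 * (P:ℝ) ^ (-c) :=
        mul_le_mul g2 k5 (by positivity) (by norm_num)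
      linarith
    calc |I₁ / X - H / (Real.pi ^ 2 / 6)|
        = |(I₁ / X - I₂ / X) + (I₂ / X - H / (Real.pi ^ 2 / 6))| := by congr 1; ring
      _ ≤ |I₁ / X - I₂ / X| + |I₂ / X - H / (Real.pi ^ 2 / 6)| := abs_add_le _ _
      _ ≤ 12 * H / p * H + (3 * τ + 10 * H / X) * H := add_le_add k1 hint
      _ = (12 * H / p + 3 * τ + 10 * H / X) * H := by ring
      _ ≤ (P : ℝ) ^ (-c) * H := by
          apply mul_le_mul_of_nonneg_right _ hH0.le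
          linarith
  · intro H t hH1 hH2
    have hKr : (1:ℝ) ≤ K := by exact_mod_cast hK1
    have hH1' : 1 ≤ H := le_trans hKr hH1
    have hHP : H ≤ P := le_trans hH2 hPc
    have hHp : H ≤ p := by linarith
    have hHX : H ≤ Real.sqrt X := by
      apply Real.le_sqrt_of_sq_le
      have : H ^ 2 ≤ (P:ℝ) ^ 2 := pow_le_pow_left₀ (by linarith) hHP 2
      nlinarith
    have hfl1 : 1 ≤ ⌊H⌋₊ := Nat.le_floor (by exact_mod_cast hH1')
    have hfl2 : ((⌊H⌋₊ : ℕ) : ℝ) ≤ H := Nat.floor_le (by linarith)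
    have hNX : P ^ 3 ≤ ⌊X⌋₊ := Nat.le_floor (by push_cast; exact hX1)
    have hNX2 : ((⌊X⌋₊ : ℕ) : ℝ) ≤ X := Nat.floor_le hX0.le
    have hq := hK (fq p) (sgn_fq hp) X H hH1 hHX (fun k hk =>
      hB₂' p hpPP hpB.2 k hk ⌊H⌋₊ hfl1 (le_trans hfl2 hH2) ⌊X⌋₊ hNX (le_trans hNX2 hX2)) t
    have hsw := volume_swap hp hH1' hHp hpX (Real.sqrt (H / (Real.pi ^ 2 / 6))) t
    set V₁ := (volume {x : ℝ | x ∈ Set.Icc X (2 * X) ∧
                  Ms (fm p) x H / Real.sqrt (H / (Real.pi ^ 2 / 6)) ≤ t}).toReal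
    set V₂ := (volume {x : ℝ | x ∈ Set.Icc X (2 * X) ∧
                  Ms (fq p) x H / Real.sqrt (H / (Real.pi ^ 2 / 6)) ≤ t}).toReal
    have k1 : |V₁ / X - V₂ / X| ≤ 3 * H / p := by
      rw [← sub_div, abs_div, abs_of_pos hX0, div_le_iff₀ hX0]
      refine le_trans hsw (le_of_eq ?_)
      ring
    have k2 : 3 * H / p ≤ δ / 2 := by
      rw [div_le_iff₀ hp0]
      have a1 : H ≤ (P : ℝ) ^ (1 / 2 : ℝ) :=
        le_trans hH2 (Real.rpow_le_rpow_of_exponent_le hP1 (by linarith))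
      have a2 : (P : ℝ) ^ (-(1 / 2 : ℝ)) * P = (P : ℝ) ^ (1 / 2 : ℝ) := by
        rw [← Real.rpow_add_one hP0.ne']; norm_num
      have a3 : (P : ℝ) ^ (-(1 / 2 : ℝ)) * P ≤ δ / 6 * p :=
        mul_le_mul g3 hpr.le hP0.le (by positivity)
      nlinarith
    calc |V₁ / X - cdf (gaussianReal 0 1) t|
        = |(V₁ / X - V₂ / X) + (V₂ / X - cdf (gaussianReal 0 1) t)| := by congr 1; ring
      _ ≤ |V₁ / X - V₂ / X| + |V₂ / X - cdf (gaussianReal 0 1) t| := abs_add_le _ _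
      _ ≤ δ / 2 + δ / 2 := add_le_add (le_trans k1 k2) hq
      _ = δ := by ring

end Pool.Agent.P4f18dfQ
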