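import Mathlib

/-!
# The Stepanov polynomial is not zero

Module QT.NonZero.  Let `f = ∏ (X - C a)` over `a ∈ S`, `0 ∉ S`, `g = f ^ ((p-1)/2)`, so
`g ^ 2 * f = f ^ p` (`p` odd).  Suppose not all `r j, s j` (`j < J`) vanish and let `k` be the
least index with `(r k, s k) ≠ (0, 0)`.  Cancelling `X ^ (p k)` gives
`X ^ p ∣ r k + s k * g`, hence `X ^ p ∣ (r k)^2 * f - (s k)^2 * g^2 * f = (r k)^2 f - (s k)^2 f^p`.
Now `f ^ p = expand p f` (`ZMod.expand_card`) is congruent to `C (f.eval 0)` modulo `X ^ p`, so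
`X ^ p ∣ (r k)^2 * f - C (f.eval 0) * (s k)^2`, a polynomial of degree `< p` (`hD`); so
`(r k)^2 * f = C (f.eval 0) * (s k)^2`, with `f.eval 0 ≠ 0`.  If `r k = 0` or `s k = 0` both vanish,
a contradiction.  Otherwise compare the multiplicity of a root `a ∈ S`: odd on the left
(`f` is squarefree), even on the right.
-/

set_option autoImplicit false

namespace Pool.Agent.P4f18dfQ

open Polynomial Finset

namespace NonZero

theorem prod_coeff_zero_ne {p : ℕ} [Fact p.Prime] (S : Finset (ZMod p)) (h0 : (0 : ZMod p) ∉ S) :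
    (∏ a ∈ S, (X - C a)).coeff 0 ≠ (0 : ZMod p) := by
  rw [coeff_zero_eq_eval_zero, eval_prod, Finset.prod_ne_zero_iff]
  intro a ha
  rw [eval_sub, eval_X, eval_C, zero_sub, neg_ne_zero]
  intro h
  rw [h] at ha
  exact h0 ha

theorem dvd_pow_sub {p : ℕ} [Fact p.Prime] (f : (ZMod p)[X]) :
    X ^ p ∣ f ^ p - C (f.coeff 0) := by
  rw [← ZMod.expand_card f]
  refine ⟨expand (ZMod p) p f.divX, ?_⟩
  conv_lhs => rw [← divX_mul_X_add f]
  simp only [map_add, map_mul, expand_X, expand_C]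
  rw [divX_mul_X_add]
  ring

theorem degree_sq_mul_lt {p : ℕ} [Fact p.Prime] (q f : (ZMod p)[X]) (D n m : ℕ)
    (hq : q.degree < D) (hf : f.natDegree ≤ n) (h : 2 * D + n ≤ m + 1) :
    (q ^ 2 * f).degree < m := by
  by_cases h0 : q ^ 2 * f = 0
  · rw [h0, degree_zero]
    exact WithBot.bot_lt_coe _
  · have hq0 : q ≠ 0 := by
      rintro rfl
      exact h0 (by rw [zero_pow two_ne_zero, zero_mul])
    have hf0 : f ≠ 0 := by
      rintro rfl
      exact h0 (mul_zero _)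
    rw [degree_eq_natDegree h0, Nat.cast_lt, natDegree_mul (pow_ne_zero _ hq0) hf0, natDegree_pow]
    rw [degree_eq_natDegree hq0, Nat.cast_lt] at hq
    omega

theorem local_zero {p : ℕ} [Fact p.Prime] (hp2 : p ≠ 2) (S : Finset (ZMod p)) (hS : S.Nonempty)
    (h0 : (0 : ZMod p) ∉ S) (D : ℕ) (hD : 2 * D + S.card ≤ p + 1) (r s : (ZMod p)[X])
    (hr : r.degree < D) (hs : s.degree < D)
    (h : X ^ p ∣ r + s * (∏ a ∈ S, (X - C a)) ^ ((p - 1) / 2)) : r = 0 ∧ s = 0 := by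
  set f : (ZMod p)[X] := ∏ a ∈ S, (X - C a) with hf
  have hfm : f.Monic := monic_prod_of_monic _ _ fun a _ => monic_X_sub_C a
  have hfd : f.natDegree = S.card := by
    rw [hf, natDegree_prod_of_monic _ _ fun a _ => monic_X_sub_C a]
    simp
  have hp1 : 1 ≤ p := (Fact.out : p.Prime).one_le
  have hodd : Odd p := (Fact.out : p.Prime).odd_of_ne_two hp2
  have hg : (f ^ ((p - 1) / 2)) ^ 2 * f = f ^ p := by
    rw [← pow_mul, ← pow_succ]
    congr 1
    obtain ⟨k, hk⟩ := hodd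
    omega
  have h1 : X ^ p ∣ r ^ 2 * f - s ^ 2 * f ^ p := by
    have h2 : r ^ 2 * f - s ^ 2 * f ^ p
        = (r + s * f ^ ((p - 1) / 2)) * ((r - s * f ^ ((p - 1) / 2)) * f) := by
      rw [← hg]; ring
    rw [h2]
    exact Dvd.dvd.mul_right h _
  have h3 : X ^ p ∣ r ^ 2 * f - s ^ 2 * C (f.coeff 0) := by
    have h4 : r ^ 2 * f - s ^ 2 * C (f.coeff 0)
        = (r ^ 2 * f - s ^ 2 * f ^ p) + s ^ 2 * (f ^ p - C (f.coeff 0)) := by ring
    rw [h4]
    exact dvd_add h1 (Dvd.dvd.mul_left (dvd_pow_sub f) _)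
  have h5 : r ^ 2 * f - s ^ 2 * C (f.coeff 0) = 0 := by
    refine eq_zero_of_dvd_of_degree_lt h3 ?_
    rw [degree_X_pow]
    refine (degree_sub_le _ _).trans_lt (max_lt ?_ ?_)
    · exact degree_sq_mul_lt r f D S.card p hr hfd.le hD
    · exact degree_sq_mul_lt s (C (f.coeff 0)) D 0 p hs (by rw [natDegree_C]) (by omega)
  have h6 : r ^ 2 * f = s ^ 2 * C (f.coeff 0) := sub_eq_zero.1 h5
  have hc : f.coeff 0 ≠ 0 := prod_coeff_zero_ne S h0
  have hC : (C (f.coeff 0) : (ZMod p)[X]) ≠ 0 := by rwa [Ne, C_eq_zero]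
  by_cases hr0 : r = 0
  · refine ⟨hr0, ?_⟩
    rw [hr0, zero_pow two_ne_zero, zero_mul] at h6
    exact pow_eq_zero_iff two_ne_zero |>.1 ((mul_eq_zero.1 h6.symm).resolve_right hC)
  · exfalso
    have hs0 : s ≠ 0 := by
      rintro rfl
      rw [zero_pow two_ne_zero, zero_mul] at h6
      rcases mul_eq_zero.1 h6 with h7 | h7
      · exact hr0 (pow_eq_zero_iff two_ne_zero |>.1 h7)
      · exact hfm.ne_zero h7
    obtain ⟨a, ha⟩ := hS
    have hfa : rootMultiplicity a f = 1 := by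
      rw [← count_roots, hf, roots_prod_X_sub_C]
      exact Multiset.count_eq_one_of_mem S.nodup ha
    have h7 : rootMultiplicity a (r ^ 2 * f) = rootMultiplicity a (s ^ 2 * C (f.coeff 0)) := by
      rw [h6]
    have hrr : r * r ≠ 0 := mul_ne_zero hr0 hr0
    have hss : s * s ≠ 0 := mul_ne_zero hs0 hs0
    rw [rootMultiplicity_mul (mul_ne_zero (pow_ne_zero _ hr0) hfm.ne_zero),
      rootMultiplicity_mul (mul_ne_zero (pow_ne_zero _ hs0) hC), rootMultiplicity_C, hfa,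
      pow_two, pow_two, rootMultiplicity_mul hrr, rootMultiplicity_mul hss] at h7
    omega

end NonZero

theorem coeffs_zero {p : ℕ} [Fact p.Prime] (hp2 : p ≠ 2) (S : Finset (ZMod p)) (hS : S.Nonempty)
    (h0 : (0 : ZMod p) ∉ S) (D J : ℕ) (hD : 2 * D + S.card ≤ p + 1) (r s : ℕ → (ZMod p)[X])
    (hr : ∀ j, (r j).degree < D) (hs : ∀ j, (s j).degree < D)
    (h : ∑ j ∈ range J, (r j + s j * (∏ a ∈ S, (X - C a)) ^ ((p - 1) / 2)) * X ^ (p * j) = 0) :
    ∀ j < J, r j = 0 ∧ s j = 0 := by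
  have key : ∀ j, j < J → r j = 0 ∧ s j = 0 := by
    intro j
    induction j using Nat.strong_induction_on with
    | _ j ih =>
      intro hj
      refine NonZero.local_zero hp2 S hS h0 D hD (r j) (s j) (hr j) (hs j) ?_
      set g : (ZMod p)[X] := (∏ a ∈ S, (X - C a)) ^ ((p - 1) / 2) with hg
      have hX : (X : (ZMod p)[X]) ^ (p * j) ≠ 0 := pow_ne_zero _ X_ne_zero
      rw [← mul_dvd_mul_iff_left hX, ← pow_add]
      rw [← Finset.add_sum_erase _ _ (mem_range.2 hj)] at h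
      have h1 : X ^ (p * j) * (r j + s j * g)
          = - ∑ i ∈ (range J).erase j, (r i + s i * g) * X ^ (p * i) := by
        rw [eq_neg_iff_add_eq_zero, ← h]
        ring
      rw [h1, dvd_neg]
      refine Finset.dvd_sum fun i hi => ?_
      rw [mem_erase, mem_range] at hi
      rcases lt_or_gt_of_ne hi.1 with hlt | hgt
      · obtain ⟨e1, e2⟩ := ih i hlt hi.2
        rw [e1, e2, zero_mul, add_zero, zero_mul]
        exact dvd_zero _
      · refine Dvd.dvd.mul_left (pow_dvd_pow _ ?_) _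
        calc p * j + p = p * (j + 1) := by ring
          _ ≤ p * i := Nat.mul_le_mul_left _ hgt
  exact key

end Pool.Agent.P4f18dfQ
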