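import Pool.Agent.Lib.P4f18dfQ.Exists
import Pool.Agent.Lib.P4f18dfQ.NonZero

/-!
# The number of points where `f ^ ((p-1)/2)` takes a given value

Module QT.Level.  Let `m = S.card`, `f = ∏ (X - C s)`, `g = f ^ ((p-1)/2)`,
`c = ((p-1)/2 : ℕ)` (`g_rel`), `D = (p + 1 - m) / 2`, `J = L + m`, `l = 2 * L`.
`hbig` gives `L^2 + L < D`, hence
`∑_{k < 2L} (D + J + k (m-1)) = 2L (D + L + m) + (m-1) L (2L-1) < 2 (L + m) D`
(the difference needed is `2 L (L + m) + (m-1) L (2 L - 1) ≤ 2 m (L^2 + L) < 2 m D`).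
`exists_coeffs` gives `r, s`; `R = ∑_{j<J} (r j + s j * g) * X ^ (p j)` is nonzero by
`coeffs_zero` (`2 * D + m ≤ p + 1`), and by `eval_iter` all `((th f)^[k] R).eval x`, `k < 2L`,
vanish at every `x` with `g.eval x = a`; there `f.eval x ≠ 0` as `a ≠ 0` (and `(p-1)/2 ≥ 1`).
So `(X - C x)^(2L) ∣ R` by `pow_dvd_of_th` (`2 L ≤ p`), these powers are pairwise coprime, their
product divides `R` and `2 L * #{x} ≤ natDegree R ≤ (D - 1) + m (p-1)/2 + p (J - 1)`.
Doubling, `4 L # ≤ (p + 1 - m) - 2 + m (p - 1) + 2 p (L + m - 1) ≤ 2 p L + 3 m p`.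
-/

set_option autoImplicit false

namespace Pool.Agent.P4f18dfQ

open Polynomial Finset

namespace Level

theorem count_lt {m D L : ℕ} (hm : 1 ≤ m) (hL : 1 ≤ L) (hD : L ^ 2 + L + 1 ≤ D) :
    ∑ k ∈ range (2 * L), (D + (L + m) + k * (m - 1)) < 2 * (L + m) * D := by
  obtain ⟨m', rfl⟩ : ∃ m', m = m' + 1 := ⟨m - 1, by omega⟩
  obtain ⟨L', rfl⟩ : ∃ L', L = L' + 1 := ⟨L - 1, by omega⟩
  rw [Finset.sum_add_distrib, Finset.sum_const, Finset.card_range, smul_eq_mul, ← Finset.sum_mul]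
  have h1 := Finset.sum_range_id_mul_two (2 * (L' + 1))
  have h2 : ∑ i ∈ range (2 * (L' + 1)), i = (L' + 1) * (2 * L' + 1) := by
    have h3 : 2 * (L' + 1) - 1 = 2 * L' + 1 := by omega
    rw [h3] at h1
    have h4 : (∑ i ∈ range (2 * (L' + 1)), i) * 2 = ((L' + 1) * (2 * L' + 1)) * 2 := by
      rw [h1]; ring
    exact Nat.eq_of_mul_eq_mul_right (by norm_num) h4
  rw [h2, Nat.add_sub_cancel]
  have h5 : (2 * (m' + 1)) * ((L' + 1) ^ 2 + (L' + 1) + 1) ≤ (2 * (m' + 1)) * D :=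
    Nat.mul_le_mul_left _ hD
  nlinarith [Nat.zero_le (m' * L'), Nat.zero_le (m' * L' ^ 2)]

theorem natDegree_R {p : ℕ} [Fact p.Prime] {r s : ℕ → (ZMod p)[X]} {g : (ZMod p)[X]}
    {D J G : ℕ} (hD : 1 ≤ D) (hr : ∀ j, (r j).degree < D) (hs : ∀ j, (s j).degree < D)
    (hg : g.natDegree ≤ G) :
    (∑ j ∈ range J, (r j + s j * g) * X ^ (p * j)).natDegree ≤ (D - 1) + G + p * (J - 1) := by
  have hdeg : ∀ w : (ZMod p)[X], w.degree < D → w.natDegree ≤ D - 1 := by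
    intro w h1
    by_cases h0 : w = 0
    · rw [h0]; simp
    · have h2 := (natDegree_lt_iff_degree_lt h0).2 h1
      omega
  apply natDegree_sum_le_of_forall_le
  intro j hj
  rw [Finset.mem_range] at hj
  refine (natDegree_mul_le).trans ?_
  rw [natDegree_X_pow]
  refine Nat.add_le_add ?_ (Nat.mul_le_mul_left _ (by omega))
  refine (natDegree_add_le _ _).trans (max_le ?_ ?_)
  · exact (hdeg _ (hr j)).trans (Nat.le_add_right _ _)
  · exact (natDegree_mul_le).trans (Nat.add_le_add (hdeg _ (hs j)) hg)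

end Level

theorem card_level_le {p : ℕ} [Fact p.Prime] (hp2 : p ≠ 2) (S : Finset (ZMod p))
    (hS : S.Nonempty) (h0 : (0 : ZMod p) ∉ S) (a : ZMod p) (ha : a ≠ 0) (L : ℕ) (hL : 1 ≤ L)
    (hbig : 2 * (L ^ 2 + L) + S.card + 2 ≤ p) :
    4 * L * (univ.filter (fun x : ZMod p => (∏ s ∈ S, (x - s)) ^ ((p - 1) / 2) = a)).card ≤
      2 * p * L + 3 * S.card * p := by
  classical
  have hpp : p.Prime := Fact.out
  have hodd : p % 2 = 1 := (hpp.eq_two_or_odd).resolve_left hp2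
  obtain ⟨e, he⟩ : ∃ e, e = (p - 1) / 2 := ⟨_, rfl⟩
  have hp1 : 2 ≤ p := hpp.two_le
  have hpe : p = 2 * e + 1 := by omega
  have he1 : 1 ≤ e := by omega
  obtain ⟨m, hm⟩ : ∃ m, m = S.card := ⟨_, rfl⟩
  have hm1 : 1 ≤ m := by rw [hm]; exact hS.card_pos
  obtain ⟨D, hD⟩ : ∃ D, D = (p + 1 - m) / 2 := ⟨_, rfl⟩
  rw [← hm] at hbig ⊢
  have hD1 : L ^ 2 + L + 1 ≤ D := by omega
  have hD2 : 2 * D + m ≤ p + 1 := by omega
  obtain ⟨f, hf⟩ : ∃ f : (ZMod p)[X], f = ∏ a ∈ S, (X - C a) := ⟨_, rfl⟩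
  have hfd : f.natDegree = m := by
    rw [hf, natDegree_prod_of_monic _ _ (fun i _ => monic_X_sub_C i)]
    simp [hm]
  have hgrel := g_rel f e
  obtain ⟨r, s, hr, hs, hne, hzero⟩ := exists_coeffs f (e : ZMod p) a m D (L + m) (2 * L) hm1
    hfd.le (by omega) (by omega) (Level.count_lt hm1 hL hD1)
  obtain ⟨R, hR⟩ : ∃ R : (ZMod p)[X], R = ∑ j ∈ range (L + m), (r j + s j * f ^ e) * X ^ (p * j) :=
    ⟨_, rfl⟩
  have hR0 : R ≠ 0 := by
    intro h
    have h1 := coeffs_zero hp2 S hS h0 D (L + m) (by rw [← hm]; exact hD2) r s hr hs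
      (by rw [← hf, ← he, ← hR]; exact h)
    obtain ⟨j, hj, h2⟩ := hne
    rcases h2 with h2 | h2
    · exact h2 (h1 j hj).1
    · exact h2 (h1 j hj).2
  have hdvd : ∀ x ∈ univ.filter (fun x : ZMod p => (∏ s ∈ S, (x - s)) ^ ((p - 1) / 2) = a),
      (X - C x) ^ (2 * L) ∣ R := by
    intro x hx
    have hx1 : (∏ s ∈ S, (x - s)) ^ ((p - 1) / 2) = a := (Finset.mem_filter.1 hx).2
    have hfe : f.eval x = ∏ s ∈ S, (x - s) := by
      rw [hf, eval_prod]
      simp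
    rw [← he, ← hfe] at hx1
    have hfx : f.eval x ≠ 0 := by
      intro h
      rw [h, zero_pow (by omega)] at hx1
      exact ha hx1.symm
    refine pow_dvd_of_th (by nlinarith) hfx ?_
    intro k hk
    rw [hR, eval_iter f (f ^ e) (e : ZMod p) hgrel (L + m) r s k a x (by rw [eval_pow]; exact hx1),
      hzero k hk, eval_zero]
  have hprod : ∏ x ∈ univ.filter (fun x : ZMod p => (∏ s ∈ S, (x - s)) ^ ((p - 1) / 2) = a),
      (X - C x) ^ (2 * L) ∣ R := by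
    refine Finset.prod_dvd_of_coprime ?_ hdvd
    intro x _ y _ hxy
    exact (pairwise_coprime_X_sub_C Function.injective_id hxy).pow
  have hdeg := natDegree_le_of_dvd hprod hR0
  rw [natDegree_prod_of_monic _ _ (fun i _ => (monic_X_sub_C i).pow _)] at hdeg
  simp only [natDegree_pow, natDegree_X_sub_C, mul_one, Finset.sum_const, smul_eq_mul] at hdeg
  have hRd : R.natDegree ≤ (D - 1) + m * e + p * (L + m - 1) := by
    rw [hR]
    refine Level.natDegree_R (by omega) hr hs ?_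
    rw [natDegree_pow, hfd, mul_comm]
  have h1 := hdeg.trans hRd
  obtain ⟨N, hN⟩ : ∃ N, N = (univ.filter (fun x : ZMod p =>
    (∏ s ∈ S, (x - s)) ^ ((p - 1) / 2) = a)).card := ⟨_, rfl⟩
  rw [← hN] at h1 ⊢
  have h2 : 4 * L * N ≤ 2 * (D - 1) + 2 * (m * e) + 2 * (p * (L + m - 1)) := by
    calc 4 * L * N = 2 * (N * (2 * L)) := by ring
      _ ≤ 2 * ((D - 1) + m * e + p * (L + m - 1)) := Nat.mul_le_mul_left _ h1
      _ = _ := by ring
  have h3 : 2 * (m * e) + m = m * p := by rw [hpe]; ring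
  have h4 : p * (L + m - 1) + p = p * L + m * p := by
    have h5 : L + m - 1 + 1 = L + m := by omega
    calc p * (L + m - 1) + p = p * (L + m - 1 + 1) := by ring
      _ = p * (L + m) := by rw [h5]
      _ = _ := by ring
  have h6 : 2 * p * L + 3 * m * p = 2 * (p * L) + 3 * (m * p) := by ring
  rw [h6]
  omega

end Pool.Agent.P4f18dfQ
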