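import Pool.Agent.Lib.P4f18dfQ.Defs

/-!
# The law from the moments at the given lengths only

Module QT.Loc.  This is `gauss_of_momArr` of `Lib/P4f18df/TwLaw.lean` with the hypothesis on the
moments only at `N = ⌊X i⌋₊`, `h = ⌊H i⌋₊` and with `H i ≤ √(X i)`.
-/

set_option autoImplicit false

namespace Pool.Agent.P4f18dfQ

open Finset Filter MeasureTheory ProbabilityTheory Pool.Agent.P4f18df

namespace Loc

/-- The discrete characteristic function converges, at the given lengths only. -/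
theorem disc_charFun_loc {f : ℕ → ℕ → ℝ} {Nn Hn : ℕ → ℕ}
    (hHn : Tendsto Hn atTop atTop) (hHN : ∀ᶠ i in atTop, Hn i ≤ Nn i)
    (hm : ∀ k : ℕ, 1 ≤ k → ∀ η : ℝ, 0 < η → ∀ᶠ i : ℕ in atTop,
      |Dk (f i) k (Nn i) (Hn i)| ≤ η * (Real.sqrt (Hn i)) ^ k) (θ ε : ℝ) (hε : 0 < ε) :
    ∀ᶠ i : ℕ in atTop,
      ‖Phi (f i) (θ / sig (Hn i)) (Nn i) (Hn i) - ((Real.exp (-(θ ^ 2 / 2)) : ℝ) : ℂ)‖ ≤ ε := by
  set c : ℝ := |θ| * Real.sqrt (Real.pi ^ 2 / 6) with hc
  have hc0 : 0 ≤ c := by positivity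
  have hθ : θ ^ 2 * (Real.pi ^ 2 / 6) = c ^ 2 := by
    rw [hc, mul_pow, sq_abs, Real.sq_sqrt (by positivity)]
  obtain ⟨j, hj, hjB⟩ := exists_j c (ε / 8) (by positivity)
  set η : ℝ := ε / 4 / Real.exp c with hη
  have hη0 : 0 < η := by positivity
  have hηe : η * Real.exp c = ε / 4 := by
    rw [hη]; field_simp
  have hlim : Tendsto (fun h : ℕ => c ^ 4 / (h : ℝ) + 9 * c ^ 2 / 2 / Real.sqrt h) atTop
      (nhds (0 + 0)) := by
    apply Tendsto.add
    · exact tendsto_const_nhds.div_atTop tendsto_natCast_atTop_atTop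
    · exact tendsto_const_nhds.div_atTop
        (Real.tendsto_sqrt_atTop.comp tendsto_natCast_atTop_atTop)
  rw [add_zero] at hlim
  have h1 : ∀ᶠ h : ℕ in atTop, c ^ 4 / (h : ℝ) + 9 * c ^ 2 / 2 / Real.sqrt h ≤ ε / 4 :=
    (hlim.eventually (gt_mem_nhds (by positivity : 0 < ε / 4))).mono (fun _ h => le_of_lt h)
  have h2 : ∀ᶠ h : ℕ in atTop, c ≤ Real.sqrt h :=
    (Real.tendsto_sqrt_atTop.comp tendsto_natCast_atTop_atTop).eventually_ge_atTop c
  obtain ⟨h₀, hh₀⟩ := eventually_atTop.1 (h1.and (h2.and (eventually_ge_atTop 1)))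
  have h3 : ∀ᶠ i : ℕ in atTop, ∀ k ∈ Icc 1 (2 * j),
      |Dk (f i) k (Nn i) (Hn i)| ≤ η * (Real.sqrt (Hn i)) ^ k := by
    rw [Filter.eventually_all_finset]
    intro k hk
    exact hm k (Finset.mem_Icc.1 hk).1 η hη0
  filter_upwards [h3, hHn.eventually_ge_atTop h₀, hHN] with i hN hh0 hhN'
  obtain ⟨g1, g2, g3⟩ := hh₀ (Hn i) hh0
  have := Phi_bound (f := f i) hj g3 hhN' c η θ hc0 hη0.le hθ g2 (fun k hk => hN k hk)
  linarith

end Loc

theorem gauss_of_momLoc {f : ℕ → ℕ → ℝ} (hf : ∀ i, SgnFun (f i)) (X H : ℕ → ℝ)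
    (hX : Tendsto X atTop atTop)
    (hm : ∀ k : ℕ, 1 ≤ k → ∀ η : ℝ, 0 < η → ∀ᶠ i : ℕ in atTop,
      |Dk (f i) k ⌊X i⌋₊ ⌊H i⌋₊| ≤ η * (Real.sqrt ⌊H i⌋₊) ^ k)
    (hH1 : Tendsto H atTop atTop) (hH2 : ∀ᶠ i in atTop, H i ≤ Real.sqrt (X i)) (t : ℝ) :
    Tendsto (fun i : ℕ => (volume {x : ℝ | x ∈ Set.Icc (X i) (2 * X i) ∧
        Ms (f i) x (H i) / Real.sqrt (H i / (Real.pi ^ 2 / 6)) ≤ t}).toReal / X i) atTop
      (nhds (cdf (gaussianReal 0 1) t)) := by
  have hHX0 : ∀ᶠ i in atTop, H i ≤ X i := by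
    filter_upwards [hH2, hX.eventually_ge_atTop 1] with i h1 h2
    refine le_trans h1 ?_
    rw [Real.sqrt_le_left (by linarith)]
    nlinarith
  -- the characteristic functions converge
  have hchar : ∀ θ : ℝ, Tendsto (fun i : ℕ => charFun ((unif (X i)).map (Zm (f i) (X i) (H i))) θ)
      atTop (nhds ((Real.exp (-(θ ^ 2 / 2)) : ℝ) : ℂ)) := by
    intro θ
    rw [Metric.tendsto_nhds]
    intro δ hδ
    have hHn : Tendsto (fun i => ⌊H i⌋₊) atTop atTop := tendsto_nat_floor_atTop.comp hH1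
    have hHN : ∀ᶠ i in atTop, ⌊H i⌋₊ ≤ ⌊X i⌋₊ := by
      filter_upwards [hHX0] with i h1
      exact Nat.floor_mono h1
    have c1 := Loc.disc_charFun_loc hHn hHN hm θ (δ / 2) (by positivity)
    have c3 : ∀ᶠ i : ℕ in atTop, |θ| * (5 / Real.sqrt ⌊H i⌋₊) < δ / 6 := by
      have : Tendsto (fun i : ℕ => |θ| * (5 / Real.sqrt ⌊H i⌋₊)) atTop (nhds (|θ| * 0)) := by
        apply Tendsto.const_mul
        apply tendsto_const_nhds.div_atTop
        exact Real.tendsto_sqrt_atTop.comp (tendsto_natCast_atTop_atTop.comp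
          (tendsto_nat_floor_atTop.comp hH1))
      rw [mul_zero] at this
      exact this.eventually (gt_mem_nhds (by positivity))
    have c4 : ∀ᶠ X : ℝ in atTop, X ^ (-(1 / 2 : ℝ)) < δ / 12 := by
      have := tendsto_rpow_neg_atTop (by norm_num : (0:ℝ) < 1 / 2)
      exact this.eventually (gt_mem_nhds (by positivity))
    have c5 : ∀ᶠ X : ℝ in atTop, 5 / X < δ / 12 := by
      have : Tendsto (fun X : ℝ => 5 / X) atTop (nhds 0) :=
        tendsto_const_nhds.div_atTop tendsto_id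
      exact this.eventually (gt_mem_nhds (by positivity))
    filter_upwards [c1, c3, hX.eventually c4, hX.eventually c5, hH2,
      hH1.eventually_ge_atTop 1, hX.eventually_ge_atTop 1, hHX0] with i k1 g3 g4 g5 g7 g8 g9 hHX'
    have hX0 : (0:ℝ) < X i := by linarith
    have hHX : H i ≤ X i * X i ^ (-(1 / 2 : ℝ)) := by
      refine le_trans g7 (le_of_eq ?_)
      rw [Real.sqrt_eq_rpow]
      nth_rewrite 2 [← Real.rpow_one (X i)]
      rw [← Real.rpow_add hX0]
      norm_num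
    have k2 := charFun_bound (hf i) g9 g8 hHX' θ
    have k3 : (H i + 4) / X i + 1 / X i ≤ X i ^ (-(1 / 2 : ℝ)) + 5 / X i := by
      have : H i / X i ≤ X i ^ (-(1 / 2 : ℝ)) := by
        rw [div_le_iff₀ hX0]; linarith
      have e : (H i + 4) / X i + 1 / X i = H i / X i + 5 / X i := by ring
      rw [e]; linarith
    rw [dist_eq_norm]
    calc ‖charFun ((unif (X i)).map (Zm (f i) (X i) (H i))) θ -
            ((Real.exp (-(θ ^ 2 / 2)) : ℝ) : ℂ)‖
        = ‖(charFun ((unif (X i)).map (Zm (f i) (X i) (H i))) θ -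
              Phi (f i) (θ / sig ⌊H i⌋₊) ⌊X i⌋₊ ⌊H i⌋₊) +
          (Phi (f i) (θ / sig ⌊H i⌋₊) ⌊X i⌋₊ ⌊H i⌋₊ -
            ((Real.exp (-(θ ^ 2 / 2)) : ℝ) : ℂ))‖ := by
          congr 1; ring
      _ ≤ _ := norm_add_le _ _
      _ < δ := by linarith
  -- weak convergence
  set v : ℕ → ℝ := fun n => max (X n) 1 with hv
  have hv1 : ∀ n, 1 ≤ v n := fun n => le_max_right _ _
  have huv : ∀ᶠ n in atTop, v n = X n := by
    filter_upwards [hX.eventually_ge_atTop 1] with n hn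
    exact max_eq_left hn
  have hprob : ∀ n, IsProbabilityMeasure ((unif (v n)).map (Zm (f n) (v n) (H n))) := by
    intro n
    have := unif_prob (show 0 < v n by have := hv1 n; linarith)
    exact Measure.isProbabilityMeasure_map (measurable_Zm _ _ _).aemeasurable
  set μs : ℕ → ProbabilityMeasure ℝ := fun n => ⟨(unif (v n)).map (Zm (f n) (v n) (H n)), hprob n⟩
    with hμs
  set μ0 : ProbabilityMeasure ℝ := ⟨ProbabilityTheory.gaussianReal 0 1, inferInstance⟩ with hμ0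
  have hconv : Tendsto μs atTop (nhds μ0) := by
    rw [ProbabilityMeasure.tendsto_iff_tendsto_charFun]
    intro θ
    have h1 : charFun (μ0 : Measure ℝ) θ = ((Real.exp (-(θ ^ 2 / 2)) : ℝ) : ℂ) := by
      rw [hμ0]
      simp only [ProbabilityMeasure.coe_mk]
      rw [ProbabilityTheory.charFun_gaussianReal]
      push_cast
      congr 1; simp
    rw [h1]
    refine (hchar θ).congr' ?_
    filter_upwards [huv] with n hn
    rw [hμs]
    simp only [ProbabilityMeasure.coe_mk, hn]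
  have hfront : (μ0 : Measure ℝ) (frontier (Set.Iic t)) = 0 := by
    rw [frontier_Iic]
    have := ProbabilityTheory.nullSingletonClass_gaussianReal (μ := 0) (v := 1) (by norm_num)
    show (ProbabilityTheory.gaussianReal 0 1) {t} = 0
    exact measure_singleton t
  have hlim := ProbabilityMeasure.tendsto_measure_of_null_frontier_of_tendsto' hconv hfront
  have hlim2 : Tendsto (fun n => ((μs n : Measure ℝ) (Set.Iic t)).toReal) atTop
      (nhds ((μ0 : Measure ℝ) (Set.Iic t)).toReal) :=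
    (ENNReal.tendsto_toReal (measure_ne_top _ _)).comp hlim
  have h0 : ((μ0 : Measure ℝ) (Set.Iic t)).toReal =
      ProbabilityTheory.cdf (ProbabilityTheory.gaussianReal 0 1) t := by
    rw [ProbabilityTheory.cdf_eq_real]; rfl
  rw [h0] at hlim2
  refine hlim2.congr' ?_
  have hHpos : ∀ᶠ n in atTop, 0 ≤ H n := hH1.eventually_ge_atTop 0
  filter_upwards [huv, hHpos] with n hn hHn
  have hun : 1 ≤ X n := hn ▸ hv1 n
  have hun0 : 0 < X n := by linarith
  simp only [hμs, ProbabilityMeasure.coe_mk, hn]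
  rw [Measure.map_apply (measurable_Zm _ _ _) measurableSet_Iic]
  unfold unif
  rw [Measure.smul_apply, Measure.restrict_apply (measurable_Zm _ _ _ measurableSet_Iic),
    smul_eq_mul, ENNReal.toReal_mul, ENNReal.toReal_inv, ENNReal.toReal_ofReal hun0.le]
  rw [div_eq_inv_mul]
  congr 2
  congr 1
  ext x
  simp only [Set.mem_inter_iff, Set.mem_preimage, Set.mem_Iic, Set.mem_setOf_eq]
  constructor
  · rintro ⟨h1, h2⟩
    refine ⟨h2, ?_⟩
    rw [Zm_eq hHn h2.2] at h1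
    exact h1
  · rintro ⟨h1, h2⟩
    refine ⟨?_, h1⟩
    rw [Zm_eq hHn h1.2]
    exact h2

end Pool.Agent.P4f18dfQ
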