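import Pool.Agent.Lib.P4f18dfQ.Theta

/-!
# The companion operator and degrees

Module QT.Op.  With `g = f ^ e` one has `f g' = e f' g`; hence `θ (r + s g) = θ r + (bo e f s) g`,
where `bo c f s = f s' + c f' s`, and `θ` commutes with multiplication by `X ^ (p j)` because
`(X ^ (p j))' = 0` in characteristic `p`.  Everything here is a short induction on `k`.
Degrees: `natDegree (derivative r) ≤ natDegree r - 1` and `derivative r = 0` if `natDegree r = 0`.
For `eval_iter`: use `iter_sum` and `x ^ p = x` in `ZMod p` (`ZMod.pow_card`), so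
`x ^ (p * j) = x ^ j`.
-/

set_option autoImplicit false

namespace Pool.Agent.P4f18dfQ

open Polynomial Finset

/-- the companion operator -/
noncomputable def bo {p : ℕ} (c : ZMod p) (f s : (ZMod p)[X]) : (ZMod p)[X] :=
  f * derivative s + C c * derivative f * s

namespace Op

theorem mul_derivative_le {p : ℕ} {f r : (ZMod p)[X]} {m d : ℕ} (hm : 1 ≤ m)
    (hf : f.natDegree ≤ m) (hr : r.natDegree ≤ d) :
    (f * derivative r).natDegree ≤ d + (m - 1) := by
  rcases Nat.eq_zero_or_pos r.natDegree with h0 | h0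
  · rw [derivative_of_natDegree_zero h0, mul_zero, natDegree_zero]
    omega
  · have h1 := natDegree_derivative_le r
    have h2 := natDegree_mul_le (p := f) (q := derivative r)
    omega

theorem derivative_X_pow_mul {p : ℕ} (j : ℕ) :
    derivative ((X : (ZMod p)[X]) ^ (p * j)) = 0 := by
  rw [derivative_X_pow]
  have : ((p * j : ℕ) : ZMod p) = 0 := by
    push_cast
    rw [ZMod.natCast_self, zero_mul]
  rw [this, C_0, zero_mul]

theorem th_sum {p : ℕ} (f g : (ZMod p)[X]) (c : ZMod p)
    (hg : f * derivative g = C c * derivative f * g) (J : ℕ) (r s : ℕ → (ZMod p)[X]) :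
    th f (∑ j ∈ range J, (r j + s j * g) * X ^ (p * j)) =
      ∑ j ∈ range J, (th f (r j) + bo c f (s j) * g) * X ^ (p * j) := by
  unfold th bo
  rw [derivative_sum, mul_sum]
  refine sum_congr rfl fun j _ => ?_
  rw [derivative_mul, derivative_X_pow_mul, mul_zero, add_zero, derivative_add, derivative_mul]
  linear_combination (s j * X ^ (p * j)) * hg

end Op

theorem g_rel {p : ℕ} [Fact p.Prime] (f : (ZMod p)[X]) (e : ℕ) :
    f * derivative (f ^ e) = C (e : ZMod p) * derivative f * f ^ e := by
  rcases e with _ | e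
  · simp
  · rw [derivative_pow, Nat.add_sub_cancel, pow_succ]
    ring

theorem natDegree_th_iter {p : ℕ} [Fact p.Prime] {f r : (ZMod p)[X]} {m d : ℕ} (hm : 1 ≤ m)
    (hf : f.natDegree ≤ m) (hr : r.natDegree ≤ d) (k : ℕ) :
    ((th f)^[k] r).natDegree ≤ d + k * (m - 1) := by
  induction k with
  | zero => simpa using hr
  | succ k ih =>
    rw [Function.iterate_succ_apply', Nat.succ_mul, ← Nat.add_assoc]
    exact Op.mul_derivative_le hm hf ih

theorem natDegree_bo_iter {p : ℕ} [Fact p.Prime] {f s : (ZMod p)[X]} {m d : ℕ} (c : ZMod p)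
    (hm : 1 ≤ m) (hf : f.natDegree ≤ m) (hs : s.natDegree ≤ d) (k : ℕ) :
    ((bo c f)^[k] s).natDegree ≤ d + k * (m - 1) := by
  induction k with
  | zero => simpa using hs
  | succ k ih =>
    rw [Function.iterate_succ_apply', Nat.succ_mul, ← Nat.add_assoc]
    generalize (bo c f)^[k] s = q at ih
    unfold bo
    refine (natDegree_add_le _ _).trans (max_le (Op.mul_derivative_le hm hf ih) ?_)
    have h1 := natDegree_derivative_le f
    have h2 := natDegree_mul_le (p := C c * derivative f) (q := q)
    have h3 := natDegree_mul_le (p := C c) (q := derivative f)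
    rw [natDegree_C] at h3
    omega

theorem iter_sum {p : ℕ} [Fact p.Prime] (f g : (ZMod p)[X]) (c : ZMod p)
    (hg : f * derivative g = C c * derivative f * g) (J : ℕ) (r s : ℕ → (ZMod p)[X]) (k : ℕ) :
    (th f)^[k] (∑ j ∈ range J, (r j + s j * g) * X ^ (p * j)) =
      ∑ j ∈ range J, ((th f)^[k] (r j) + (bo c f)^[k] (s j) * g) * X ^ (p * j) := by
  induction k with
  | zero => rfl
  | succ k ih =>
    rw [Function.iterate_succ_apply', ih,
      Op.th_sum f g c hg J (fun j => (th f)^[k] (r j)) (fun j => (bo c f)^[k] (s j))]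
    refine sum_congr rfl fun j _ => ?_
    rw [Function.iterate_succ_apply', Function.iterate_succ_apply']

theorem eval_iter {p : ℕ} [Fact p.Prime] (f g : (ZMod p)[X]) (c : ZMod p)
    (hg : f * derivative g = C c * derivative f * g) (J : ℕ) (r s : ℕ → (ZMod p)[X]) (k : ℕ)
    (a x : ZMod p) (hx : g.eval x = a) :
    ((th f)^[k] (∑ j ∈ range J, (r j + s j * g) * X ^ (p * j))).eval x =
      (∑ j ∈ range J, ((th f)^[k] (r j) + C a * (bo c f)^[k] (s j)) * X ^ j).eval x := by
  rw [iter_sum f g c hg J r s k, eval_finsetSum, eval_finsetSum]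
  refine sum_congr rfl fun j _ => ?_
  simp only [eval_mul, eval_add, eval_pow, eval_X, eval_C, hx]
  rw [pow_mul, ZMod.pow_card]
  ring

end Pool.Agent.P4f18dfQ
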