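import Mathlib

/-!
# Periodic sums

Module QT.Per.  (1) Split `Ioc 0 N` into `N / q` full periods and at most `q` further terms (a full
period, starting anywhere, has the sum over `range q`).
(2) Chinese remainder theorem: `n ↦ (n % q₁, n % q₂)` is a bijection from `range (q₁ q₂)` to
`range q₁ ×ˢ range q₂`, and `φ n = φ (n % q₁)` by periodicity.
-/

set_option autoImplicit false

namespace Pool.Agent.P4f18dfQ

open Finset

namespace Per

theorem shift {φ : ℕ → ℝ} {q : ℕ} (hper : ∀ n, φ (n + q) = φ n) (a : ℕ) :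
    ∑ n ∈ range q, φ (a + n) = ∑ n ∈ range q, φ n := by
  induction a with
  | zero => simp
  | succ a ih =>
    rw [← ih]
    have h1 := Finset.sum_range_succ (fun n => φ (a + n)) q
    have h2 := Finset.sum_range_succ' (fun n => φ (a + n)) q
    rw [h1] at h2
    simp only [add_zero, hper a] at h2
    have h3 : ∑ n ∈ range q, φ (a + 1 + n) = ∑ n ∈ range q, φ (a + (n + 1)) := by
      refine Finset.sum_congr rfl fun n _ => ?_
      congr 1
      ring
    rw [h3]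
    linarith

theorem sum_blocks {φ : ℕ → ℝ} {q : ℕ} (hper : ∀ n, φ (n + q) = φ n) (a m : ℕ) :
    ∑ n ∈ range (q * m), φ (a + n) = m * ∑ n ∈ range q, φ n := by
  induction m with
  | zero => simp
  | succ m ih =>
    have h1 : ∑ x ∈ range q, φ (a + (q * m + x)) = ∑ n ∈ range q, φ n := by
      rw [← shift hper (a + q * m)]
      refine Finset.sum_congr rfl fun n _ => ?_
      rw [add_assoc]
    rw [show q * (m + 1) = q * m + q by ring, Finset.sum_range_add, ih, h1]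
    push_cast
    ring

theorem map_mod {φ : ℕ → ℝ} {q : ℕ} (hper : ∀ n, φ (n + q) = φ n) (n : ℕ) :
    φ (n % q) = φ n :=
  Function.Periodic.map_mod_nat (f := φ) (a := q) hper n

end Per

theorem abs_sum_Ioc_le_of_periodic {φ : ℕ → ℝ} {q : ℕ} (hq : 0 < q) (hper : ∀ n, φ (n + q) = φ n)
    (hb : ∀ n, |φ n| ≤ 1) {A : ℝ} (hA : |∑ n ∈ range q, φ n| ≤ A) (N : ℕ) :
    |∑ n ∈ Ioc 0 N, φ n| ≤ (N : ℝ) / q * A + q := by
  have h0 : ∑ n ∈ Ioc 0 N, φ n = ∑ n ∈ range N, φ (1 + n) := by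
    rw [← Finset.Ico_succ_succ_eq_Ioc, Finset.sum_Ico_eq_sum_range]
    simp
  have hN : q * (N / q) + N % q = N := Nat.div_add_mod N q
  have h1 : ∑ n ∈ range N, φ (1 + n) = ((N / q : ℕ) : ℝ) * ∑ n ∈ range q, φ n +
      ∑ n ∈ range (N % q), φ (1 + (q * (N / q) + n)) := by
    rw [← Per.sum_blocks hper 1 (N / q)]
    conv_lhs => rw [← hN]
    rw [Finset.sum_range_add]
  have h2 : |∑ n ∈ range (N % q), φ (1 + (q * (N / q) + n))| ≤ q := by
    calc |∑ n ∈ range (N % q), φ (1 + (q * (N / q) + n))|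
        ≤ ∑ n ∈ range (N % q), |φ (1 + (q * (N / q) + n))| := Finset.abs_sum_le_sum_abs _ _
      _ ≤ ∑ n ∈ range (N % q), 1 := Finset.sum_le_sum fun n _ => hb _
      _ = ((N % q : ℕ) : ℝ) := by simp
      _ ≤ q := by exact_mod_cast (Nat.mod_lt N hq).le
  have hA0 : 0 ≤ A := le_trans (abs_nonneg _) hA
  have hqr : (0 : ℝ) < q := by exact_mod_cast hq
  have h3 : ((N / q : ℕ) : ℝ) ≤ (N : ℝ) / q := Nat.cast_div_le
  rw [h0, h1]
  calc |((N / q : ℕ) : ℝ) * ∑ n ∈ range q, φ n +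
        ∑ n ∈ range (N % q), φ (1 + (q * (N / q) + n))|
      ≤ |((N / q : ℕ) : ℝ) * ∑ n ∈ range q, φ n| +
        |∑ n ∈ range (N % q), φ (1 + (q * (N / q) + n))| := abs_add_le _ _
    _ ≤ (N : ℝ) / q * A + q := by
        refine add_le_add ?_ h2
        rw [abs_mul, abs_of_nonneg (Nat.cast_nonneg _)]
        exact mul_le_mul h3 hA (abs_nonneg _) (by positivity)

theorem sum_range_mul_of_coprime {q₁ q₂ : ℕ} (h : Nat.Coprime q₁ q₂) (h₁ : 0 < q₁) (h₂ : 0 < q₂)
    {φ ψ : ℕ → ℝ} (hφ : ∀ n, φ (n + q₁) = φ n) (hψ : ∀ n, ψ (n + q₂) = ψ n) :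
    ∑ n ∈ range (q₁ * q₂), φ n * ψ n = (∑ n ∈ range q₁, φ n) * (∑ n ∈ range q₂, ψ n) := by
  rw [Finset.sum_mul_sum, ← Finset.sum_product']
  refine Finset.sum_nbij' (fun n => (n % q₁, n % q₂))
    (fun p => (Nat.chineseRemainder h p.1 p.2 : ℕ)) ?_ ?_ ?_ ?_ ?_
  · intro n _
    simp only [mem_product, mem_range]
    exact ⟨Nat.mod_lt _ h₁, Nat.mod_lt _ h₂⟩
  · intro p _
    simp only [mem_range]
    exact Nat.chineseRemainder_lt_mul h _ _ h₁.ne' h₂.ne'
  · intro n hn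
    simp only [mem_range] at hn
    have h3 : n ≡ (Nat.chineseRemainder h (n % q₁) (n % q₂) : ℕ) [MOD q₁ * q₂] :=
      Nat.chineseRemainder_modEq_unique h (Nat.mod_modEq _ _).symm (Nat.mod_modEq _ _).symm
    exact (Nat.ModEq.eq_of_lt_of_lt h3 hn
      (Nat.chineseRemainder_lt_mul h _ _ h₁.ne' h₂.ne')).symm
  · rintro ⟨a, b⟩ hp
    simp only [mem_product, mem_range] at hp
    have h3 := (Nat.chineseRemainder h a b).2
    refine Prod.ext ?_ ?_
    · exact Eq.trans h3.1 (Nat.mod_eq_of_lt hp.1)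
    · exact Eq.trans h3.2 (Nat.mod_eq_of_lt hp.2)
  · intro n _
    rw [Per.map_mod hφ, Per.map_mod hψ]

end Pool.Agent.P4f18dfQ
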