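import Pool.Agent.Lib.P4f18dfQ.Bridge
import Pool.Agent.Lib.P4f18dfQ.Per
import Pool.Agent.Lib.P4f18dfQ.Dual

/-!
# The large sieve for the symbols `(F_S(n) / p)`

Module QT.Sieve.  `duality_of_near_orth` with `s = PP P`, `t = Ioc 0 N`, `A p n = lg p (Fs S n)`,
`N₁ = N` (as `|lg| ≤ 1`).  For `p ≠ p'` in `PP P`: the product
`φ n = lg p (Fs S n) * lg p' (Fs S n)` is `p p'`-periodic, its sum over a period is the product of
the two complete sums (`sum_range_mul_of_coprime`), at most `C₀^2 √p √p'` (`complete_sum`, elements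
of `S` are `≤ P < p`); by `abs_sum_Ioc_le_of_periodic`
`|∑| ≤ N / (p p') * C₀^2 √(p p') + p p' ≤ C₀^2 N / P + 4 P^2 =: E`, and
`E * card (PP P) ≤ C₀^2 N + 4 P^3 ≤ (C₀^2 + 32) N`.
-/

set_option autoImplicit false

namespace Pool.Agent.P4f18dfQ

open Finset

namespace Sieve

lemma sqrt_div {P p : ℝ} (hP : 0 < P) (h : P < p) : Real.sqrt p / p ≤ 1 / Real.sqrt P := by
  have hp : 0 < p := hP.trans h
  rw [div_le_div_iff₀ hp (Real.sqrt_pos.2 hP), one_mul]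
  calc Real.sqrt p * Real.sqrt P ≤ Real.sqrt p * Real.sqrt p :=
        mul_le_mul_of_nonneg_left (Real.sqrt_le_sqrt h.le) (Real.sqrt_nonneg _)
    _ = p := Real.mul_self_sqrt hp.le

lemma cross {m : ℕ} {C₀ : ℝ} (hC₀ : 0 < C₀) (h : ∀ p : ℕ, p.Prime →
    ∀ S : Finset ℕ, S.card = m → (∀ s ∈ S, s < p) →
      |∑ n ∈ range p, lg p (Fs S n)| ≤ C₀ * Real.sqrt p) {P N : ℕ} (hP : 2 ≤ P)
    {S : Finset ℕ} (hS : S.card = m) (hSP : ∀ s ∈ S, s ≤ P) {p p' : ℕ} (hp : p ∈ PP P)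
    (hp' : p' ∈ PP P) (hne : p ≠ p') :
    |∑ n ∈ Ioc 0 N, lg p (Fs S n) * lg p' (Fs S n)| ≤ C₀ ^ 2 * N / P + 4 * (P : ℝ) ^ 2 := by
  obtain ⟨⟨h1, h2⟩, h3⟩ := mem_PP.1 hp
  obtain ⟨⟨h1', h2'⟩, h3'⟩ := mem_PP.1 hp'
  have hcop : Nat.Coprime p p' := (Nat.coprime_primes h3 h3').2 hne
  have hper1 : Function.Periodic (fun n => lg p (Fs S n)) p := fun n => lg_Fs_periodic p S n
  have hper2 : Function.Periodic (fun n => lg p' (Fs S n)) p' := fun n => lg_Fs_periodic p' S n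
  have hper : ∀ n, lg p (Fs S (n + p * p')) * lg p' (Fs S (n + p * p')) =
      lg p (Fs S n) * lg p' (Fs S n) := by
    intro n
    have e1 : lg p (Fs S (n + p * p')) = lg p (Fs S n) := by
      have := hper1.nat_mul p' n
      simp only [Nat.cast_id] at this
      rw [mul_comm p p']
      exact this
    have e2 : lg p' (Fs S (n + p * p')) = lg p' (Fs S n) := by
      have := hper2.nat_mul p n
      simp only [Nat.cast_id] at this
      exact this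
    rw [e1, e2]
  have hb : ∀ n, |lg p (Fs S n) * lg p' (Fs S n)| ≤ 1 := by
    intro n
    rw [abs_mul]
    calc _ ≤ (1:ℝ) * 1 := mul_le_mul (abs_lg_le _ _) (abs_lg_le _ _) (abs_nonneg _) zero_le_one
      _ = 1 := by norm_num
  have hA : |∑ n ∈ range (p * p'), lg p (Fs S n) * lg p' (Fs S n)| ≤
      (C₀ * Real.sqrt p) * (C₀ * Real.sqrt p') := by
    rw [sum_range_mul_of_coprime hcop h3.pos h3'.pos (fun n => lg_Fs_periodic p S n)
      (fun n => lg_Fs_periodic p' S n), abs_mul]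
    exact mul_le_mul (h p h3 S hS fun s hs => (hSP s hs).trans_lt h1)
      (h p' h3' S hS fun s hs => (hSP s hs).trans_lt h1') (abs_nonneg _) (by positivity)
  have hmain := abs_sum_Ioc_le_of_periodic (φ := fun n => lg p (Fs S n) * lg p' (Fs S n))
    (Nat.mul_pos h3.pos h3'.pos) hper hb hA N
  refine hmain.trans ?_
  have hP0 : (0:ℝ) < P := by
    have : 0 < P := by omega
    exact_mod_cast this
  have c1 : (P:ℝ) < p := by exact_mod_cast h1
  have c1' : (P:ℝ) < p' := by exact_mod_cast h1'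
  have c2 : (p:ℝ) ≤ 2 * P := by exact_mod_cast h2
  have c2' : (p':ℝ) ≤ 2 * P := by exact_mod_cast h2'
  have hp0 : (0:ℝ) < p := hP0.trans c1
  have hp0' : (0:ℝ) < p' := hP0.trans c1'
  have d1 := sqrt_div hP0 c1
  have d2 := sqrt_div hP0 c1'
  have e1 : (N : ℝ) / ((p * p' : ℕ) : ℝ) * ((C₀ * Real.sqrt p) * (C₀ * Real.sqrt p')) =
      C₀ ^ 2 * N * ((Real.sqrt p / p) * (Real.sqrt p' / p')) := by
    push_cast
    field_simp
  have e2 : (Real.sqrt p / p) * (Real.sqrt p' / p') ≤ 1 / P := by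
    calc (Real.sqrt p / p) * (Real.sqrt p' / p') ≤ (1 / Real.sqrt P) * (1 / Real.sqrt P) :=
          mul_le_mul d1 d2 (by positivity) (by positivity)
      _ = 1 / P := by
          rw [div_mul_div_comm, one_mul, Real.mul_self_sqrt hP0.le]
  have e3 : ((p * p' : ℕ) : ℝ) ≤ 4 * (P:ℝ) ^ 2 := by
    push_cast
    nlinarith
  rw [e1]
  have e4 : C₀ ^ 2 * N * ((Real.sqrt p / p) * (Real.sqrt p' / p')) ≤ C₀ ^ 2 * N * (1 / P) :=
    mul_le_mul_of_nonneg_left e2 (by positivity)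
  have e5 : C₀ ^ 2 * (N:ℝ) * (1 / P) = C₀ ^ 2 * N / P := by ring
  linarith

end Sieve

theorem large_sieve (m : ℕ) (hm : 1 ≤ m) : ∃ C : ℝ, 0 < C ∧ ∀ P N : ℕ, 2 ≤ P → P ^ 3 ≤ 8 * N →
    ∀ S : Finset ℕ, S.card = m → (∀ s ∈ S, s ≤ P) → ∀ c : ℕ → ℝ,
      ∑ p ∈ PP P, (∑ n ∈ Ioc 0 N, c n * lg p (Fs S n)) ^ 2 ≤
        C * N * ∑ n ∈ Ioc 0 N, (c n) ^ 2 := by
  obtain ⟨C₀, hC₀, h⟩ := complete_sum m hm
  refine ⟨C₀ ^ 2 + 33, by positivity, ?_⟩
  intro P N hP hPN S hS hSP c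
  have hP0 : (0:ℝ) < P := by
    have : 0 < P := by omega
    exact_mod_cast this
  have h1 := duality_of_near_orth (PP P) (Ioc 0 N) (fun p n => lg p (Fs S n)) (N : ℝ)
    (C₀ ^ 2 * N / P + 4 * (P : ℝ) ^ 2) (by positivity) (by positivity)
    (by
      intro p _
      calc ∑ n ∈ Ioc 0 N, (lg p (Fs S n)) ^ 2 ≤ ∑ n ∈ Ioc 0 N, (1:ℝ) := by
            refine Finset.sum_le_sum fun n _ => ?_
            rw [← sq_abs]
            exact pow_le_one₀ (abs_nonneg _) (abs_lg_le _ _)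
        _ = N := by simp)
    (fun p hp p' hp' hne => Sieve.cross hC₀ h hP hS hSP hp hp' hne) c
  refine h1.trans (mul_le_mul_of_nonneg_right ?_ (Finset.sum_nonneg fun n _ => sq_nonneg _))
  have h2 : ((PP P).card : ℝ) ≤ P := by exact_mod_cast card_PP_le P
  have h3 : (P:ℝ) ^ 3 ≤ 8 * N := by exact_mod_cast hPN
  have h4 : (C₀ ^ 2 * N / P + 4 * (P : ℝ) ^ 2) * (PP P).card ≤
      (C₀ ^ 2 * N / P + 4 * (P : ℝ) ^ 2) * P := mul_le_mul_of_nonneg_left h2 (by positivity)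
  have h5 : (C₀ ^ 2 * N / P + 4 * (P : ℝ) ^ 2) * P = C₀ ^ 2 * N + 4 * (P:ℝ) ^ 3 := by
    field_simp
  have h6 : (C₀ ^ 2 + 33) * (N:ℝ) = C₀ ^ 2 * N + 33 * N := by ring
  rw [h6]
  linarith

end Pool.Agent.P4f18dfQ
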