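import Pool.Agent.Lib.P4f18dfQ.Defs

/-!
# The discrepancy of the moments as a sum over odd tuples

Module QT.Tup.  Call `a ∈ Ioc 0 N` bad if some multiple of `p` lies in `(a, a + h]`.
(1) For a good `a`: `Wd (fq p) h a = ∑_{i ∈ Icc 1 h} fq p (a + i)`, its `k`-th power is the sum over
`t ∈ Fintype.piFinset (fun _ => Icc 1 h)` of `∏_j fq p (a + t j)`
`= ∏_j μ(a + t j) * ∏_j lg p (a + t j)` (no multiples of `p`), and
`∏_j lg p (a + t j) = ∏_{s ∈ image t} lg p (a + s)^{mult} = ∏_{s ∈ od t} lg p (a + s) =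
lg p (Fs (od t) a)` (`Finset.prod_comp`, `lg^2 = 1`, `lg_Fs`, `add_comm`).  The tuples with
`od t = ∅` contribute the number of those with all `a + t j` squarefree, which is
`triv k (Q h a)` (bijection `t ↦ a + t`; or use `pow_eq_triv_add` from `Lib/P4f18df/Tuples.lean` for
`A = Q h a`, `f = fq p` and match `ntr k (Q h a)` with the remaining tuples, for the others the
product of `μ` vanishes).
(2) For every `a`, `|(Wd (fq p) h a)^k - triv k (Q h a)| ≤ h^k` (`pow_eq_triv_add`: a sum over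
`ntr`, at most `card^k` tuples, `sgn_fq`) and the `a`-term of `Gk` is at most `h^k` in absolute value
(at most `h^k` tuples).
(3) The number of bad `a` is at most `h (N + h) / p ≤ 2 h N / p`.
-/

set_option autoImplicit false

namespace Pool.Agent.P4f18dfQ

open Finset Pool.Agent.P4f18df

namespace Tup

lemma Wd_eq {p : ℕ} (hp : p.Prime) (h a : ℕ) : Wd (fq p) h a = ∑ n ∈ Q h a, fq p n := by
  unfold Wd Q
  rw [Finset.sum_filter]
  apply Finset.sum_congr rfl
  intro n _
  split_ifs with hn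
  · rfl
  · exact ((sgn_fq hp) n).2 hn

lemma fq_sq {p : ℕ} (hp : p.Prime) (h a : ℕ) : ∀ n ∈ Q h a, fq p n * fq p n = 1 := by
  intro n hn
  rw [mem_Q] at hn
  rcases ((sgn_fq hp) n).1 hn.2 with h1 | h1 <;> rw [h1] <;> norm_num

lemma pow_sub {p : ℕ} (hp : p.Prime) (k h a : ℕ) :
    (Wd (fq p) h a) ^ k - (triv k (Q h a) : ℝ) =
      ∑ t ∈ ntr k (Q h a), ∏ i, fq p (t i) := by
  rw [Wd_eq hp, pow_eq_triv_add k (Q h a) (fq p) (fq_sq hp h a)]
  ring

lemma card_ntr_le (k h a : ℕ) : ((ntr k (Q h a)).card : ℝ) ≤ (h : ℝ) ^ k := by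
  have h1 : (ntr k (Q h a)).card ≤ (Q h a).card ^ k := by
    unfold ntr
    refine le_trans (Finset.card_filter_le _ _) ?_
    rw [Fintype.card_piFinset]
    simp
  have h2 : (Q h a).card ^ k ≤ h ^ k := Nat.pow_le_pow_left (card_Q_le h a) k
  exact_mod_cast le_trans h1 h2

/-- the `a`-term of `Gk` -/
noncomputable def G1 (k h p a : ℕ) : ℝ :=
  ∑ t ∈ Tk k h, (∏ j, (ArithmeticFunction.moebius (a + t j) : ℝ)) * lg p (Fs (od t) a)

lemma abs_G1_le (k h p a : ℕ) : |G1 k h p a| ≤ (h : ℝ) ^ k := by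
  unfold G1
  refine le_trans (Finset.abs_sum_le_sum_abs _ _) ?_
  have h1 : ∀ t ∈ Tk k h,
      |(∏ j, (ArithmeticFunction.moebius (a + t j) : ℝ)) * lg p (Fs (od t) a)| ≤ 1 := by
    intro t _
    rw [abs_mul, Finset.abs_prod]
    have h2 : ∏ j, |(ArithmeticFunction.moebius (a + t j) : ℝ)| ≤ 1 :=
      Finset.prod_le_one (fun j _ => abs_nonneg _) (fun j _ => abs_moebius_le _)
    calc _ ≤ (1 : ℝ) * 1 := mul_le_mul h2 (abs_lg_le _ _) (abs_nonneg _) zero_le_one
      _ = 1 := by norm_num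
  refine le_trans (Finset.sum_le_sum h1) ?_
  rw [Finset.sum_const, nsmul_eq_mul, mul_one]
  have h3 : (Tk k h).card ≤ h ^ k := by
    unfold Tk
    refine le_trans (Finset.card_filter_le _ _) ?_
    rw [Fintype.card_piFinset]
    simp
  exact_mod_cast h3

lemma prod_lg {p : ℕ} (hp : p.Prime) (k h a : ℕ)
    (hg : ∀ i, 1 ≤ i → i ≤ h → ¬ p ∣ a + i) (t : Fin k → ℕ)
    (ht : ∀ j, t j ∈ Icc 1 h) : ∏ j, lg p (a + t j) = lg p (Fs (od t) a) := by
  rw [lg_Fs, od, Finset.prod_filter]
  rw [Finset.prod_comp (fun s => lg p (a + s)) t]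
  apply Finset.prod_congr rfl
  intro s hs
  obtain ⟨j, _, rfl⟩ := Finset.mem_image.1 hs
  have hj := Finset.mem_Icc.1 (ht j)
  have hx : lg p (a + t j) = 1 ∨ lg p (a + t j) = -1 :=
    lg_sq_of_not_dvd hp (hg _ hj.1 hj.2)
  have e : ({x | t x = t j} : Finset (Fin k)) = univ.filter (fun x => t x = t j) := rfl
  by_cases ho : Odd (univ.filter (fun x => t x = t j)).card
  · rw [if_pos ho]
    rcases hx with hx | hx
    · rw [hx, one_pow]
    · rw [hx, Odd.neg_one_pow ho]
  · rw [if_neg ho]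
    rw [Nat.not_odd_iff_even] at ho
    rcases hx with hx | hx
    · rw [hx, one_pow]
    · rw [hx, Even.neg_one_pow ho]

lemma good_eq {p : ℕ} (hp : p.Prime) (k h a : ℕ)
    (hg : ∀ i, 1 ≤ i → i ≤ h → ¬ p ∣ a + i) :
    (Wd (fq p) h a) ^ k - (triv k (Q h a) : ℝ) = G1 k h p a := by
  rw [pow_sub hp]
  have h1 : G1 k h p a = ∑ t ∈ (Tk k h).filter (fun t => ∀ j, Squarefree (a + t j)),
      (∏ j, (ArithmeticFunction.moebius (a + t j) : ℝ)) * lg p (Fs (od t) a) := by
    unfold G1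
    rw [Finset.sum_filter]
    apply Finset.sum_congr rfl
    intro t _
    split_ifs with hs
    · rfl
    · push Not at hs
      obtain ⟨j, hj⟩ := hs
      rw [Finset.prod_eq_zero (Finset.mem_univ j), zero_mul]
      rw [ArithmeticFunction.moebius_eq_zero_of_not_squarefree hj]; simp
  rw [h1]
  symm
  apply Finset.sum_nbij' (fun t j => a + t j) (fun s j => s j - a)
  · -- maps to
    intro t ht
    rw [Finset.mem_filter, Tk, Finset.mem_filter, Fintype.mem_piFinset] at ht
    obtain ⟨⟨ht1, s, hs⟩, ht3⟩ := ht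
    rw [ntr, Finset.mem_filter, Fintype.mem_piFinset]
    have hQ : ∀ j, a + t j ∈ Q h a := by
      intro j
      have := Finset.mem_Icc.1 (ht1 j)
      rw [mem_Q]
      exact ⟨⟨by omega, by omega⟩, ht3 j⟩
    refine ⟨hQ, ?_⟩
    intro hall
    rw [od, Finset.mem_filter] at hs
    obtain ⟨hs1, hs2⟩ := hs
    obtain ⟨j, _, rfl⟩ := Finset.mem_image.1 hs1
    have := hall _ (hQ j)
    rw [← Nat.not_even_iff_odd] at hs2
    apply hs2
    have e : (univ.filter (fun i => a + t i = a + t j)) = univ.filter (fun i => t i = t j) := by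
      ext i; simp
    rw [e] at this
    exact this
  · intro s hs
    rw [ntr, Finset.mem_filter, Fintype.mem_piFinset] at hs
    obtain ⟨hs1, hs2⟩ := hs
    push Not at hs2
    obtain ⟨v, hv, hv2⟩ := hs2
    have hsj : ∀ j, a < s j ∧ s j ≤ a + h ∧ Squarefree (s j) := by
      intro j
      have := mem_Q.1 (hs1 j)
      exact ⟨this.1.1, this.1.2, this.2⟩
    have hvv := mem_Q.1 hv
    rw [Finset.mem_filter, Tk, Finset.mem_filter, Fintype.mem_piFinset]
    refine ⟨⟨?_, ?_⟩, ?_⟩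
    · intro j
      have := hsj j
      rw [Finset.mem_Icc]
      omega
    · have e : (univ.filter (fun i => s i - a = v - a)) = univ.filter (fun i => s i = v) := by
        ext i
        simp only [Finset.mem_filter, Finset.mem_univ, true_and]
        have := hsj i
        omega
      refine ⟨v - a, ?_⟩
      rw [od, Finset.mem_filter]
      have ho : Odd (univ.filter (fun i => s i = v)).card := by
        rw [← Nat.not_even_iff_odd]; exact hv2
      constructor
      · have hne : (univ.filter (fun i => s i = v)).Nonempty := by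
          rw [Finset.nonempty_iff_ne_empty]
          intro h0
          rw [h0] at ho
          simp at ho
        obtain ⟨i, hi⟩ := hne
        rw [Finset.mem_filter] at hi
        rw [Finset.mem_image]
        exact ⟨i, Finset.mem_univ _, by rw [hi.2]⟩
      · rw [e]; exact ho
    · intro j
      have := hsj j
      rw [show a + (s j - a) = s j from by omega]
      exact this.2.2
  · intro t _
    funext j
    simp
  · intro s hs
    rw [ntr, Finset.mem_filter, Fintype.mem_piFinset] at hs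
    funext j
    have := (mem_Q.1 (hs.1 j)).1.1
    simp only
    omega
  · intro t ht
    rw [Finset.mem_filter, Tk, Finset.mem_filter, Fintype.mem_piFinset] at ht
    rw [← prod_lg hp k h a hg t ht.1.1, ← Finset.prod_mul_distrib]
    apply Finset.prod_congr rfl
    intro j _
    have hj := Finset.mem_Icc.1 (ht.1.1 j)
    unfold fq
    rw [if_neg (hg _ hj.1 hj.2)]

/-- the bad `a` -/
def bad (N h p : ℕ) : Finset ℕ :=
  (Ioc 0 N).filter (fun a => ∃ i ∈ Icc 1 h, p ∣ a + i)

lemma card_bad_le {p : ℕ} (hp : p.Prime) (N h : ℕ) (hh : h ≤ N) :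
    ((bad N h p).card : ℝ) ≤ 2 * h * N / p := by
  have h1 : bad N h p ⊆ (((Ioc 0 (N + h)).filter (fun m => p ∣ m)) ×ˢ (Icc 1 h)).image
      (fun x => x.1 - x.2) := by
    intro a ha
    rw [bad, Finset.mem_filter] at ha
    obtain ⟨ha1, i, hi, hd⟩ := ha
    rw [Finset.mem_Ioc] at ha1
    rw [Finset.mem_image]
    refine ⟨(a + i, i), ?_, by simp⟩
    rw [Finset.mem_product, Finset.mem_filter, Finset.mem_Ioc]
    rw [Finset.mem_Icc] at hi
    refine ⟨⟨⟨by simp only; omega, by simp only; omega⟩, hd⟩, Finset.mem_Icc.2 hi⟩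
  have h2 : (bad N h p).card ≤ ((N + h) / p) * h := by
    refine le_trans (Finset.card_le_card h1) ?_
    refine le_trans Finset.card_image_le ?_
    rw [Finset.card_product, Nat.Ioc_filter_dvd_card_eq_div]
    simp
  have hp0 : (0 : ℝ) < p := by exact_mod_cast hp.pos
  have h3 : (((N + h) / p : ℕ) : ℝ) ≤ ((N : ℝ) + h) / p := by
    have := @Nat.cast_div_le ℝ _ _ _ (N + h) p
    push_cast at this
    exact this
  have h4 : ((bad N h p).card : ℝ) ≤ (((N + h) / p : ℕ) : ℝ) * h := by exact_mod_cast h2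
  have hh' : (h : ℝ) ≤ N := by exact_mod_cast hh
  have h5 : ((N : ℝ) + h) / p ≤ (2 * N) / p := by
    apply div_le_div_of_nonneg_right _ hp0.le
    linarith
  calc ((bad N h p).card : ℝ) ≤ (((N + h) / p : ℕ) : ℝ) * h := h4
    _ ≤ (2 * N) / p * h := by
        apply mul_le_mul_of_nonneg_right (le_trans h3 h5) (by positivity)
    _ = 2 * h * N / p := by ring

lemma Gk_eq (k N h p : ℕ) : Gk k N h p = ∑ a ∈ Ioc 0 N, G1 k h p a := by
  unfold Gk G1
  rw [Finset.sum_comm]

end Tup

theorem abs_pow_sub_triv_le {p : ℕ} (hp : p.Prime) (k h a : ℕ) :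
    |(Wd (fq p) h a) ^ k - (triv k (Q h a) : ℝ)| ≤ (h : ℝ) ^ k := by
  rw [Tup.pow_sub hp]
  refine le_trans (Finset.abs_sum_le_sum_abs _ _) ?_
  have h1 : ∀ t ∈ ntr k (Q h a), |∏ i, fq p (t i)| ≤ 1 := by
    intro t _
    rw [Finset.abs_prod]
    exact Finset.prod_le_one (fun j _ => abs_nonneg _) (fun j _ => abs_fq_le _ _)
  refine le_trans (Finset.sum_le_sum h1) ?_
  rw [Finset.sum_const, nsmul_eq_mul, mul_one]
  exact Tup.card_ntr_le k h a

theorem Ek_sub_Gk {p : ℕ} (hp : p.Prime) (k N h : ℕ) (hh : h ≤ N) :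
    |Ek (fq p) k N h - Gk k N h p| ≤ 4 * (h : ℝ) ^ (k + 1) * N / p := by
  rw [Tup.Gk_eq, Ek, ← Finset.sum_sub_distrib]
  refine le_trans (Finset.abs_sum_le_sum_abs _ _) ?_
  have h1 : ∀ a ∈ Ioc 0 N,
      |(Wd (fq p) h a) ^ k - (triv k (Q h a) : ℝ) - Tup.G1 k h p a| ≤
      if (∃ i ∈ Icc 1 h, p ∣ a + i) then 2 * (h : ℝ) ^ k else 0 := by
    intro a _
    split_ifs with hb
    · have h2 := abs_pow_sub_triv_le hp k h a
      have h3 := Tup.abs_G1_le k h p a
      have h4 := abs_sub ((Wd (fq p) h a) ^ k - (triv k (Q h a) : ℝ)) (Tup.G1 k h p a)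
      linarith
    · push Not at hb
      rw [Tup.good_eq hp k h a (fun i hi1 hi2 => hb i (Finset.mem_Icc.2 ⟨hi1, hi2⟩))]
      simp
  refine le_trans (Finset.sum_le_sum h1) ?_
  rw [← Finset.sum_filter, Finset.sum_const, nsmul_eq_mul]
  have h5 := Tup.card_bad_le hp N h hh
  calc _ ≤ (2 * h * N / p : ℝ) * (2 * (h : ℝ) ^ k) :=
        mul_le_mul_of_nonneg_right h5 (by positivity)
    _ = 4 * (h : ℝ) ^ (k + 1) * N / p := by rw [pow_succ]; ring

end Pool.Agent.P4f18dfQ
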