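import Pool.Agent.Lib.P4f18dfQ.Sieve
import Pool.Agent.Lib.P4f18dfQ.Tup

/-!
# Few primes are bad

Module QT.Tail.  `sum_Gk_sq`: by Cauchy–Schwarz over the at most `h^k` tuples `t ∈ Tk k h`,
`(Gk)^2 ≤ h^k ∑_t (∑_a c_t(a) lg p (Fs (od t) a))^2`, `c_t(a) = ∏_j μ(a + t j)`, `|c_t| ≤ 1`; sum over
`p ∈ PP P` with `large_sieve` for `m = (od t).card ∈ [1, k]` (elements of `od t` are `≤ h ≤ P`),
`C` = maximum (or sum) of the constants for `m = 1..k`: total `≤ h^k * h^k * C N * N`.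
`card_bad`: if `lam (√h)^k N < |Ek|` then, as `|Ek - Gk| ≤ 4 h^(k+1) N / p ≤ lam (√h)^k N / 2`
(`Ek_sub_Gk`, `p > P`, hypothesis), `|Gk| ≥ lam (√h)^k N / 2`; Chebyshev:
`# * lam^2 h^k N^2 / 4 ≤ C h^(2k) N^2`.
-/

set_option autoImplicit false

namespace Pool.Agent.P4f18dfQ

open Finset Pool.Agent.P4f18df

namespace Tail

/-- the coefficient of a tuple -/
noncomputable def ct {k : ℕ} (t : Fin k → ℕ) (a : ℕ) : ℝ :=
  ∏ j, (ArithmeticFunction.moebius (a + t j) : ℝ)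

lemma abs_ct_le {k : ℕ} (t : Fin k → ℕ) (a : ℕ) : |ct t a| ≤ 1 := by
  unfold ct
  rw [Finset.abs_prod]
  exact Finset.prod_le_one (fun _ _ => abs_nonneg _) fun _ _ => abs_moebius_le _

lemma card_Tk_le (k h : ℕ) : ((Tk k h).card : ℝ) ≤ (h : ℝ) ^ k := by
  have h1 : (Tk k h).card ≤ h ^ k := by
    unfold Tk
    refine (Finset.card_filter_le _ _).trans ?_
    rw [Fintype.card_piFinset]
    simp
  exact_mod_cast h1

lemma od_card {k h : ℕ} {t : Fin k → ℕ} (ht : t ∈ Tk k h) : 1 ≤ (od t).card ∧ (od t).card ≤ k ∧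
    ∀ s ∈ od t, s ≤ h := by
  unfold Tk at ht
  rw [Finset.mem_filter, Fintype.mem_piFinset] at ht
  refine ⟨Finset.card_pos.2 ht.2, ?_, ?_⟩
  · unfold od
    refine (Finset.card_filter_le _ _).trans ?_
    refine (Finset.card_image_le).trans ?_
    simp
  · intro s hs
    unfold od at hs
    rw [Finset.mem_filter, Finset.mem_image] at hs
    obtain ⟨⟨j, _, rfl⟩, _⟩ := hs
    exact (Finset.mem_Icc.1 (ht.1 j)).2

lemma exists_const (k : ℕ) : ∃ C : ℝ, 0 < C ∧ ∀ m : ℕ, 1 ≤ m → m ≤ k → ∀ P N : ℕ, 2 ≤ P → P ^ 3 ≤ 8 * N →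
    ∀ S : Finset ℕ, S.card = m → (∀ s ∈ S, s ≤ P) → ∀ c : ℕ → ℝ,
      ∑ p ∈ PP P, (∑ n ∈ Ioc 0 N, c n * lg p (Fs S n)) ^ 2 ≤
        C * N * ∑ n ∈ Ioc 0 N, (c n) ^ 2 := by
  induction k with
  | zero => exact ⟨1, one_pos, fun m h1 h2 => absurd (h1.trans h2) (by norm_num)⟩
  | succ k ih =>
    obtain ⟨C, hC, h⟩ := ih
    obtain ⟨C', hC', h'⟩ := large_sieve (k + 1) (by omega)
    refine ⟨C + C', by positivity, fun m h1 h2 P N hP hPN S hS hSP c => ?_⟩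
    have h0 : 0 ≤ (N : ℝ) * ∑ n ∈ Ioc 0 N, (c n) ^ 2 :=
      mul_nonneg (Nat.cast_nonneg _) (Finset.sum_nonneg fun _ _ => sq_nonneg _)
    rcases Nat.lt_or_ge k m with hm | hm
    · have hm' : m = k + 1 := by omega
      subst hm'
      refine (h' P N hP hPN S hS hSP c).trans ?_
      nlinarith
    · refine (h m h1 hm P N hP hPN S hS hSP c).trans ?_
      nlinarith

end Tail

open Tail

theorem sum_Gk_sq (k : ℕ) : ∃ C : ℝ, 0 < C ∧ ∀ P N h : ℕ, 2 ≤ P → P ^ 3 ≤ 8 * N → h ≤ P →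
    ∑ p ∈ PP P, (Gk k N h p) ^ 2 ≤ C * (h : ℝ) ^ (2 * k) * (N : ℝ) ^ 2 := by
  obtain ⟨C, hC, hsv⟩ := exists_const k
  refine ⟨C, hC, fun P N h hP hPN hhP => ?_⟩
  have h1 : ∀ p, (Gk k N h p) ^ 2 ≤ (h : ℝ) ^ k *
      ∑ t ∈ Tk k h, (∑ a ∈ Ioc 0 N, ct t a * lg p (Fs (od t) a)) ^ 2 := by
    intro p
    unfold Gk
    have h2 := sq_sum_le_card_mul_sum_sq (s := Tk k h)
      (f := fun t => ∑ a ∈ Ioc 0 N, ct t a * lg p (Fs (od t) a))
    refine le_trans (le_of_eq ?_) (h2.trans ?_)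
    · rfl
    · exact mul_le_mul_of_nonneg_right (card_Tk_le k h) (Finset.sum_nonneg fun _ _ => sq_nonneg _)
  calc ∑ p ∈ PP P, (Gk k N h p) ^ 2
      ≤ ∑ p ∈ PP P, (h : ℝ) ^ k * ∑ t ∈ Tk k h, (∑ a ∈ Ioc 0 N, ct t a * lg p (Fs (od t) a)) ^ 2 :=
        Finset.sum_le_sum fun p _ => h1 p
    _ = (h : ℝ) ^ k * ∑ t ∈ Tk k h, ∑ p ∈ PP P, (∑ a ∈ Ioc 0 N, ct t a * lg p (Fs (od t) a)) ^ 2 := by
        rw [← Finset.mul_sum, Finset.sum_comm]
    _ ≤ (h : ℝ) ^ k * ∑ _t ∈ Tk k h, C * N * N := by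
        refine mul_le_mul_of_nonneg_left (Finset.sum_le_sum fun t ht => ?_) (by positivity)
        obtain ⟨h2, h3, h4⟩ := od_card ht
        refine (hsv _ h2 h3 P N hP hPN (od t) rfl (fun s hs => (h4 s hs).trans hhP) (ct t)).trans ?_
        refine mul_le_mul_of_nonneg_left ?_ (by positivity)
        calc ∑ n ∈ Ioc 0 N, (ct t n) ^ 2 ≤ ∑ _n ∈ Ioc 0 N, (1 : ℝ) := by
              refine Finset.sum_le_sum fun n _ => ?_
              have := abs_ct_le t n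
              rw [← sq_abs]
              exact pow_le_one₀ (abs_nonneg _) this
          _ = N := by simp
    _ = (h : ℝ) ^ k * ((Tk k h).card * (C * N * N)) := by
        rw [Finset.sum_const, nsmul_eq_mul]
    _ ≤ (h : ℝ) ^ k * ((h : ℝ) ^ k * (C * N * N)) := by
        refine mul_le_mul_of_nonneg_left ?_ (by positivity)
        exact mul_le_mul_of_nonneg_right (card_Tk_le k h) (by positivity)
    _ = _ := by ring

theorem card_bad (k : ℕ) (hk : 1 ≤ k) : ∃ C : ℝ, 0 < C ∧ ∀ P N h : ℕ, 2 ≤ P → P ^ 3 ≤ 8 * N →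
    1 ≤ h → h ≤ P → h ≤ N → ∀ lam : ℝ, 0 < lam →
    8 * (h : ℝ) ^ (k + 1) ≤ lam * (Real.sqrt h) ^ k * P →
      (((PP P).filter (fun p => lam * (Real.sqrt h) ^ k * N < |Ek (fq p) k N h|)).card : ℝ) ≤
        C * (h : ℝ) ^ k / lam ^ 2 := by
  obtain ⟨C, hC, hG⟩ := sum_Gk_sq k
  refine ⟨4 * C, by positivity, fun P N h hP hPN h1 hhP hhN lam hlam hcond => ?_⟩
  set B := (PP P).filter (fun p => lam * (Real.sqrt h) ^ k * N < |Ek (fq p) k N h|) with hB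
  have hh0 : (0 : ℝ) < h := by exact_mod_cast h1
  have hP0 : (0 : ℝ) < P := by
    have : 0 < P := by omega
    exact_mod_cast this
  have hN1 : 0 < N := by omega
  have hN0 : (0 : ℝ) < N := by exact_mod_cast hN1
  have hsk : (Real.sqrt h) ^ k * (Real.sqrt h) ^ k = (h : ℝ) ^ k := by
    rw [← mul_pow, Real.mul_self_sqrt hh0.le]
  have hsq0 : 0 < (Real.sqrt h) ^ k := pow_pos (Real.sqrt_pos.2 hh0) k
  have hkey : ∀ p ∈ B, (lam ^ 2 * (h : ℝ) ^ k * (N : ℝ) ^ 2) / 4 ≤ (Gk k N h p) ^ 2 := by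
    intro p hp
    rw [hB, Finset.mem_filter, mem_PP] at hp
    obtain ⟨⟨⟨hPp, _⟩, hpp⟩, hE⟩ := hp
    have hd := Ek_sub_Gk hpp k N h hhN
    have hpP : (P : ℝ) ≤ p := by exact_mod_cast hPp.le
    have h2 : 4 * (h : ℝ) ^ (k + 1) * N / p ≤ lam * (Real.sqrt h) ^ k * N / 2 := by
      rw [div_le_div_iff₀ (by linarith) (by norm_num)]
      have h3 : 8 * (h : ℝ) ^ (k + 1) ≤ lam * (Real.sqrt h) ^ k * p :=
        hcond.trans (mul_le_mul_of_nonneg_left hpP (by positivity))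
      nlinarith
    have h4 : lam * (Real.sqrt h) ^ k * N / 2 ≤ |Gk k N h p| := by
      have h5 : |Ek (fq p) k N h| ≤ |Ek (fq p) k N h - Gk k N h p| + |Gk k N h p| := by
        have := abs_add_le (Ek (fq p) k N h - Gk k N h p) (Gk k N h p)
        rwa [sub_add_cancel] at this
      linarith
    rw [← sq_abs (Gk k N h p)]
    have h6 : (lam * (Real.sqrt h) ^ k * N / 2) ^ 2 ≤ |Gk k N h p| ^ 2 :=
      pow_le_pow_left₀ (by positivity) h4 2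
    refine le_trans (le_of_eq ?_) h6
    rw [← hsk]
    ring
  have hsum : (B.card : ℝ) * ((lam ^ 2 * (h : ℝ) ^ k * (N : ℝ) ^ 2) / 4) ≤
      C * (h : ℝ) ^ (2 * k) * (N : ℝ) ^ 2 := by
    calc (B.card : ℝ) * ((lam ^ 2 * (h : ℝ) ^ k * (N : ℝ) ^ 2) / 4)
        = ∑ _p ∈ B, (lam ^ 2 * (h : ℝ) ^ k * (N : ℝ) ^ 2) / 4 := by
          rw [Finset.sum_const, nsmul_eq_mul]
      _ ≤ ∑ p ∈ B, (Gk k N h p) ^ 2 := Finset.sum_le_sum hkey
      _ ≤ ∑ p ∈ PP P, (Gk k N h p) ^ 2 :=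
          Finset.sum_le_sum_of_subset_of_nonneg (Finset.filter_subset _ _) fun _ _ _ => sq_nonneg _
      _ ≤ _ := hG P N h hP hPN hhP
  have hhk : 0 < (h : ℝ) ^ k := by positivity
  rw [le_div_iff₀ (by positivity)]
  have e : C * (h : ℝ) ^ (2 * k) * (N : ℝ) ^ 2 = (C * (h : ℝ) ^ k) * ((h : ℝ) ^ k * (N : ℝ) ^ 2) := by ring
  have e2 : (B.card : ℝ) * ((lam ^ 2 * (h : ℝ) ^ k * (N : ℝ) ^ 2) / 4) =
      ((B.card : ℝ) * lam ^ 2 / 4) * ((h : ℝ) ^ k * (N : ℝ) ^ 2) := by ring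
  rw [e, e2] at hsum
  have h7 := le_of_mul_le_mul_right hsum (by positivity)
  linarith

end Pool.Agent.P4f18dfQ
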