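import Mathlib

/-!
# The operator `θ = f d/dX` and orders of vanishing

Module QT.Theta.  Sketch: induction on `l` (hypotheses for `k < l + 1`, `l + 1 ≤ p`).  Write
`R = (X - C x)^l * U`.  Show by induction on `k ≤ l` that
`(th f)^[k] R = (X - C x)^(l - k) * V k` with
`(V k).eval x = l (l-1) ⋯ (l-k+1) * (f.eval x)^k * U.eval x`
(`th f ((X - C x)^(j+1) * V) = (X - C x)^j * (f * ((j+1) * V + (X - C x) * V'))`).  At `k = l` the
value at `x` is `l! * (f.eval x)^l * U.eval x`, it is `0` by hypothesis, and `l! ≠ 0` in `ZMod p`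
because `l < p`; so `U.eval x = 0`, `X - C x ∣ U`, hence `(X - C x)^(l+1) ∣ R`.
-/

set_option autoImplicit false

namespace Pool.Agent.P4f18dfQ

open Polynomial

/-- the operator `f d/dX` -/
noncomputable def th {p : ℕ} (f R : (ZMod p)[X]) : (ZMod p)[X] := f * derivative R

namespace Theta

theorem iter {p : ℕ} [Fact p.Prime] {f U : (ZMod p)[X]} {x : ZMod p} {l : ℕ} (k : ℕ) (hk : k ≤ l) :
    ∃ V : (ZMod p)[X], (th f)^[k] ((X - C x) ^ l * U) = (X - C x) ^ (l - k) * V ∧
      V.eval x = (l.descFactorial k : ZMod p) * (f.eval x) ^ k * U.eval x := by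
  induction k with
  | zero =>
    refine ⟨U, ?_, ?_⟩
    · simp
    · simp
  | succ k ih =>
    obtain ⟨V, h1, h2⟩ := ih (by omega)
    obtain ⟨j, hj⟩ : ∃ j, l - k = j + 1 := ⟨l - k - 1, by omega⟩
    refine ⟨f * (C ((j : ZMod p) + 1) * V + (X - C x) * derivative V), ?_, ?_⟩
    · rw [Function.iterate_succ_apply', h1, hj]
      have e : l - (k + 1) = j := by omega
      rw [e]
      unfold th
      rw [derivative_mul, derivative_X_sub_C_pow, Nat.add_sub_cancel]
      push_cast
      ring
    · rw [Nat.descFactorial_succ, hj]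
      simp only [eval_mul, eval_add, eval_C, eval_sub, eval_X, sub_self, zero_mul, add_zero]
      rw [h2]
      push_cast
      ring

end Theta

theorem pow_dvd_of_th {p : ℕ} [Fact p.Prime] {f R : (ZMod p)[X]} {x : ZMod p} {l : ℕ}
    (hl : l ≤ p) (hf : f.eval x ≠ 0) (h : ∀ k < l, ((th f)^[k] R).eval x = 0) :
    (X - C x) ^ l ∣ R := by
  induction l with
  | zero => simp
  | succ l ih =>
    obtain ⟨U, hU⟩ := ih (by omega) fun k hk => h k (by omega)
    obtain ⟨V, h1, h2⟩ := Theta.iter (f := f) (U := U) (x := x) (l := l) l le_rfl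
    have h3 := h l (Nat.lt_succ_self l)
    rw [hU, h1, Nat.sub_self, pow_zero, one_mul, h2, Nat.descFactorial_self] at h3
    have hl0 : ((l.factorial : ℕ) : ZMod p) ≠ 0 := by
      rw [Ne, ZMod.natCast_eq_zero_iff, (Fact.out : p.Prime).dvd_factorial]
      omega
    have h4 : U.eval x = 0 := by
      rcases mul_eq_zero.1 h3 with h5 | h5
      · rcases mul_eq_zero.1 h5 with h6 | h6
        · exact absurd h6 hl0
        · exact absurd h6 (pow_ne_zero _ hf)
      · exact h5
    obtain ⟨W, hW⟩ := dvd_iff_isRoot.2 (show IsRoot U x from h4)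
    refine ⟨W, ?_⟩
    rw [hU, hW]
    ring

end Pool.Agent.P4f18dfQ
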